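import Mathlib

namespace Pool.Agent.H5.W

/-- `W n = ∑_{p^a ∥ n} n / p^a`. -/
def W (n : ℕ) : ℕ := ∑ p ∈ n.primeFactors, n / p ^ (n.factorization p)

/-- `ρ(n) = ∏_{p ∣ n} (1 + 1/p)`. -/
noncomputable def rho (n : ℕ) : ℝ := ∏ p ∈ n.primeFactors, (1 + 1 / (p : ℝ))

/-- The primes up to `z` dividing `E`. -/
def badPrimes (z E : ℕ) : Finset ℕ := (Finset.range (z + 1)).filter (fun p => p.Prime ∧ p ∣ E)

/-- The primes up to `z` not dividing `E`. -/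
def goodPrimes (z E : ℕ) : Finset ℕ := (Finset.range (z + 1)).filter (fun p => p.Prime ∧ ¬ p ∣ E)

/-- `∏_{p ∣ E, p ≤ z} (1 + 1/p)`. -/
noncomputable def rhoz (z E : ℕ) : ℝ := ∏ p ∈ badPrimes z E, (1 + 1 / (p : ℝ))

/-- The sieve sum of dimension `κ`. -/
noncomputable def sieveSum (κ z E : ℕ) : ℝ :=
  ∑ l ∈ (Finset.Icc 1 z).filter (fun l => Squarefree l ∧ l.Coprime E),
    (κ : ℝ) ^ l.primeFactors.card / (l : ℝ)

end Pool.Agent.H5.W
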