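import Pool.Agent.H5.W.Inner

namespace Pool.Agent.H5.W

open Finset

/-- sum of `l^{-1/2}` over common prime divisors `l ≤ J` -/
noncomputable def Gsum (J k k' : ℕ) : ℝ :=
  ∑ l ∈ (range (J + 1)).filter (fun l => l.Prime ∧ l ∣ k ∧ l ∣ k'), 1 / Real.sqrt l

theorem Gsum_nonneg (J k k' : ℕ) : 0 ≤ Gsum J k k' :=
  sum_nonneg (fun l _ => by positivity)

theorem sum_three_half : ∃ C : ℝ, 0 < C ∧ ∀ S : Finset ℕ, ∑ n ∈ S, 1 / ((n : ℝ) * Real.sqrt n) ≤ C := by
  have hs : Summable (fun n : ℕ => 1 / (n : ℝ) ^ (3 / 2 : ℝ)) :=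
    Real.summable_one_div_nat_rpow.mpr (by norm_num)
  refine ⟨∑' n : ℕ, 1 / (n : ℝ) ^ (3 / 2 : ℝ) + 1, ?_, ?_⟩
  · have : 0 ≤ ∑' n : ℕ, 1 / (n : ℝ) ^ (3 / 2 : ℝ) := tsum_nonneg (fun n => by positivity)
    linarith
  · intro S
    have h1 : ∑ n ∈ S, 1 / ((n : ℝ) * Real.sqrt n) = ∑ n ∈ S, 1 / (n : ℝ) ^ (3 / 2 : ℝ) := by
      apply sum_congr rfl
      intro n _
      congr 1
      rcases Nat.eq_zero_or_pos n with rfl | hn
      · simp
      · have hnR : (0 : ℝ) < n := by exact_mod_cast hn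
        rw [Real.sqrt_eq_rpow, show (3 / 2 : ℝ) = 1 + 1 / 2 by norm_num, Real.rpow_add hnR,
          Real.rpow_one]
    rw [h1]
    have := hs.sum_le_tsum S (fun n _ => by positivity)
    linarith

theorem rhoz_sq_le (C : ℝ) (hC : ∀ S : Finset ℕ, (∀ p ∈ S, p.Prime) →
    (∏ p ∈ S, (1 + 1 / (p : ℝ))) ^ 2 ≤ C * (1 + ∑ p ∈ S, 1 / Real.sqrt p))
    (J d E : ℕ) (hd : d ≠ 0) :
    rhoz J E ^ 2 ≤ rho d ^ 2 *
      (C * (1 + ∑ l ∈ (goodPrimes J d).filter (fun l => l ∣ E), 1 / Real.sqrt l)) := by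
  set T := (goodPrimes J d).filter (fun l => l ∣ E) with hT
  have h1 : rhoz J E ≤ rho d * ∏ p ∈ T, (1 + 1 / (p : ℝ)) := by
    unfold rhoz rho
    have hdisj : Disjoint d.primeFactors T := by
      rw [disjoint_left]
      intro p hp hp'
      rw [hT, mem_filter, goodPrimes, mem_filter] at hp'
      exact hp'.1.2.2 (Nat.dvd_of_mem_primeFactors hp)
    rw [← prod_union hdisj]
    apply Finset.prod_le_prod_of_subset_of_one_le
    · intro p hp
      rw [badPrimes, mem_filter] at hp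
      rw [mem_union, hT, mem_filter, goodPrimes, mem_filter]
      by_cases hpd : p ∣ d
      · left; exact Nat.mem_primeFactors.mpr ⟨hp.2.1, hpd, hd⟩
      · right; exact ⟨⟨hp.1, hp.2.1, hpd⟩, hp.2.2⟩
    · intro p _; positivity
    · intro p _ _
      have : (0 : ℝ) ≤ 1 / (p : ℝ) := by positivity
      linarith
  have h2 := hC T (by
    intro p hp
    rw [hT, mem_filter, goodPrimes, mem_filter] at hp
    exact hp.1.2.1)
  calc rhoz J E ^ 2 ≤ (rho d * ∏ p ∈ T, (1 + 1 / (p : ℝ))) ^ 2 := by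
        have := (rhoz_pos J E).le
        gcongr
    _ = rho d ^ 2 * (∏ p ∈ T, (1 + 1 / (p : ℝ))) ^ 2 := by ring
    _ ≤ _ := by gcongr

theorem ite_dvd_EE (l m m' w w' : ℕ) (hl : l.Prime) :
    (if l ∣ EE m m' w w' then (1 : ℝ) else 0) ≤
      (if l = 2 then 1 else 0) + (if l ∣ w then 1 else 0) + (if l ∣ w' then 1 else 0) +
        (if (l : ℤ) ∣ (m : ℤ) - m' then 1 else 0) := by
  have a1 : (0 : ℝ) ≤ (if l = 2 then 1 else 0) := by split_ifs <;> norm_num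
  have a2 : (0 : ℝ) ≤ (if l ∣ w then 1 else 0) := by split_ifs <;> norm_num
  have a3 : (0 : ℝ) ≤ (if l ∣ w' then 1 else 0) := by split_ifs <;> norm_num
  have a4 : (0 : ℝ) ≤ (if (l : ℤ) ∣ (m : ℤ) - m' then 1 else 0) := by split_ifs <;> norm_num
  by_cases h : l ∣ EE m m' w w'
  · rw [if_pos h]
    unfold EE at h
    rcases (Nat.Prime.dvd_mul hl).mp h with h | h
    · rcases (Nat.Prime.dvd_mul hl).mp h with h | h
      · rcases (Nat.Prime.dvd_mul hl).mp h with h | h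
        · have h5 := (Nat.prime_dvd_prime_iff_eq hl Nat.prime_two).mp h
          have : (if l = 2 then (1 : ℝ) else 0) = 1 := if_pos h5
          linarith
        · have : (if l ∣ w then (1 : ℝ) else 0) = 1 := if_pos h
          linarith
      · have : (if l ∣ w' then (1 : ℝ) else 0) = 1 := if_pos h
        linarith
    · have h6 : (l : ℤ) ∣ (m : ℤ) - m' := Int.natCast_dvd.mpr h
      have : (if (l : ℤ) ∣ (m : ℤ) - m' then (1 : ℝ) else 0) = 1 := if_pos h6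
      linarith
  · rw [if_neg h]; linarith

/-- bound for the pairs with `l ∣ E` -/
theorem B_bound (J k k' d l : ℕ) (hJ : 2 ≤ J) (hk : k ≠ 0) (hk' : k' ≠ 0) (hd : 0 < d)
    (hdJ : d ≤ J ^ 68) (hl : l.Prime) (hlJ : l ≤ J) (hld : ¬ l ∣ d) :
    ∑ P ∈ AA J k d, ∑ P' ∈ AA J k' d, (1 / (P : ℝ)) * (1 / (P' : ℝ)) *
      (if l ∣ EE (k * P) (k' * P') (k + P * W k) (k' + P' * W k') then 1 else 0) ≤
    (720 * (rho d / d)) ^ 2 *
      ((if l = 2 then 1 else 0) + 6 / l + (if l ∣ k ∧ l ∣ k' then 1 else 0)) := by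
  set X : ℝ := 720 * (rho d / d) with hX
  have hrd := rho_ge_one d
  have hdR : (0 : ℝ) < d := by exact_mod_cast hd
  have hlR : (0 : ℝ) < l := by exact_mod_cast hl.pos
  have hX0 : 0 < X := by positivity
  have hdJ' : d ≤ J ^ 75 := hdJ.trans (Nat.pow_le_pow_right (by omega) (by norm_num))
  have hA := sum_AA J k d hJ hk hd hdJ'
  have hA' := sum_AA J k' d hJ hk' hd hdJ'
  rw [← hX] at hA hA'
  have hA0 : 0 ≤ ∑ P ∈ AA J k d, 1 / (P : ℝ) := sum_nonneg (fun _ _ => by positivity)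
  have hA0' : 0 ≤ ∑ P ∈ AA J k' d, 1 / (P : ℝ) := sum_nonneg (fun _ _ => by positivity)
  have i2 : (0 : ℝ) ≤ (if l = 2 then 1 else 0) := by split_ifs <;> norm_num
  have i3 : (0 : ℝ) ≤ (if l ∣ k ∧ l ∣ k' then 1 else 0) := by split_ifs <;> norm_num
  have hT2 : ∑ P ∈ AA J k d, 1 / (P : ℝ) * (if l ∣ k + P * W k then 1 else 0) ≤ X * (2 / l) := by
    have := sum_AA_prime J k d l hJ hk hd hdJ hl hlJ hld
    rw [sum_filter] at this
    calc ∑ P ∈ AA J k d, 1 / (P : ℝ) * (if l ∣ k + P * W k then 1 else 0)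
        = ∑ P ∈ AA J k d, (if l ∣ k + P * W k then 1 / (P : ℝ) else 0) := by
          apply sum_congr rfl; intro P _; split_ifs <;> simp
      _ ≤ X * (2 / l) := this
  have hT3 : ∑ P ∈ AA J k' d, 1 / (P : ℝ) * (if l ∣ k' + P * W k' then 1 else 0) ≤
      X * (2 / l) := by
    have := sum_AA_prime J k' d l hJ hk' hd hdJ hl hlJ hld
    rw [sum_filter] at this
    calc ∑ P ∈ AA J k' d, 1 / (P : ℝ) * (if l ∣ k' + P * W k' then 1 else 0)
        = ∑ P ∈ AA J k' d, (if l ∣ k' + P * W k' then 1 / (P : ℝ) else 0) := by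
          apply sum_congr rfl; intro P _; split_ifs <;> simp
      _ ≤ X * (2 / l) := this
  have hT4 : ∀ P' ∈ AA J k' d, ∑ P ∈ AA J k d, 1 / (P : ℝ) *
      (if (l : ℤ) ∣ ((k * P : ℕ) : ℤ) - ((k' * P' : ℕ) : ℤ) then 1 else 0) ≤
      X * (2 / l) + X * (if l ∣ k ∧ l ∣ k' then 1 else 0) := by
    intro P' hP'
    have hP'm := mem_AA hP'
    have hJP' : J < P' := by
      calc J = J ^ 1 := (pow_one J).symm
        _ ≤ J ^ 80 := Nat.pow_le_pow_right (by omega) (by norm_num)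
        _ < P' := hP'm.2.1
    have := sum_AA_prime' J k k' d l P' hJ hk hd hdJ hl hlJ hld hP'm.1 hJP'
    rw [sum_filter] at this
    calc ∑ P ∈ AA J k d, 1 / (P : ℝ) *
          (if (l : ℤ) ∣ ((k * P : ℕ) : ℤ) - ((k' * P' : ℕ) : ℤ) then 1 else 0)
        = ∑ P ∈ AA J k d,
          (if (l : ℤ) ∣ ((k * P : ℕ) : ℤ) - ((k' * P' : ℕ) : ℤ) then 1 / (P : ℝ) else 0) := by
          apply sum_congr rfl; intro P _; split_ifs <;> simp
      _ ≤ _ := this
  calc ∑ P ∈ AA J k d, ∑ P' ∈ AA J k' d, (1 / (P : ℝ)) * (1 / (P' : ℝ)) *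
        (if l ∣ EE (k * P) (k' * P') (k + P * W k) (k' + P' * W k') then 1 else 0)
      ≤ ∑ P ∈ AA J k d, ∑ P' ∈ AA J k' d, (1 / (P : ℝ)) * (1 / (P' : ℝ)) *
        ((if l = 2 then 1 else 0) + (if l ∣ k + P * W k then 1 else 0) +
          (if l ∣ k' + P' * W k' then 1 else 0) +
          (if (l : ℤ) ∣ ((k * P : ℕ) : ℤ) - ((k' * P' : ℕ) : ℤ) then 1 else 0)) := by
        apply sum_le_sum; intro P _; apply sum_le_sum; intro P' _
        have := ite_dvd_EE l (k * P) (k' * P') (k + P * W k) (k' + P' * W k') hl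
        gcongr
    _ = (if l = 2 then 1 else 0) * ((∑ P ∈ AA J k d, 1 / (P : ℝ)) *
            (∑ P' ∈ AA J k' d, 1 / (P' : ℝ))) +
        (∑ P ∈ AA J k d, 1 / (P : ℝ) * (if l ∣ k + P * W k then 1 else 0)) *
            (∑ P' ∈ AA J k' d, 1 / (P' : ℝ)) +
        (∑ P ∈ AA J k d, 1 / (P : ℝ)) *
            (∑ P' ∈ AA J k' d, 1 / (P' : ℝ) * (if l ∣ k' + P' * W k' then 1 else 0)) +
        ∑ P' ∈ AA J k' d, 1 / (P' : ℝ) * (∑ P ∈ AA J k d, 1 / (P : ℝ) *
          (if (l : ℤ) ∣ ((k * P : ℕ) : ℤ) - ((k' * P' : ℕ) : ℤ) then 1 else 0)) := by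
        rw [sum_mul_sum, sum_mul_sum, sum_mul_sum, mul_sum]
        simp_rw [mul_sum]
        rw [sum_comm (s := AA J k' d) (t := AA J k d)]
        rw [← sum_add_distrib, ← sum_add_distrib, ← sum_add_distrib]
        apply sum_congr rfl; intro P _
        rw [← sum_add_distrib, ← sum_add_distrib, ← sum_add_distrib]
        apply sum_congr rfl; intro P' _
        ring
    _ ≤ (if l = 2 then 1 else 0) * (X * X) + (X * (2 / l)) * X + X * (X * (2 / l)) +
        ∑ P' ∈ AA J k' d, 1 / (P' : ℝ) *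
          (X * (2 / l) + X * (if l ∣ k ∧ l ∣ k' then 1 else 0)) := by
        have hs2 : 0 ≤ ∑ P ∈ AA J k d, 1 / (P : ℝ) * (if l ∣ k + P * W k then 1 else 0) :=
          sum_nonneg (fun P _ => by split_ifs <;> positivity)
        have hs3 : 0 ≤ ∑ P ∈ AA J k' d, 1 / (P : ℝ) * (if l ∣ k' + P * W k' then 1 else 0) :=
          sum_nonneg (fun P _ => by split_ifs <;> positivity)
        have h4 : ∑ P' ∈ AA J k' d, 1 / (P' : ℝ) * (∑ P ∈ AA J k d, 1 / (P : ℝ) *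
          (if (l : ℤ) ∣ ((k * P : ℕ) : ℤ) - ((k' * P' : ℕ) : ℤ) then 1 else 0)) ≤
          ∑ P' ∈ AA J k' d, 1 / (P' : ℝ) *
          (X * (2 / l) + X * (if l ∣ k ∧ l ∣ k' then 1 else 0)) := by
          apply sum_le_sum
          intro P' hP'
          have := hT4 P' hP'
          gcongr
        gcongr
    _ ≤ (if l = 2 then 1 else 0) * (X * X) + (X * (2 / l)) * X + X * (X * (2 / l)) +
        X * (X * (2 / l) + X * (if l ∣ k ∧ l ∣ k' then 1 else 0)) := by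
        rw [← sum_mul]
        gcongr
    _ = X ^ 2 * ((if l = 2 then 1 else 0) + 6 / l + (if l ∣ k ∧ l ∣ k' then 1 else 0)) := by
        ring

end Pool.Agent.H5.W
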