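import Pool.Agent.H5.W.BT

namespace Pool.Agent.H5.W

open Finset

/-- the modulus attached to a pair -/
def EE (m m' w w' : ℕ) : ℕ := 2 * w * w' * ((m : ℤ) - m').natAbs

theorem EE_pos {m m' w w' : ℕ} (hw : 0 < w) (hw' : 0 < w') (hm : m ≠ m') : 0 < EE m m' w w' := by
  unfold EE
  have : 0 < ((m : ℤ) - m').natAbs := by
    rw [Int.natAbs_pos]
    intro h
    apply hm
    have : (m : ℤ) = m' := by linarith
    exact_mod_cast this
  positivity

theorem pair_sieve : ∃ C : ℝ, 0 < C ∧ ∀ J m m' w w' V : ℕ, 2 ≤ J → 0 < w → 0 < w' → m ≠ m' →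
    ∀ S : Finset ℕ, (∀ v ∈ S, 0 < v ∧ v ≤ V ∧ ∃ p p' : ℕ, p.Prime ∧ p'.Prime ∧ J < p ∧ J < p' ∧
      v = m + p * w ∧ v = m' + p' * w') →
    (S.card : ℝ) ≤ C * ((V : ℝ) * (Nat.gcd w w') / (w * w')) * (rhoz J (EE m m' w w')) ^ 2 /
      (Real.log J) ^ 2 + (J : ℝ) ^ 4 := by
  obtain ⟨c, hc, hS2⟩ := sieveSum_two_ge
  refine ⟨1 / c, by positivity, ?_⟩
  intro J m m' w w' V hJ hw hw' hm S hS
  have hlog : 0 < Real.log J := Real.log_pos (by exact_mod_cast hJ)
  have hE := EE_pos hw hw' hm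
  set E := EE m m' w w' with hEdef
  rcases S.eq_empty_or_nonempty with rfl | ⟨v0, hv0⟩
  · simp only [card_empty, Nat.cast_zero]
    positivity
  have hg : 0 < Nat.gcd w w' := Nat.gcd_pos_of_pos_left _ hw
  have hlcm : 0 < Nat.lcm w w' := Nat.lcm_pos hw hw'
  have hgood : ∀ l ∈ goodPrimes J E, l.Prime ∧ l ≤ J ∧ l ≠ 2 ∧ ¬ l ∣ w ∧ ¬ l ∣ w' ∧
      ¬ (l : ℤ) ∣ (m : ℤ) - m' := by
    intro l hl
    rw [goodPrimes, mem_filter, mem_range] at hl
    obtain ⟨h1, h2, h3⟩ := hl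
    rw [hEdef, EE] at h3
    refine ⟨h2, by omega, ?_, ?_, ?_, ?_⟩
    · rintro rfl
      exact h3 (by rw [mul_assoc, mul_assoc]; exact dvd_mul_right _ _)
    · intro h
      exact h3 (((h.mul_left 2).mul_right w').mul_right _)
    · intro h
      exact h3 ((h.mul_left (2 * w)).mul_right _)
    · intro h
      have := Int.natCast_dvd.mp h
      exact h3 (this.mul_left _)
  have key := selberg_count 2 J E (Nat.lcm w w') v0 0 V (by norm_num) (by omega) hlcm
    (by
      intro l hl hdvd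
      obtain ⟨h1, -, -, h4, h5, -⟩ := hgood l hl
      have h6 : l ∣ w * w' := hdvd.trans (Nat.lcm_dvd_mul w w')
      rcases (Nat.Prime.dvd_mul h1).mp h6 with h7 | h7
      · exact h4 h7
      · exact h5 h7)
    (by
      intro l hl
      obtain ⟨h1, -, h3, -⟩ := hgood l hl
      have := h1.two_le
      omega)
    (fun l => {m % l, m' % l})
    (by
      intro l hl
      obtain ⟨h1, -, h3, -, -, h6⟩ := hgood l hl
      rw [card_pair]
      intro h
      apply h6
      have h7 : m' ≡ m [MOD l] := h.symm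
      exact (Nat.modEq_iff_dvd.mp h7))
    (by
      intro l hl a ha
      obtain ⟨h1, -⟩ := hgood l hl
      rw [mem_insert, mem_singleton] at ha
      rcases ha with rfl | rfl
      · exact Nat.mod_lt _ h1.pos
      · exact Nat.mod_lt _ h1.pos)
  have hcard : (S.card : ℝ) ≤ ((((Ioc 0 (0 + V)).filter (fun v => v ≡ v0 [MOD (Nat.lcm w w')] ∧
      ∀ l ∈ goodPrimes J E, v % l ∉ ({m % l, m' % l} : Finset ℕ))).card : ℕ) : ℝ) := by
    norm_cast
    apply card_le_card
    intro v hv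
    obtain ⟨hvpos, hvV, p, p', hp, hp', hpJ, hp'J, hvp, hvp'⟩ := hS v hv
    obtain ⟨-, -, p0, p0', -, -, -, -, h0, h0'⟩ := hS v0 hv0
    rw [mem_filter, mem_Ioc]
    refine ⟨⟨hvpos, by omega⟩, ?_, ?_⟩
    · rw [Nat.modEq_iff_dvd]
      rw [Int.natCast_dvd]
      apply Nat.lcm_dvd
      · rw [← Int.natCast_dvd]
        refine ⟨(p0 : ℤ) - p, ?_⟩
        rw [h0, hvp]; push_cast; ring
      · rw [← Int.natCast_dvd]
        refine ⟨(p0' : ℤ) - p', ?_⟩
        rw [h0', hvp']; push_cast; ring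
    · intro l hl
      obtain ⟨h1, h2, h3, h4, h5, h6⟩ := hgood l hl
      rw [mem_insert, mem_singleton, not_or]
      constructor
      · intro h
        have h7 : m ≡ v [MOD l] := h.symm
        rw [Nat.modEq_iff_dvd, hvp] at h7
        have h8 : (l : ℤ) ∣ ((p * w : ℕ) : ℤ) := by
          have : ((m + p * w : ℕ) : ℤ) - m = ((p * w : ℕ) : ℤ) := by push_cast; ring
          rwa [this] at h7
        have h9 : l ∣ p * w := by exact_mod_cast h8
        rcases (Nat.Prime.dvd_mul h1).mp h9 with h10 | h10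
        · have := (Nat.prime_dvd_prime_iff_eq h1 hp).mp h10
          omega
        · exact h4 h10
      · intro h
        have h7 : m' ≡ v [MOD l] := h.symm
        rw [Nat.modEq_iff_dvd, hvp'] at h7
        have h8 : (l : ℤ) ∣ ((p' * w' : ℕ) : ℤ) := by
          have : ((m' + p' * w' : ℕ) : ℤ) - m' = ((p' * w' : ℕ) : ℤ) := by push_cast; ring
          rwa [this] at h7
        have h9 : l ∣ p' * w' := by exact_mod_cast h8
        rcases (Nat.Prime.dvd_mul h1).mp h9 with h10 | h10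
        · have := (Nat.prime_dvd_prime_iff_eq h1 hp').mp h10
          omega
        · exact h5 h10
  have hrz := rhoz_pos J E
  have hSlow := hS2 J E (by omega) hE
  have hlow : 0 < c * Real.log J ^ 2 / rhoz J E ^ 2 := by positivity
  have hlcmR : ((Nat.lcm w w' : ℕ) : ℝ) = (w : ℝ) * w' / (Nat.gcd w w') := by
    rw [eq_div_iff (by positivity)]
    have := Nat.gcd_mul_lcm w w'
    rw [mul_comm]
    exact_mod_cast this
  have hwR : (0 : ℝ) < w := by exact_mod_cast hw
  have hw'R : (0 : ℝ) < w' := by exact_mod_cast hw'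
  have hgR : (0 : ℝ) < (Nat.gcd w w' : ℕ) := by exact_mod_cast hg
  calc (S.card : ℝ) ≤ _ := hcard
    _ ≤ ((V : ℝ) / (Nat.lcm w w' : ℕ)) / sieveSum 2 J E + (J : ℝ) ^ 4 := key
    _ ≤ ((V : ℝ) / (Nat.lcm w w' : ℕ)) / (c * Real.log J ^ 2 / rhoz J E ^ 2) +
        (J : ℝ) ^ 4 := by gcongr
    _ = 1 / c * ((V : ℝ) * (Nat.gcd w w') / (w * w')) * (rhoz J E) ^ 2 /
      (Real.log J) ^ 2 + (J : ℝ) ^ 4 := by
        rw [hlcmR]
        field_simp

end Pool.Agent.H5.W
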