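import Pool.Agent.H5.W.Final2

namespace Pool.Agent.H5.W

open Finset

/-- `W` takes at least `c x` distinct values on `[1, x]`, for every `x ≥ 1`. -/
theorem lower_all : ∃ c : ℝ, 0 < c ∧ ∀ x : ℕ, 1 ≤ x →
    c * (x : ℝ) ≤ ((((Icc 1 x).image W).card : ℕ) : ℝ) := by
  obtain ⟨c, hc, J0, h⟩ := main_lower
  set N : ℕ := max 1 J0 with hN
  have hN1 : 1 ≤ N := le_max_left _ _
  have hNpow : 0 < N ^ 400 := Nat.pow_pos (by omega)
  have hNR : (0 : ℝ) < ((N ^ 400 : ℕ) : ℝ) := by exact_mod_cast hNpow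
  have h2R : (0 : ℝ) < (2 : ℝ) ^ 400 := by positivity
  refine ⟨min (c / 2 ^ 400) (1 / ((N ^ 400 : ℕ) : ℝ)), lt_min (by positivity) (by positivity), ?_⟩
  intro x hx
  have hxR : (0 : ℝ) < x := by exact_mod_cast hx
  rcases le_or_gt x (N ^ 400) with hsmall | hlarge
  · have h1 : 1 ≤ ((Icc 1 x).image W).card := by
      apply Finset.card_pos.mpr
      exact ⟨W 1, mem_image_of_mem W (mem_Icc.mpr ⟨le_rfl, hx⟩)⟩
    have h2 : (1 : ℝ) ≤ (((Icc 1 x).image W).card : ℝ) := by exact_mod_cast h1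
    have h3 : (x : ℝ) ≤ ((N ^ 400 : ℕ) : ℝ) := by exact_mod_cast hsmall
    calc min (c / 2 ^ 400) (1 / ((N ^ 400 : ℕ) : ℝ)) * (x : ℝ)
        ≤ (1 / ((N ^ 400 : ℕ) : ℝ)) * (x : ℝ) := by
          apply mul_le_mul_of_nonneg_right (min_le_right _ _) hxR.le
      _ ≤ 1 := by rw [one_div, inv_mul_le_iff₀ hNR]; linarith
      _ ≤ _ := h2
  · -- the largest `J` with `J ^ 400 ≤ x`
    have hex : ∃ J, N ≤ J ∧ J ^ 400 ≤ x ∧ x < (J + 1) ^ 400 := by
      have hP : ∃ n, x < (n + 1) ^ 400 := ⟨x, by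
        calc x < x + 1 := Nat.lt_succ_self x
          _ = (x + 1) ^ 1 := (pow_one _).symm
          _ ≤ (x + 1) ^ 400 := Nat.pow_le_pow_right (by omega) (by norm_num)⟩
      classical
      refine ⟨Nat.find hP, ?_, ?_, Nat.find_spec hP⟩
      · by_contra hlt
        push Not at hlt
        have h1 := Nat.find_spec hP
        have h2 : (Nat.find hP + 1) ^ 400 ≤ N ^ 400 := Nat.pow_le_pow_left (by omega) 400
        omega
      · by_contra hgt
        push Not at hgt
        have h0 : Nat.find hP ≠ 0 := by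
          intro h0
          rw [h0] at hgt
          simp at hgt
        have h3 := Nat.find_min hP (m := Nat.find hP - 1) (by omega)
        apply h3
        have h4 : Nat.find hP - 1 + 1 = Nat.find hP := by omega
        rw [h4]
        exact hgt
    obtain ⟨J, hJN, hJx, hxJ⟩ := hex
    have hJ1 : 1 ≤ J := hN1.trans hJN
    have h1 := h J ((le_max_right _ _).trans hJN)
    have h2 : ((((Icc 1 (J ^ 400)).image W).card : ℕ) : ℝ) ≤
        ((((Icc 1 x).image W).card : ℕ) : ℝ) := by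
      have : (Icc 1 (J ^ 400)).image W ⊆ (Icc 1 x).image W :=
        image_subset_image (Icc_subset_Icc le_rfl hJx)
      exact_mod_cast card_le_card this
    have h3 : (x : ℝ) ≤ 2 ^ 400 * (J : ℝ) ^ 400 := by
      have h4 : x ≤ (2 * J) ^ 400 :=
        hxJ.le.trans (Nat.pow_le_pow_left (by omega) 400)
      rw [mul_pow] at h4
      exact_mod_cast h4
    calc min (c / 2 ^ 400) (1 / ((N ^ 400 : ℕ) : ℝ)) * (x : ℝ)
        ≤ (c / 2 ^ 400) * (x : ℝ) := mul_le_mul_of_nonneg_right (min_le_left _ _) hxR.le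
      _ ≤ (c / 2 ^ 400) * (2 ^ 400 * (J : ℝ) ^ 400) :=
          mul_le_mul_of_nonneg_left h3 (by positivity)
      _ = c * (J : ℝ) ^ 400 := by
          rw [← mul_assoc, div_mul_cancel₀ _ h2R.ne']
      _ ≤ _ := h1.trans h2

end Pool.Agent.H5.W
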