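import Pool.Agent.H5.W.Defs
import Pool.Agent.H3.WSieve
import Pool.Agent.H41.Sieve.SSUM
import Pool.Agent.H49.W.ModU
import Pool.Agent.H3.WPrimes
import Pool.Agent.H92.DivBound

namespace Pool.Agent.H5.W

open Finset

theorem sum_biUnion_le' {ι α : Type} [DecidableEq α] (s : Finset ι) (t : ι → Finset α)
    (f : α → ℝ) (hf : ∀ a, 0 ≤ f a) :
    ∑ a ∈ s.biUnion t, f a ≤ ∑ i ∈ s, ∑ a ∈ t i, f a := by
  classical
  induction s using Finset.induction with
  | empty => simp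
  | insert i s hi ih =>
    rw [biUnion_insert, sum_insert hi]
    have h1 := Finset.sum_union_inter (s₁ := t i) (s₂ := s.biUnion t) (f := f)
    have h2 : 0 ≤ ∑ a ∈ t i ∩ s.biUnion t, f a := sum_nonneg (fun a _ => hf a)
    linarith

theorem rho_ge_one (n : ℕ) : 1 ≤ rho n := by
  unfold rho
  apply Finset.one_le_prod
  intro p _
  have : (0 : ℝ) ≤ 1 / (p : ℝ) := by positivity
  linarith

theorem rhoz_le_rho (z E : ℕ) (hE : E ≠ 0) : rhoz z E ≤ rho E := by
  unfold rhoz rho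
  apply Finset.prod_le_prod_of_subset_of_one_le
  · intro p hp
    rw [badPrimes, mem_filter] at hp
    exact Nat.mem_primeFactors.mpr ⟨hp.2.1, hp.2.2, hE⟩
  · intro p _
    positivity
  · intro p _ _
    have : (0 : ℝ) ≤ 1 / (p : ℝ) := by positivity
    linarith

/-- primes in a block of length `Y` in a residue class -/
theorem block_count (J Y q u : ℕ) (hJ : 2 ≤ J) (hJY : J ≤ Y) (hq : 0 < q) :
    ((((Ioc Y (2 * Y)).filter (fun p => p.Prime ∧ p ≡ u [MOD q])).card : ℕ) : ℝ) ≤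
      2 * ((Y : ℝ) / q) * rho q / Real.log J + (J : ℝ) ^ 4 := by
  have hlog : 0 < Real.log J := Real.log_pos (by exact_mod_cast hJ)
  have h1 := selberg_count 1 J q q u Y Y le_rfl (by omega) hq
    (by
      intro l hl
      rw [goodPrimes, mem_filter] at hl
      exact hl.2.2)
    (by
      intro l hl
      rw [goodPrimes, mem_filter] at hl
      exact hl.2.1.one_lt)
    (fun _ => {0}) (by intro l _; simp)
    (by
      intro l hl a ha
      rw [goodPrimes, mem_filter] at hl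
      rw [mem_singleton] at ha
      rw [ha]; exact hl.2.1.pos)
  have h2 := sieveSum_one_ge J q (by omega) hq
  have hrz := rhoz_pos J q
  have hpos : 0 < Real.log J / (2 * rhoz J q) := by positivity
  calc ((((Ioc Y (2 * Y)).filter (fun p => p.Prime ∧ p ≡ u [MOD q])).card : ℕ) : ℝ)
      ≤ ((((Ioc Y (Y + Y)).filter (fun v => v ≡ u [MOD q] ∧
      ∀ l ∈ goodPrimes J q, v % l ∉ ({0} : Finset ℕ))).card : ℕ) : ℝ) := by
        norm_cast
        apply Finset.card_le_card
        intro p hp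
        rw [mem_filter, mem_Ioc] at hp ⊢
        refine ⟨⟨hp.1.1, by omega⟩, hp.2.2, ?_⟩
        intro l hl
        rw [goodPrimes, mem_filter, mem_range] at hl
        rw [mem_singleton]
        intro h0
        have hd : l ∣ p := Nat.dvd_of_mod_eq_zero h0
        have := (Nat.prime_dvd_prime_iff_eq hl.2.1 hp.2.1).mp hd
        omega
    _ ≤ ((Y : ℝ) / q) / sieveSum 1 J q + (J : ℝ) ^ 4 := h1
    _ ≤ ((Y : ℝ) / q) / (Real.log J / (2 * rhoz J q)) + (J : ℝ) ^ 4 := by
        gcongr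
    _ = 2 * ((Y : ℝ) / q) * rhoz J q / Real.log J + (J : ℝ) ^ 4 := by
        field_simp
    _ ≤ 2 * ((Y : ℝ) / q) * rho q / Real.log J + (J : ℝ) ^ 4 := by
        have := rhoz_le_rho J q hq.ne'
        gcongr

theorem natLog_le (J : ℕ) (hJ : 2 ≤ J) : ((Nat.log 2 J + 1 : ℕ) : ℝ) ≤ 3 * Real.log J := by
  have hJ0 : (0 : ℝ) < J := by positivity
  have h2 : 0.6931471803 < Real.log 2 := Real.log_two_gt_d9
  have h1 : ((2 : ℝ)) ^ (Nat.log 2 J) ≤ J := by
    exact_mod_cast Nat.pow_log_le_self 2 (by omega)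
  have h3 := Real.log_le_log (by positivity) h1
  rw [Real.log_pow] at h3
  have h4 : Real.log 2 ≤ Real.log J := Real.log_le_log (by norm_num) (by exact_mod_cast hJ)
  push_cast
  have h5 : (0 : ℝ) ≤ Nat.log 2 J := by positivity
  nlinarith

/-- Brun-Titchmarsh in logarithmic form. -/
theorem bt_log (a b J q u : ℕ) (hJ : 2 ≤ J) (ha : 5 ≤ a) (hab : a ≤ b) (hq : 0 < q)
    (hqJ : q ≤ J ^ (a - 5)) :
    ∑ p ∈ (Ioc (J ^ a) (J ^ b)).filter (fun p => p.Prime ∧ p ≡ u [MOD q]), 1 / (p : ℝ) ≤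
      9 * ((b - a : ℕ) : ℝ) * rho q / q := by
  have hJ0 : 0 < J := by omega
  have hJR : (2 : ℝ) ≤ J := by exact_mod_cast hJ
  have hJa : 0 < J ^ a := by positivity
  have hlog : 0 < Real.log J := Real.log_pos (by linarith)
  have hrho := rho_ge_one q
  have hqR : (0 : ℝ) < q := by exact_mod_cast hq
  set I := (b - a) * (Nat.log 2 J + 1) with hI
  set Bl : ℕ → Finset ℕ := fun i => (Ioc (2 ^ i * J ^ a) (2 * (2 ^ i * J ^ a))).filter
    (fun p => p.Prime ∧ p ≡ u [MOD q]) with hBl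
  have hsub : (Ioc (J ^ a) (J ^ b)).filter (fun p => p.Prime ∧ p ≡ u [MOD q]) ⊆
      (range I).biUnion Bl := by
    intro p hp
    rw [mem_filter, mem_Ioc] at hp
    rw [mem_biUnion]
    set t := (p - 1) / J ^ a with ht
    have ht1 : 1 ≤ t := by
      rw [ht, Nat.one_le_div_iff hJa]; omega
    have ht2 : t < J ^ (b - a) := by
      rw [ht, Nat.div_lt_iff_lt_mul hJa, ← pow_add]
      have : b - a + a = b := by omega
      rw [this]; omega
    refine ⟨Nat.log 2 t, ?_, ?_⟩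
    · rw [mem_range]
      have h3 : J ^ (b - a) ≤ 2 ^ I := by
        rw [hI, mul_comm, pow_mul]
        apply Nat.pow_le_pow_left
        exact (Nat.lt_pow_succ_log_self (by norm_num) J).le
      have h4 : 2 ^ Nat.log 2 t < 2 ^ I := by
        calc 2 ^ Nat.log 2 t ≤ t := Nat.pow_log_le_self 2 (by omega)
          _ < J ^ (b - a) := ht2
          _ ≤ 2 ^ I := h3
      exact (Nat.pow_lt_pow_iff_right (by norm_num)).mp h4
    · rw [hBl]
      simp only [mem_filter, mem_Ioc]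
      refine ⟨⟨?_, ?_⟩, hp.2⟩
      · have h5 : 2 ^ Nat.log 2 t ≤ t := Nat.pow_log_le_self 2 (by omega)
        have h6 : t * J ^ a ≤ p - 1 := Nat.div_mul_le_self _ _
        have h7 : 2 ^ Nat.log 2 t * J ^ a ≤ t * J ^ a := Nat.mul_le_mul_right _ h5
        omega
      · have h5 : t + 1 ≤ 2 ^ (Nat.log 2 t + 1) := Nat.lt_pow_succ_log_self (by norm_num) t
        have h6 : p - 1 < (t + 1) * J ^ a := by
          rw [ht]
          exact (Nat.div_lt_iff_lt_mul hJa).mp (Nat.lt_succ_self _)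
        have h7 : (t + 1) * J ^ a ≤ 2 ^ (Nat.log 2 t + 1) * J ^ a := Nat.mul_le_mul_right _ h5
        rw [pow_succ] at h7
        have h8 : 2 ^ Nat.log 2 t * 2 * J ^ a = 2 * (2 ^ Nat.log 2 t * J ^ a) := by ring
        omega
  have hblock : ∀ i, ∑ p ∈ Bl i, 1 / (p : ℝ) ≤
      2 * rho q / (q * Real.log J) + (J : ℝ) ^ 4 / (J : ℝ) ^ a := by
    intro i
    have hY : (0 : ℝ) < ((2 ^ i * J ^ a : ℕ) : ℝ) := by positivity
    have hYJ : J ≤ 2 ^ i * J ^ a := by
      calc J = 1 * J ^ 1 := by ring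
        _ ≤ 2 ^ i * J ^ a := by
          apply Nat.mul_le_mul Nat.one_le_two_pow
          exact Nat.pow_le_pow_right hJ0 (by omega)
    calc ∑ p ∈ Bl i, 1 / (p : ℝ) ≤ ∑ p ∈ Bl i, 1 / ((2 ^ i * J ^ a : ℕ) : ℝ) := by
          apply Finset.sum_le_sum
          intro p hp
          rw [hBl] at hp
          simp only [mem_filter, mem_Ioc] at hp
          apply one_div_le_one_div_of_le hY
          exact_mod_cast hp.1.1.le
      _ = ((Bl i).card : ℝ) / ((2 ^ i * J ^ a : ℕ) : ℝ) := by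
          rw [sum_const, nsmul_eq_mul]; ring
      _ ≤ (2 * (((2 ^ i * J ^ a : ℕ) : ℝ) / q) * rho q / Real.log J + (J : ℝ) ^ 4) /
            ((2 ^ i * J ^ a : ℕ) : ℝ) := by
          have := block_count J (2 ^ i * J ^ a) q u hJ hYJ hq
          gcongr
      _ = 2 * rho q / (q * Real.log J) + (J : ℝ) ^ 4 / ((2 ^ i * J ^ a : ℕ) : ℝ) := by
          rw [add_div]
          congr 1
          field_simp
      _ ≤ 2 * rho q / (q * Real.log J) + (J : ℝ) ^ 4 / (J : ℝ) ^ a := by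
          have : (J : ℝ) ^ a ≤ ((2 ^ i * J ^ a : ℕ) : ℝ) := by
            push_cast
            have h1 : (1 : ℝ) ≤ 2 ^ i := one_le_pow₀ (by norm_num)
            have h2 : (0 : ℝ) < (J : ℝ) ^ a := by positivity
            nlinarith
          gcongr
  have hIle : (I : ℝ) ≤ ((b - a : ℕ) : ℝ) * (3 * Real.log J) := by
    rw [hI]; push_cast [-Nat.cast_sub]
    have := natLog_le J hJ
    push_cast at this
    gcongr
  have hlogJ : Real.log J ≤ J := (Real.log_le_sub_one_of_pos (by linarith)).trans (by linarith)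
  have hterm : (J : ℝ) ^ 4 / (J : ℝ) ^ a ≤ 1 / (q * J) := by
    have h1 : (q : ℝ) ≤ (J : ℝ) ^ (a - 5) := by exact_mod_cast hqJ
    have h2 : (J : ℝ) ^ a = (J : ℝ) ^ 5 * (J : ℝ) ^ (a - 5) := by
      rw [← pow_add]; congr 1; omega
    rw [div_le_div_iff₀ (by positivity) (by positivity), h2]
    have h3 : (0 : ℝ) < (J : ℝ) ^ 5 := by positivity
    calc (J : ℝ) ^ 4 * (q * J) = (J : ℝ) ^ 5 * q := by ring
      _ ≤ (J : ℝ) ^ 5 * (J : ℝ) ^ (a - 5) := by gcongr
      _ = 1 * ((J : ℝ) ^ 5 * (J : ℝ) ^ (a - 5)) := by ring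
  calc ∑ p ∈ (Ioc (J ^ a) (J ^ b)).filter (fun p => p.Prime ∧ p ≡ u [MOD q]), 1 / (p : ℝ)
      ≤ ∑ p ∈ (range I).biUnion Bl, 1 / (p : ℝ) :=
        sum_le_sum_of_subset_of_nonneg hsub (fun p _ _ => by positivity)
    _ ≤ ∑ i ∈ range I, ∑ p ∈ Bl i, 1 / (p : ℝ) := by
        apply sum_biUnion_le'
        intro p; positivity
    _ ≤ ∑ i ∈ range I, (2 * rho q / (q * Real.log J) + (J : ℝ) ^ 4 / (J : ℝ) ^ a) :=
        sum_le_sum (fun i _ => hblock i)
    _ = I * (2 * rho q / (q * Real.log J) + (J : ℝ) ^ 4 / (J : ℝ) ^ a) := by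
        rw [sum_const, card_range, nsmul_eq_mul]
    _ ≤ (((b - a : ℕ) : ℝ) * (3 * Real.log J)) *
          (2 * rho q / (q * Real.log J) + 1 / (q * J)) := by
        gcongr
    _ = ((b - a : ℕ) : ℝ) * (6 * rho q / q + 3 * (Real.log J / J) / q) := by
        field_simp
        ring
    _ ≤ ((b - a : ℕ) : ℝ) * (6 * rho q / q + 3 * rho q / q) := by
        have : Real.log J / J ≤ rho q := by
          rw [div_le_iff₀ (by linarith)]
          nlinarith
        gcongr
    _ = 9 * ((b - a : ℕ) : ℝ) * rho q / q := by ring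

end Pool.Agent.H5.W
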