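import Pool.Agent.H5.W.Defs

namespace Pool.Agent.H5.W

open Finset

theorem factor_term (n p : ℕ) (hp : p ∈ n.primeFactors) :
    n / p ^ (n.factorization p) * p ^ (n.factorization p) = n :=
  Nat.div_mul_cancel (Nat.ordProj_dvd n p)

/-- F1 -/
theorem W_mul_prime (n p : ℕ) (hn : n ≠ 0) (hp : p.Prime) (hpn : ¬ p ∣ n) :
    W (n * p) = n + p * W n := by
  unfold W
  have hcop : n.Coprime p := ((Nat.Prime.coprime_iff_not_dvd hp).mpr hpn).symm
  have hpf : (n * p).primeFactors = insert p n.primeFactors := by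
    rw [Nat.primeFactors_mul hn hp.ne_zero, hp.primeFactors, Finset.union_comm]
    rfl
  have hnot : p ∉ n.primeFactors := fun h => hpn (Nat.dvd_of_mem_primeFactors h)
  rw [hpf, sum_insert hnot]
  have hfac : ∀ q, (n * p).factorization q = n.factorization q + p.factorization q := by
    intro q; rw [Nat.factorization_mul hn hp.ne_zero]; rfl
  have h1 : n * p / p ^ (n * p).factorization p = n := by
    rw [hfac, Nat.factorization_eq_zero_of_not_dvd hpn, zero_add, hp.factorization_self, pow_one]
    exact Nat.mul_div_cancel _ hp.pos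
  rw [h1, mul_sum]
  congr 1
  apply sum_congr rfl
  intro q hq
  have hqp : q ≠ p := by rintro rfl; exact hnot hq
  have h2 : p.factorization q = 0 := by
    rw [Nat.Prime.factorization hp, Finsupp.single_apply, if_neg hqp.symm]
  rw [hfac, h2, add_zero]
  rw [mul_comm n p, Nat.mul_div_assoc _ (Nat.ordProj_dvd n q)]

/-- F2 -/
theorem W_coprime (n : ℕ) (hn : n ≠ 0) : n.Coprime (W n) := by
  rw [Nat.coprime_iff_gcd_eq_one] 
  by_contra hne
  obtain ⟨l, hl, hdvd⟩ := Nat.exists_prime_and_dvd hne
  have hln : l ∣ n := hdvd.trans (Nat.gcd_dvd_left _ _)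
  have hlW : l ∣ W n := hdvd.trans (Nat.gcd_dvd_right _ _)
  have hmem : l ∈ n.primeFactors := Nat.mem_primeFactors.mpr ⟨hl, hln, hn⟩
  unfold W at hlW
  rw [← Finset.add_sum_erase _ _ hmem] at hlW
  have h2 : l ∣ ∑ x ∈ n.primeFactors.erase l, n / x ^ n.factorization x := by
    apply Finset.dvd_sum
    intro q hq
    rw [mem_erase] at hq
    have hqp := Nat.prime_of_mem_primeFactors hq.2
    have h3 := factor_term n q hq.2
    have h4 : l ∣ n / q ^ n.factorization q * q ^ n.factorization q := by rw [h3]; exact hln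
    rcases (Nat.Prime.dvd_mul hl).mp h4 with h5 | h5
    · exact h5
    · exfalso
      have := (Nat.prime_dvd_prime_iff_eq hl hqp).mp (hl.dvd_of_dvd_pow h5)
      exact hq.1 this.symm
  have h5 : l ∣ n / l ^ n.factorization l := (Nat.dvd_add_left h2).mp hlW
  exact Nat.not_dvd_ordCompl hl hn h5

theorem W_pos (n : ℕ) (hn : 2 ≤ n) : 0 < W n := by
  rcases Nat.eq_zero_or_pos (W n) with h | h
  · exfalso
    have := W_coprime n (by omega)
    rw [h, Nat.coprime_zero_right] at this
    omega
  · exact h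

/-- F3 -/
theorem W_ge_half (n : ℕ) (hn : n % 4 = 2) : n ≤ 2 * W n := by
  have hn0 : n ≠ 0 := by rintro rfl; simp at hn
  have h2 : 2 ∈ n.primeFactors := by
    rw [Nat.mem_primeFactors]
    exact ⟨Nat.prime_two, by omega, hn0⟩
  have hf : n.factorization 2 = 1 := by
    have h1 : 1 ≤ n.factorization 2 := by
      rw [← Nat.Prime.dvd_iff_one_le_factorization Nat.prime_two hn0]; omega
    have h3 : ¬ 2 ≤ n.factorization 2 := by
      intro h
      have := (Nat.Prime.pow_dvd_iff_le_factorization Nat.prime_two hn0).mpr h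
      omega
    omega
  unfold W
  rw [← Finset.add_sum_erase _ _ h2, hf, pow_one]
  have : n = 2 * (n / 2) := by omega
  nlinarith [Nat.zero_le (∑ x ∈ n.primeFactors.erase 2, n / x ^ n.factorization x)]

/-- F4 -/
theorem W_le_sq (n : ℕ) : W n ≤ n ^ 2 := by
  unfold W
  calc ∑ p ∈ n.primeFactors, n / p ^ n.factorization p
      ≤ ∑ p ∈ n.primeFactors, n := by
        apply Finset.sum_le_sum; intro p _; exact Nat.div_le_self _ _
    _ = n.primeFactors.card * n := by rw [sum_const, smul_eq_mul]
    _ ≤ n * n := by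
        apply Nat.mul_le_mul_right
        calc n.primeFactors.card ≤ (Finset.Icc 1 n).card := by
              apply Finset.card_le_card
              intro p hp
              rw [mem_Icc]
              exact ⟨(Nat.prime_of_mem_primeFactors hp).one_lt.le, Nat.le_of_mem_primeFactors hp⟩
          _ = n := by simp
    _ = n ^ 2 := by ring

/-- mass of `n ≡ 2 mod 4` is preserved by multiplication by odd numbers -/
theorem mod_four_mul_odd (n q : ℕ) (hn : n % 4 = 2) (hq : q % 2 = 1) : (n * q) % 4 = 2 := by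
  obtain ⟨a, rfl⟩ : ∃ a, n = 4 * a + 2 := ⟨n / 4, by omega⟩
  obtain ⟨b, rfl⟩ : ∃ b, q = 2 * b + 1 := ⟨q / 2, by omega⟩
  have : (4 * a + 2) * (2 * b + 1) = 4 * (2 * a * b + a + b) + 2 := by ring
  rw [this]; omega

end Pool.Agent.H5.W
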