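import Pool.Agent.H5.W.CaseTwo

namespace Pool.Agent.H5.W

open Finset

theorem harm_js_lower (J : ℕ) (hJ : 16 ≤ J) : Real.log J / 8 ≤ ∑ j ∈ js J, 1 / (j : ℝ) := by
  have h1 : ∑ i ∈ Icc 1 (J / 4), (1 / 4) * (1 / (i : ℝ)) ≤ ∑ j ∈ js J, 1 / (j : ℝ) := by
    apply sum_le_of_injOn _ _ (fun i => 4 * i - 2)
    · intro i hi
      rw [mem_Icc] at hi
      rw [js, mem_filter, mem_Icc]
      omega
    · intro a ha b hb h
      simp only [coe_Icc, Set.mem_Icc] at ha hb
      simp only at h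
      omega
    · intro i hi
      rw [mem_Icc] at hi
      have hi' : (0 : ℝ) < i := by exact_mod_cast hi.1
      have h4 : 0 < 4 * i - 2 := by omega
      have h4' : (0 : ℝ) < ((4 * i - 2 : ℕ) : ℝ) := by exact_mod_cast h4
      have h5 : ((4 * i - 2 : ℕ) : ℝ) ≤ 4 * i := by
        have : 4 * i - 2 ≤ 4 * i := Nat.sub_le _ _
        exact_mod_cast this
      rw [one_div_mul_one_div]
      exact one_div_le_one_div_of_le h4' h5
    · intro j _; positivity
  have h2 := log_add_one_le_harmonic (J / 4)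
  rw [harmonic_eq_sum_Icc] at h2
  push_cast at h2
  rw [← mul_sum] at h1
  have h3 : Real.log J / 2 ≤ Real.log ((J / 4 : ℕ) + 1) := by
    have h4 : (J : ℝ) ≤ (((J / 4 : ℕ) : ℝ) + 1) ^ 2 := by
      have h5 : J ≤ (J / 4 + 1) ^ 2 := by
        have h6 : J < 4 * (J / 4 + 1) := by omega
        have h7 : 4 ≤ J / 4 + 1 := by omega
        nlinarith
      exact_mod_cast h5
    have h8 : Real.log J ≤ Real.log ((((J / 4 : ℕ) : ℝ) + 1) ^ 2) :=
      Real.log_le_log (by exact_mod_cast (by omega : 0 < J)) h4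
    rw [Real.log_pow] at h8
    push_cast at h8
    linarith
  have h9 : ∑ i ∈ Icc 1 (J / 4), ((i : ℝ))⁻¹ = ∑ i ∈ Icc 1 (J / 4), 1 / (i : ℝ) := by
    apply sum_congr rfl
    intro i _
    rw [one_div]
  rw [h9] at h2
  linarith

theorem pi_lower : ∃ J0 : ℕ, ∀ J m : ℕ, J0 ≤ J → 0 < m → m ≤ J ^ 177 →
    (J : ℝ) ^ 400 / (3200 * Real.log J) * (1 / (m : ℝ)) ≤
      ((((Ioc (J ^ 180) (J ^ 400 / m)).filter Nat.Prime).card : ℕ) : ℝ) := by
  refine ⟨1600, ?_⟩
  intro J m hJ hm hmJ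
  have hJpos : 0 < J := by omega
  have hJR : (1600 : ℝ) ≤ J := by exact_mod_cast hJ
  have hJ0 : (0 : ℝ) < J := by linarith
  have hlog : 0 < Real.log J := Real.log_pos (by linarith)
  have hlogJ : Real.log J ≤ J := by
    have := Real.log_le_sub_one_of_pos hJ0
    linarith
  set y := J ^ 400 / m with hy
  have hmR : (0 : ℝ) < m := by exact_mod_cast hm
  -- lower bound for y
  have hy1 : J ^ 223 ≤ y := by
    rw [hy, Nat.le_div_iff_mul_le hm]
    calc J ^ 223 * m ≤ J ^ 223 * J ^ 177 := Nat.mul_le_mul_left _ hmJ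
      _ = J ^ 400 := by ring
  have hy2 : y ≤ J ^ 400 := Nat.div_le_self _ _
  have hy1R : (J : ℝ) ^ 223 ≤ y := by exact_mod_cast hy1
  have hy2R : (y : ℝ) ≤ (J : ℝ) ^ 400 := by exact_mod_cast hy2
  have hJle : (J : ℝ) ^ 2 ≤ (J : ℝ) ^ 223 :=
    pow_le_pow_right₀ (by linarith) (by norm_num)
  have hylarge : (J : ℝ) ^ 2 ≤ y := hJle.trans hy1R
  have hy0 : (0 : ℝ) < y := lt_of_lt_of_le (by positivity) hylarge
  have hy1' : (1 : ℝ) ≤ y := by nlinarith
  have hyfloor : (J : ℝ) ^ 400 / m ≤ 2 * y := by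
    have h1 : J ^ 400 < (y + 1) * m := by
      have := Nat.lt_mul_div_succ (J ^ 400) hm
      rw [mul_comm]
      exact this
    have h2 : (J : ℝ) ^ 400 < ((y : ℝ) + 1) * m := by exact_mod_cast h1
    rw [div_le_iff₀ hmR]
    nlinarith
  -- logs
  have hlogy : Real.log y ≤ 400 * Real.log J := by
    have := Real.log_le_log hy0 hy2R
    rw [Real.log_pow] at this
    push_cast at this
    exact this
  have hlogy0 : 0 < Real.log y := Real.log_pos (by nlinarith)
  have hlogy1 : Real.log (y + 1) ≤ y / 10 := by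
    have hs : Real.sqrt (y + 1) ^ 2 = y + 1 := Real.sq_sqrt (by linarith)
    have hs0 : 0 < Real.sqrt (y + 1) := Real.sqrt_pos.mpr (by linarith)
    have h1 : Real.log (y + 1) = 2 * Real.log (Real.sqrt (y + 1)) := by
      rw [← hs, Real.log_pow]
      rw [hs]
      push_cast
      ring
    have h2 := Real.log_le_sub_one_of_pos hs0
    have h3 : (100 : ℝ) ≤ Real.sqrt (y + 1) := by
      apply Real.le_sqrt_of_sq_le
      nlinarith
    nlinarith
  -- prime counting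
  have hpi := Chebyshev.pi_ge y
  have hlog2 : (0.6931471803 : ℝ) < Real.log 2 := Real.log_two_gt_d9
  have hpi2 : (y : ℝ) / (800 * Real.log J) ≤ (Nat.primeCounting y : ℝ) := by
    refine le_trans ?_ hpi
    rw [div_le_div_iff₀ (by positivity) hlogy0]
    have h1 : (y : ℝ) * 0.5 ≤ y * Real.log 2 - Real.log (y + 1) := by nlinarith
    calc (y : ℝ) * Real.log y ≤ y * (400 * Real.log J) := by gcongr
      _ = (y * 0.5) * (800 * Real.log J) := by ring
      _ ≤ _ := by gcongr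
  have hcard : (Nat.primeCounting y : ℝ) ≤ (((Ioc (J ^ 180) y).filter Nat.Prime).card : ℝ) +
      (J : ℝ) ^ 180 := by
    have h1 : Nat.primeCounting y ≤ ((Ioc (J ^ 180) y).filter Nat.Prime).card + J ^ 180 := by
      rw [Nat.primeCounting, Nat.primeCounting', Nat.count_eq_card_filter_range]
      have h2 : (range (y + 1)).filter Nat.Prime ⊆
          (Ioc (J ^ 180) y).filter Nat.Prime ∪ Icc 1 (J ^ 180) := by
        intro p hp
        rw [mem_filter, mem_range] at hp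
        rw [mem_union, mem_filter, mem_Ioc, mem_Icc]
        by_cases h : p ≤ J ^ 180
        · right; exact ⟨hp.2.one_lt.le, h⟩
        · left; exact ⟨⟨by omega, by omega⟩, hp.2⟩
      refine (card_le_card h2).trans ((card_union_le _ _).trans ?_)
      rw [Nat.card_Icc]
      omega
    exact_mod_cast h1
  have h180 : (J : ℝ) ^ 180 ≤ y / (1600 * Real.log J) := by
    rw [le_div_iff₀ (by positivity)]
    calc (J : ℝ) ^ 180 * (1600 * Real.log J) ≤ (J : ℝ) ^ 180 * (J * J) := by gcongr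
      _ = (J : ℝ) ^ 182 := by ring
      _ ≤ (J : ℝ) ^ 223 := pow_le_pow_right₀ (by linarith) (by norm_num)
      _ ≤ y := hy1R
  have hfin : (y : ℝ) / (800 * Real.log J) - y / (1600 * Real.log J) =
      y / (1600 * Real.log J) := by
    field_simp
    norm_num
  have hgoal : (J : ℝ) ^ 400 / (3200 * Real.log J) * (1 / (m : ℝ)) ≤ y / (1600 * Real.log J) := by
    have : (J : ℝ) ^ 400 / (3200 * Real.log J) * (1 / (m : ℝ)) =
        ((J : ℝ) ^ 400 / m) / (3200 * Real.log J) := by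
      field_simp
    rw [this, div_le_div_iff₀ (by positivity) (by positivity)]
    nlinarith
  linarith

theorem fam_lower : ∃ c : ℝ, 0 < c ∧ ∃ J0 : ℕ, ∀ J : ℕ, J0 ≤ J →
    c * (J : ℝ) ^ 400 ≤ ∑ j ∈ js J, ∑ Q ∈ Qs J, ∑ P ∈ Ps J,
      ((((Ioc (J ^ 180) (J ^ 400 / (j * Q * P))).filter Nat.Prime).card : ℕ) : ℝ) := by
  obtain ⟨c1, hc1, J1, h1⟩ := prime_recip_lower 8 (by norm_num)
  obtain ⟨c2, hc2, J2, h2⟩ := prime_recip_lower 80 (by norm_num)
  obtain ⟨J3, h3⟩ := pi_lower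
  refine ⟨c1 * c2 / 25600, by positivity, max 16 (max J1 (max J2 J3)), ?_⟩
  intro J hJ
  have hJ16 : 16 ≤ J := le_trans (le_max_left _ _) hJ
  have hJ1 : J1 ≤ J := le_trans (le_trans (le_max_left _ _) (le_max_right _ _)) hJ
  have hJ2 : J2 ≤ J := le_trans (le_trans (le_max_left _ _)
    (le_trans (le_max_right _ _) (le_max_right _ _))) hJ
  have hJ3 : J3 ≤ J := le_trans (le_trans (le_max_right _ _)
    (le_trans (le_max_right _ _) (le_max_right _ _))) hJ
  have hlog : 0 < Real.log J := Real.log_pos (by exact_mod_cast (by omega : 1 < J))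
  have hQ : c1 ≤ ∑ Q ∈ Qs J, 1 / (Q : ℝ) := h1 J hJ1
  have hP : c2 ≤ ∑ P ∈ Ps J, 1 / (P : ℝ) := h2 J hJ2
  have hj := harm_js_lower J hJ16
  have hle : ∀ j ∈ js J, ∀ Q ∈ Qs J, ∀ P ∈ Ps J,
      (J : ℝ) ^ 400 / (3200 * Real.log J) * (1 / (j : ℝ) * (1 / (Q : ℝ) * (1 / (P : ℝ)))) ≤
      ((((Ioc (J ^ 180) (J ^ 400 / (j * Q * P))).filter Nat.Prime).card : ℕ) : ℝ) := by
    intro j hj Q hQ P hP
    obtain ⟨a1, a2, a3⟩ := k_bounds (by omega) hj hQ
    have hP' := mem_Ps hP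
    have hm : j * Q * P ≤ J ^ 177 := by
      calc j * Q * P ≤ J ^ 17 * J ^ 160 := Nat.mul_le_mul a2 hP'.2.2
        _ = J ^ 177 := by ring
    have := h3 J (j * Q * P) hJ3 (Nat.pos_of_ne_zero (Nat.mul_ne_zero a3 hP'.1.ne_zero)) hm
    refine le_trans (le_of_eq ?_) this
    push_cast
    rw [one_div_mul_one_div, one_div_mul_one_div]
    congr 2
    ring
  calc c1 * c2 / 25600 * (J : ℝ) ^ 400
      = (J : ℝ) ^ 400 / (3200 * Real.log J) * (Real.log J / 8 * (c1 * c2)) := by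
        field_simp
        ring
    _ ≤ (J : ℝ) ^ 400 / (3200 * Real.log J) * ((∑ j ∈ js J, 1 / (j : ℝ)) *
        ((∑ Q ∈ Qs J, 1 / (Q : ℝ)) * (∑ P ∈ Ps J, 1 / (P : ℝ)))) := by
        gcongr
    _ = ∑ j ∈ js J, ∑ Q ∈ Qs J, ∑ P ∈ Ps J,
        (J : ℝ) ^ 400 / (3200 * Real.log J) * (1 / (j : ℝ) * (1 / (Q : ℝ) * (1 / (P : ℝ)))) := by
        rw [sum_mul_sum, sum_mul, mul_sum]
        apply sum_congr rfl
        intro j _
        rw [mul_sum, mul_sum]
        apply sum_congr rfl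
        intro Q _
        rw [mul_sum, mul_sum]
    _ ≤ _ := sum_le_sum fun j hj => sum_le_sum fun Q hQ => sum_le_sum fun P hP =>
        hle j hj Q hQ P hP

end Pool.Agent.H5.W
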