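import Pool.Agent.H5.W.PartOne
import Pool.Agent.H5.W.FamLower

namespace Pool.Agent.H5.W

open Finset

theorem rhoz_le (J E : ℕ) : rhoz J E ≤ J + 1 := by
  unfold rhoz badPrimes
  calc ∏ p ∈ (range (J + 1)).filter (fun p => p.Prime ∧ p ∣ E), (1 + 1 / (p : ℝ))
      ≤ ∏ p ∈ Icc 1 J, (1 + 1 / (p : ℝ)) := by
        apply Finset.prod_le_prod_of_subset_of_one_le
        · intro p hp
          rw [mem_filter, mem_range] at hp
          rw [mem_Icc]
          exact ⟨hp.2.1.one_lt.le, by omega⟩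
        · intro p _; positivity
        · intro p _ _
          have : (0 : ℝ) ≤ 1 / (p : ℝ) := by positivity
          linarith
    _ = J + 1 := by
        induction J with
        | zero => simp
        | succ n ih =>
          rw [← Finset.insert_Icc_right_eq_Icc_add_one (by omega), prod_insert (by simp), ih]
          push_cast
          field_simp

theorem Psi_le (J k P P' : ℕ) (hJ : 2 ≤ J) : Psi J k k P P' ≤
    4 * (J : ℝ) ^ 2 * (((Nat.gcd (k + P * W k) (k + P' * W k) : ℕ) : ℝ) *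
      ((1 / (P : ℝ)) * (1 / (P' : ℝ)))) := by
  unfold Psi
  split_ifs
  · have h1 := rhoz_le J (EE (k * P) (k * P') (k + P * W k) (k + P' * W k))
    have h2 := (rhoz_pos J (EE (k * P) (k * P') (k + P * W k) (k + P' * W k))).le
    have hJR : (2 : ℝ) ≤ J := by exact_mod_cast hJ
    have h3 : rhoz J (EE (k * P) (k * P') (k + P * W k) (k + P' * W k)) ^ 2 ≤
        4 * (J : ℝ) ^ 2 := by
      calc rhoz J (EE (k * P) (k * P') (k + P * W k) (k + P' * W k)) ^ 2
          ≤ ((J : ℝ) + 1) ^ 2 := by gcongr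
        _ ≤ 4 * (J : ℝ) ^ 2 := by nlinarith
    calc ((Nat.gcd (k + P * W k) (k + P' * W k) : ℕ) : ℝ) * ((1 / (P : ℝ)) * (1 / (P' : ℝ)) *
        rhoz J (EE (k * P) (k * P') (k + P * W k) (k + P' * W k)) ^ 2)
        ≤ ((Nat.gcd (k + P * W k) (k + P' * W k) : ℕ) : ℝ) * ((1 / (P : ℝ)) * (1 / (P' : ℝ)) *
        (4 * (J : ℝ) ^ 2)) := by gcongr
      _ = _ := by ring
  · positivity

/-- Case I -/
theorem case_one : ∃ C : ℝ, 0 < C ∧ ∀ J : ℕ, 2 ≤ J →
    ∑ j ∈ js J, ∑ Q ∈ Qs J, ∑ P ∈ Ps J, ∑ P' ∈ Ps J,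
      (if P ≠ P' then
        (1 / ((j * Q : ℕ) : ℝ)) * (1 / ((j * Q : ℕ) : ℝ)) * Psi J (j * Q) (j * Q) P P'
        else 0) ≤ C * (Real.log J) ^ 2 := by
  obtain ⟨C, hC, h1⟩ := part_one
  refine ⟨4 * C * 72 * 9, by positivity, ?_⟩
  intro J hJ
  have hJR : (2 : ℝ) ≤ J := by exact_mod_cast hJ
  have hJ0 : (0 : ℝ) < J := by linarith
  have hlog := one_add_log_le J hJ
  have hlog0 : 0 ≤ Real.log J := Real.log_nonneg (by linarith)
  calc ∑ j ∈ js J, ∑ Q ∈ Qs J, ∑ P ∈ Ps J, ∑ P' ∈ Ps J,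
      (if P ≠ P' then
        (1 / ((j * Q : ℕ) : ℝ)) * (1 / ((j * Q : ℕ) : ℝ)) * Psi J (j * Q) (j * Q) P P'
        else 0)
      ≤ ∑ j ∈ js J, ∑ Q ∈ Qs J, (1 / (j : ℝ)) * (1 / (Q : ℝ)) * (1 / (J : ℝ) ^ 8) *
        (4 * (J : ℝ) ^ 2 * (C * (J : ℝ) ^ 2)) := by
        apply sum_le_sum; intro j hj
        apply sum_le_sum; intro Q hQ
        obtain ⟨a1, a2, a3⟩ := k_bounds hJ hj hQ
        have h2 := h1 J (j * Q) hJ a3 a2
        have hj1 : (1 : ℝ) ≤ j := by exact_mod_cast (mem_js hj).1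
        have hQ1 : (J : ℝ) ^ 8 ≤ Q := by exact_mod_cast (mem_Qs hQ).2.1.le
        have hQ0 : (0 : ℝ) < Q := by
          have : (0 : ℝ) < (J : ℝ) ^ 8 := by positivity
          linarith
        have h3 : (1 / ((j * Q : ℕ) : ℝ)) * (1 / ((j * Q : ℕ) : ℝ)) ≤
            (1 / (j : ℝ)) * (1 / (Q : ℝ)) * (1 / (J : ℝ) ^ 8) := by
          push_cast
          have h4 : 1 / ((j : ℝ) * Q) ≤ 1 / (J : ℝ) ^ 8 := by
            apply one_div_le_one_div_of_le (by positivity)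
            nlinarith
          have h5 : (1 / (j : ℝ)) * (1 / (Q : ℝ)) = 1 / ((j : ℝ) * Q) := by
            field_simp
          rw [h5]
          gcongr
        calc ∑ P ∈ Ps J, ∑ P' ∈ Ps J,
              (if P ≠ P' then
              (1 / ((j * Q : ℕ) : ℝ)) * (1 / ((j * Q : ℕ) : ℝ)) * Psi J (j * Q) (j * Q) P P'
              else 0)
            ≤ ∑ P ∈ Ps J, ∑ P' ∈ Ps J,
              ((1 / ((j * Q : ℕ) : ℝ)) * (1 / ((j * Q : ℕ) : ℝ)) * (4 * (J : ℝ) ^ 2)) *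
              (if P ≠ P' then
              (((Nat.gcd (j * Q + P * W (j * Q)) (j * Q + P' * W (j * Q)) : ℕ) : ℝ) *
                ((1 / (P : ℝ)) * (1 / (P' : ℝ)))) else 0) := by
              apply sum_le_sum; intro P _
              apply sum_le_sum; intro P' _
              split_ifs with h
              · have := Psi_le J (j * Q) P P' hJ
                calc (1 / ((j * Q : ℕ) : ℝ)) * (1 / ((j * Q : ℕ) : ℝ)) *
                    Psi J (j * Q) (j * Q) P P' ≤ (1 / ((j * Q : ℕ) : ℝ)) *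
                    (1 / ((j * Q : ℕ) : ℝ)) * (4 * (J : ℝ) ^ 2 *
                    (((Nat.gcd (j * Q + P * W (j * Q)) (j * Q + P' * W (j * Q)) : ℕ) : ℝ) *
                    ((1 / (P : ℝ)) * (1 / (P' : ℝ))))) := by gcongr
                  _ = _ := by ring
              · simp
          _ = ((1 / ((j * Q : ℕ) : ℝ)) * (1 / ((j * Q : ℕ) : ℝ)) * (4 * (J : ℝ) ^ 2)) *
              ∑ P ∈ Ps J, ∑ P' ∈ Ps J,
              (if P ≠ P' then
              (((Nat.gcd (j * Q + P * W (j * Q)) (j * Q + P' * W (j * Q)) : ℕ) : ℝ) *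
                ((1 / (P : ℝ)) * (1 / (P' : ℝ)))) else 0) := by
              simp_rw [← mul_sum]
          _ ≤ ((1 / ((j * Q : ℕ) : ℝ)) * (1 / ((j * Q : ℕ) : ℝ)) * (4 * (J : ℝ) ^ 2)) *
              (C * (J : ℝ) ^ 2) := by gcongr
          _ ≤ ((1 / (j : ℝ)) * (1 / (Q : ℝ)) * (1 / (J : ℝ) ^ 8) * (4 * (J : ℝ) ^ 2)) *
              (C * (J : ℝ) ^ 2) := by gcongr
          _ = _ := by ring
    _ = (4 * C / (J : ℝ) ^ 4) * ((∑ j ∈ js J, 1 / (j : ℝ)) * (∑ Q ∈ Qs J, 1 / (Q : ℝ))) := by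
        rw [sum_mul_sum, mul_sum]
        apply sum_congr rfl; intro j _
        rw [mul_sum]
        apply sum_congr rfl; intro Q _
        field_simp
    _ ≤ (4 * C / (J : ℝ) ^ 4) * ((3 * Real.log J) * 72) := by
        have h2 := (harm_js J).trans hlog
        have h3 := sum_Qs J hJ
        have h4 : 0 ≤ ∑ Q ∈ Qs J, 1 / (Q : ℝ) := sum_nonneg (fun _ _ => by positivity)
        gcongr
    _ ≤ (4 * C / 1) * ((3 * Real.log J) * 72) := by
        have : (1 : ℝ) ≤ (J : ℝ) ^ 4 := one_le_pow₀ (by linarith)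
        gcongr
    _ ≤ 4 * C * 72 * 9 * (Real.log J) ^ 2 := by
        have h5 : 1 ≤ 2 * Real.log J := by linarith
        nlinarith [mul_nonneg hC.le hlog0, mul_nonneg (mul_nonneg hC.le hlog0) (sub_nonneg.mpr h5)]

end Pool.Agent.H5.W
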