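import Pool.Agent.H5.W.Pair2

namespace Pool.Agent.H5.W

open Finset

theorem k_bounds {J j Q : ℕ} (hJ : 2 ≤ J) (hj : j ∈ js J) (hQ : Q ∈ Qs J) :
    (j * Q) % 4 = 2 ∧ j * Q ≤ J ^ 17 ∧ j * Q ≠ 0 := by
  obtain ⟨h1, h2, h3⟩ := mem_js hj
  obtain ⟨h4, h5, h6⟩ := mem_Qs hQ
  refine ⟨?_, ?_, ?_⟩
  · apply mod_four_mul_odd _ _ h3
    rcases h4.eq_two_or_odd with h7 | h7
    · have := lt_of_mem_Qs hJ hQ
      omega
    · exact h7
  · calc j * Q ≤ J * J ^ 16 := Nat.mul_le_mul h2 h6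
      _ = J ^ 17 := by ring
  · exact Nat.mul_ne_zero (by omega) h4.ne_zero

theorem jQ_inj {J j Q j' Q' : ℕ} (hJ : 2 ≤ J) (hj : j ∈ js J) (hQ : Q ∈ Qs J)
    (hj' : j' ∈ js J) (hQ' : Q' ∈ Qs J) (h : j * Q = j' * Q') : j = j' ∧ Q = Q' := by
  have h1 : Q ∣ j' * Q' := ⟨j, by rw [← h, mul_comm]⟩
  have h2 : Q = Q' := by
    rcases (Nat.Prime.dvd_mul (mem_Qs hQ).1).mp h1 with h3 | h3
    · exact absurd h3 (Q_not_dvd hJ hj' hQ)
    · exact (Nat.prime_dvd_prime_iff_eq (mem_Qs hQ).1 (mem_Qs hQ').1).mp h3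
  subst h2
  exact ⟨Nat.eq_of_mul_eq_mul_right (mem_Qs hQ).1.pos h, rfl⟩

/-- Case II -/
theorem case_two : ∃ C : ℝ, 0 < C ∧ ∀ J : ℕ, 2 ≤ J →
    ∑ j ∈ js J, ∑ Q ∈ Qs J, ∑ P ∈ Ps J, ∑ j' ∈ js J, ∑ Q' ∈ Qs J, ∑ P' ∈ Ps J,
      (if j * Q ≠ j' * Q' then
        (1 / ((j * Q : ℕ) : ℝ)) * (1 / ((j' * Q' : ℕ) : ℝ)) * Psi J (j * Q) (j' * Q') P P'
        else 0) ≤ C * (Real.log J) ^ 2 := by
  obtain ⟨C1, hC1, h1⟩ := P2
  obtain ⟨C2, hC2, h2⟩ := sum_DD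
  obtain ⟨C3, hC3, h3⟩ := sum_over_Q
  obtain ⟨C4, hC4, h4⟩ := sum_jj
  refine ⟨C1 * C2 * (72 * C3) * C4, by positivity, ?_⟩
  intro J hJ
  calc ∑ j ∈ js J, ∑ Q ∈ Qs J, ∑ P ∈ Ps J, ∑ j' ∈ js J, ∑ Q' ∈ Qs J, ∑ P' ∈ Ps J,
      (if j * Q ≠ j' * Q' then
        (1 / ((j * Q : ℕ) : ℝ)) * (1 / ((j' * Q' : ℕ) : ℝ)) * Psi J (j * Q) (j' * Q') P P'
        else 0)
      = ∑ j ∈ js J, ∑ Q ∈ Qs J, ∑ j' ∈ js J, ∑ Q' ∈ Qs J,
        (if j * Q ≠ j' * Q' then (1 / ((j * Q : ℕ) : ℝ)) * (1 / ((j' * Q' : ℕ) : ℝ)) *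
          (∑ P ∈ Ps J, ∑ P' ∈ Ps J, Psi J (j * Q) (j' * Q') P P') else 0) := by
        apply sum_congr rfl; intro j _
        apply sum_congr rfl; intro Q _
        rw [sum_comm]
        apply sum_congr rfl; intro j' _
        rw [sum_comm]
        apply sum_congr rfl; intro Q' _
        split_ifs with h
        · rw [mul_sum]
          apply sum_congr rfl; intro P _
          rw [mul_sum]
        · simp
    _ ≤ ∑ j ∈ js J, ∑ Q ∈ Qs J, ∑ j' ∈ js J, ∑ Q' ∈ Qs J,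
        (1 / ((j * Q : ℕ) : ℝ)) * (1 / ((j' * Q' : ℕ) : ℝ)) *
          (C1 * (1 + Gsum J j j') * (C2 * (1 + Hsum J (j * Q) (j' * Q')))) := by
        apply sum_le_sum; intro j hj
        apply sum_le_sum; intro Q hQ
        apply sum_le_sum; intro j' hj'
        apply sum_le_sum; intro Q' hQ'
        have hG0 := Gsum_nonneg J j j'
        have hG1 := Gsum_nonneg J (j * Q) (j' * Q')
        have hH0 := Hsum_nonneg J (j * Q) (j' * Q')
        have hGle := Gsum_le (j := j) (j' := j') hJ hQ hQ'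
        split_ifs with h
        · obtain ⟨a1, a2, a3⟩ := k_bounds hJ hj hQ
          obtain ⟨b1, b2, b3⟩ := k_bounds hJ hj' hQ'
          have h5 := h1 J (j * Q) (j' * Q') hJ a3 b3 a2 b2 h
          have h6 := h2 J (j * Q) (j' * Q') hJ a3 b3 a2 b2 h
          have h7 : ∑ P ∈ Ps J, ∑ P' ∈ Ps J, Psi J (j * Q) (j' * Q') P P' ≤
              C1 * (1 + Gsum J j j') * (C2 * (1 + Hsum J (j * Q) (j' * Q'))) := by
            refine h5.trans ?_
            have h8 : 0 ≤ ∑ d ∈ DD (j * Q) (j' * Q'), rho d ^ 4 / (d : ℝ) :=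
              sum_nonneg (fun d _ => by positivity)
            gcongr
          gcongr
        · positivity
    _ = C1 * C2 * ∑ j ∈ js J, ∑ j' ∈ js J, (1 / (j : ℝ)) * (1 / (j' : ℝ)) *
        (1 + Gsum J j j') * ∑ Q' ∈ Qs J, (1 / (Q' : ℝ)) *
          ∑ Q ∈ Qs J, (1 / (Q : ℝ)) * (1 + Hsum J (j * Q) (j' * Q')) := by
        rw [mul_sum]
        apply sum_congr rfl; intro j _
        rw [sum_comm, mul_sum]
        apply sum_congr rfl; intro j' _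
        rw [sum_comm, mul_sum, mul_sum]
        apply sum_congr rfl; intro Q' _
        rw [mul_sum, mul_sum, mul_sum]
        apply sum_congr rfl; intro Q _
        push_cast
        rw [one_div_mul_one_div_rev, one_div_mul_one_div_rev] <;> ring
    _ ≤ C1 * C2 * ∑ j ∈ js J, ∑ j' ∈ js J, (1 / (j : ℝ)) * (1 / (j' : ℝ)) *
        (1 + Gsum J j j') * (72 * C3) := by
        have h9 : ∀ j ∈ js J, ∀ j' ∈ js J, ∑ Q' ∈ Qs J, (1 / (Q' : ℝ)) *
          ∑ Q ∈ Qs J, (1 / (Q : ℝ)) * (1 + Hsum J (j * Q) (j' * Q')) ≤ 72 * C3 := by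
          intro j hj j' _
          calc ∑ Q' ∈ Qs J, (1 / (Q' : ℝ)) *
              ∑ Q ∈ Qs J, (1 / (Q : ℝ)) * (1 + Hsum J (j * Q) (j' * Q'))
              ≤ ∑ Q' ∈ Qs J, (1 / (Q' : ℝ)) * C3 := by
                apply sum_le_sum; intro Q' _
                have := h3 J j (j' * Q') hJ hj
                gcongr
            _ = (∑ Q' ∈ Qs J, (1 / (Q' : ℝ))) * C3 := by rw [sum_mul]
            _ ≤ 72 * C3 := by
                have := sum_Qs J hJ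
                gcongr
        gcongr with j hj j' hj'
        · have := Gsum_nonneg J j j'
          positivity
        · exact h9 j hj j' hj'
    _ = C1 * C2 * (72 * C3) * ∑ j ∈ js J, ∑ j' ∈ js J, (1 / (j : ℝ)) * (1 / (j' : ℝ)) *
        (1 + Gsum J j j') := by
        simp_rw [← sum_mul]; ring
    _ ≤ C1 * C2 * (72 * C3) * (C4 * (Real.log J) ^ 2) := by
        have := h4 J hJ
        gcongr
    _ = _ := by ring

end Pool.Agent.H5.W
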