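import Pool.Agent.H5.W.CaseOne

namespace Pool.Agent.H5.W

open Finset

/-- Cauchy-Schwarz -/
theorem cs_bound {α : Type} [DecidableEq α] (A : Finset α) (f : α → ℕ) :
    ((A.card : ℝ)) ^ 2 ≤ ((A.image f).card : ℝ) *
      ∑ a ∈ A, ∑ b ∈ A, (if f a = f b then (1 : ℝ) else 0) := by
  have h1 : (A.card : ℝ) = ∑ v ∈ A.image f, ((A.filter (fun a => f a = v)).card : ℝ) := by
    exact_mod_cast card_eq_sum_card_image f A
  have h2 : ∑ a ∈ A, ∑ b ∈ A, (if f a = f b then (1 : ℝ) else 0) =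
      ∑ v ∈ A.image f, ((A.filter (fun a => f a = v)).card : ℝ) ^ 2 := by
    rw [← sum_fiberwise_of_maps_to (g := f) (t := A.image f)
      (fun a ha => mem_image_of_mem f ha)]
    apply sum_congr rfl
    intro v _
    have h3 : ∀ a ∈ A.filter (fun a => f a = v), ∑ b ∈ A, (if f a = f b then (1 : ℝ) else 0) =
        ((A.filter (fun a => f a = v)).card : ℝ) := by
      intro a ha
      rw [mem_filter] at ha
      rw [← sum_filter, sum_const, nsmul_eq_mul, mul_one]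
      congr 2
      apply filter_congr
      intro b _
      rw [ha.2]
      exact eq_comm
    rw [sum_congr rfl h3, sum_const, nsmul_eq_mul, sq]
  rw [h1, h2]
  exact sq_sum_le_card_mul_sum_sq

/-- the triples -/
def TT (J : ℕ) : Finset (ℕ × ℕ × ℕ) := js J ×ˢ Qs J ×ˢ Ps J

/-- the family -/
def Fam (J : ℕ) : Finset ((_ : ℕ × ℕ × ℕ) × ℕ) :=
  (TT J).sigma (fun t => pr J (t.1 * t.2.1 * t.2.2))

/-- the value attached to a member of the family -/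
def fval (a : (_ : ℕ × ℕ × ℕ) × ℕ) : ℕ :=
  a.1.1 * a.1.2.1 * a.1.2.2 +
    a.2 * (a.1.1 * a.1.2.1 + a.1.2.2 * W (a.1.1 * a.1.2.1))

theorem mem_TT {J : ℕ} {t : ℕ × ℕ × ℕ} (h : t ∈ TT J) :
    t.1 ∈ js J ∧ t.2.1 ∈ Qs J ∧ t.2.2 ∈ Ps J := by
  rw [TT, mem_product, mem_product] at h
  exact ⟨h.1, h.2.1, h.2.2⟩

theorem P_not_dvd {J k P : ℕ} (hJ : 2 ≤ J) (hk : k ≠ 0) (hkJ : k ≤ J ^ 17) (hP : P ∈ Ps J) :
    ¬ P ∣ k := by
  intro h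
  have h1 := Nat.le_of_dvd (Nat.pos_of_ne_zero hk) h
  have h2 : J ^ 17 ≤ J ^ 80 := Nat.pow_le_pow_right (by omega) (by norm_num)
  have h3 := (mem_Ps hP).2.1
  omega

theorem m_le {J j Q P : ℕ} (hJ : 2 ≤ J) (hj : j ∈ js J) (hQ : Q ∈ Qs J) (hP : P ∈ Ps J) :
    j * Q * P ≤ J ^ 177 := by
  calc j * Q * P ≤ J ^ 17 * J ^ 160 :=
        Nat.mul_le_mul (k_bounds hJ hj hQ).2.1 (mem_Ps hP).2.2
    _ = J ^ 177 := by ring

/-- the values are values of `W` at arguments up to `J^400` -/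
theorem fval_mem (J : ℕ) (hJ : 2 ≤ J) (a : (_ : ℕ × ℕ × ℕ) × ℕ) (ha : a ∈ Fam J) :
    fval a ∈ (Icc 1 (J ^ 400)).image W := by
  obtain ⟨⟨j, Q, P⟩, p⟩ := a
  rw [Fam, mem_sigma] at ha
  obtain ⟨hj, hQ, hP⟩ := mem_TT ha.1
  simp only at hj hQ hP
  have hp := ha.2
  simp only [pr, mem_filter, mem_Ioc] at hp
  obtain ⟨a1, a2, a3⟩ := k_bounds hJ hj hQ
  have hPn := P_not_dvd hJ a3 a2 hP
  have hm0 : j * Q * P ≠ 0 := Nat.mul_ne_zero a3 (mem_Ps hP).1.ne_zero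
  have hWk := W_mul_prime (j * Q) P a3 (mem_Ps hP).1 hPn
  have hpn : ¬ p ∣ j * Q * P := by
    intro h
    have h1 := Nat.le_of_dvd (Nat.pos_of_ne_zero hm0) h
    have h2 := m_le hJ hj hQ hP
    have h3 : J ^ 177 ≤ J ^ 180 := Nat.pow_le_pow_right (by omega) (by norm_num)
    omega
  rw [mem_image]
  refine ⟨j * Q * P * p, ?_, ?_⟩
  · rw [mem_Icc]
    constructor
    · exact Nat.one_le_iff_ne_zero.mpr (Nat.mul_ne_zero hm0 hp.2.ne_zero)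
    · calc j * Q * P * p ≤ j * Q * P * (J ^ 400 / (j * Q * P)) :=
            Nat.mul_le_mul_left _ hp.1.2
        _ ≤ J ^ 400 := Nat.mul_div_le _ _
  · rw [W_mul_prime _ p hm0 hp.2 hpn, hWk]
    rfl

/-- number of collisions for a pair of triples -/
noncomputable def coll (J : ℕ) (t t' : ℕ × ℕ × ℕ) : ℝ :=
  ∑ p ∈ pr J (t.1 * t.2.1 * t.2.2), ∑ p' ∈ pr J (t'.1 * t'.2.1 * t'.2.2),
    (if fval ⟨t, p⟩ = fval ⟨t', p'⟩ then (1 : ℝ) else 0)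

theorem coll_eq (J : ℕ) : ∑ a ∈ Fam J, ∑ b ∈ Fam J, (if fval a = fval b then (1 : ℝ) else 0) =
    ∑ t ∈ TT J, ∑ t' ∈ TT J, coll J t t' := by
  rw [Fam, sum_sigma]
  apply sum_congr rfl
  intro t _
  have h1 : ∀ p ∈ pr J (t.1 * t.2.1 * t.2.2),
      ∑ b ∈ (TT J).sigma (fun t => pr J (t.1 * t.2.1 * t.2.2)),
        (if fval ⟨t, p⟩ = fval b then (1 : ℝ) else 0) =
      ∑ t' ∈ TT J, ∑ p' ∈ pr J (t'.1 * t'.2.1 * t'.2.2),
        (if fval ⟨t, p⟩ = fval ⟨t', p'⟩ then (1 : ℝ) else 0) := by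
    intro p _
    rw [sum_sigma]
  rw [sum_congr rfl h1]
  exact sum_comm

theorem coll_diag (J : ℕ) (hJ : 2 ≤ J) (t : ℕ × ℕ × ℕ) (ht : t ∈ TT J) :
    coll J t t = ((pr J (t.1 * t.2.1 * t.2.2)).card : ℝ) := by
  unfold coll
  obtain ⟨hj, hQ, hP⟩ := mem_TT ht
  have hpos : 0 < t.1 * t.2.1 + t.2.2 * W (t.1 * t.2.1) := by
    have := (k_bounds hJ hj hQ).2.2
    omega
  rw [card_eq_sum_ones]
  push_cast
  apply sum_congr rfl
  intro p hp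
  rw [← sum_filter]
  have : (pr J (t.1 * t.2.1 * t.2.2)).filter (fun p' => fval ⟨t, p⟩ = fval ⟨t, p'⟩) = {p} := by
    ext p'
    rw [mem_filter, mem_singleton]
    constructor
    · rintro ⟨_, h⟩
      unfold fval at h
      simp only at h
      have h2 : p * (t.1 * t.2.1 + t.2.2 * W (t.1 * t.2.1)) =
          p' * (t.1 * t.2.1 + t.2.2 * W (t.1 * t.2.1)) := by omega
      exact (Nat.eq_of_mul_eq_mul_right hpos h2).symm
    · rintro rfl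
      exact ⟨hp, rfl⟩
  rw [this]; simp

/-- off-diagonal terms -/
theorem coll_off : ∃ C : ℝ, 0 < C ∧ ∀ J : ℕ, 2 ≤ J → ∀ t ∈ TT J, ∀ t' ∈ TT J, t ≠ t' →
    coll J t t' ≤ C * (J : ℝ) ^ 400 / (Real.log J) ^ 2 *
      ((if t.1 * t.2.1 ≠ t'.1 * t'.2.1 then
        (1 / ((t.1 * t.2.1 : ℕ) : ℝ)) * (1 / ((t'.1 * t'.2.1 : ℕ) : ℝ)) *
          Psi J (t.1 * t.2.1) (t'.1 * t'.2.1) t.2.2 t'.2.2 else 0) +
      (if t.1 = t'.1 ∧ t.2.1 = t'.2.1 ∧ t.2.2 ≠ t'.2.2 then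
        (1 / ((t.1 * t.2.1 : ℕ) : ℝ)) * (1 / ((t.1 * t.2.1 : ℕ) : ℝ)) *
          Psi J (t.1 * t.2.1) (t.1 * t.2.1) t.2.2 t'.2.2 else 0)) + (J : ℝ) ^ 4 := by
  obtain ⟨C, hC, hpb⟩ := pair_bound
  refine ⟨C, hC, ?_⟩
  intro J hJ t ht t' ht' hne
  obtain ⟨hj, hQ, hP⟩ := mem_TT ht
  obtain ⟨hj', hQ', hP'⟩ := mem_TT ht'
  obtain ⟨a1, a2, a3⟩ := k_bounds hJ hj hQ
  obtain ⟨b1, b2, b3⟩ := k_bounds hJ hj' hQ'
  have hlog : 0 < Real.log J := Real.log_pos (by exact_mod_cast hJ)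
  have hcoll : coll J t t' = (((pr J (t.1 * t.2.1 * t.2.2) ×ˢ
      pr J (t'.1 * t'.2.1 * t'.2.2)).filter (fun pp =>
      t.1 * t.2.1 * t.2.2 + pp.1 * (t.1 * t.2.1 + t.2.2 * W (t.1 * t.2.1)) =
      t'.1 * t'.2.1 * t'.2.2 + pp.2 * (t'.1 * t'.2.1 + t'.2.2 * W (t'.1 * t'.2.1)))).card :
        ℝ) := by
    unfold coll fval
    rw [card_eq_sum_ones, sum_filter]
    push_cast
    rw [sum_product]
  by_cases hk : t.1 * t.2.1 = t'.1 * t'.2.1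
  · obtain ⟨e1, e2⟩ := jQ_inj hJ hj hQ hj' hQ' hk
    have e3 : t.2.2 ≠ t'.2.2 := by
      intro e3
      exact hne (Prod.ext e1 (Prod.ext e2 e3))
    have hmne : t.1 * t.2.1 * t.2.2 ≠ t'.1 * t'.2.1 * t'.2.2 := by
      rw [← hk]
      intro h
      exact e3 (Nat.eq_of_mul_eq_mul_left (Nat.pos_of_ne_zero a3) h)
    have h1 := hpb J (t.1 * t.2.1) (t'.1 * t'.2.1) t.2.2 t'.2.2 hJ a1 b1 a2 b2 hP hP' hmne
    rw [hcoll]
    refine h1.trans ?_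
    rw [if_neg (not_not.mpr hk), if_pos ⟨e1, e2, e3⟩, ← hk, zero_add]
  · have hmne : t.1 * t.2.1 * t.2.2 ≠ t'.1 * t'.2.1 * t'.2.2 := by
      intro h
      have h2 : t.2.2 ∣ t'.1 * t'.2.1 * t'.2.2 := ⟨t.1 * t.2.1, by rw [← h, mul_comm]⟩
      have h3 : t.2.2 = t'.2.2 := by
        rcases (Nat.Prime.dvd_mul (mem_Ps hP).1).mp h2 with h4 | h4
        · exact absurd h4 (P_not_dvd hJ b3 b2 hP)
        · exact (Nat.prime_dvd_prime_iff_eq (mem_Ps hP).1 (mem_Ps hP').1).mp h4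
      rw [h3] at h
      exact hk (Nat.eq_of_mul_eq_mul_right (mem_Ps hP').1.pos h)
    have h1 := hpb J (t.1 * t.2.1) (t'.1 * t'.2.1) t.2.2 t'.2.2 hJ a1 b1 a2 b2 hP hP' hmne
    rw [hcoll]
    refine h1.trans ?_
    rw [if_pos hk]
    have h5 : (0 : ℝ) ≤ (if t.1 = t'.1 ∧ t.2.1 = t'.2.1 ∧ t.2.2 ≠ t'.2.2 then
        (1 / ((t.1 * t.2.1 : ℕ) : ℝ)) * (1 / ((t.1 * t.2.1 : ℕ) : ℝ)) *
          Psi J (t.1 * t.2.1) (t.1 * t.2.1) t.2.2 t'.2.2 else 0) := by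
      split_ifs
      · have := Psi_nonneg J (t.1 * t.2.1) (t.1 * t.2.1) t.2.2 t'.2.2
        positivity
      · exact le_rfl
    have h6 : 0 ≤ C * (J : ℝ) ^ 400 / (Real.log J) ^ 2 := by positivity
    nlinarith [mul_nonneg h6 h5]

end Pool.Agent.H5.W
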