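import Pool.Agent.H5.W.Final

namespace Pool.Agent.H5.W

open Finset

theorem card_Fam (J : ℕ) : ((Fam J).card : ℝ) =
    ∑ j ∈ js J, ∑ Q ∈ Qs J, ∑ P ∈ Ps J, ((pr J (j * Q * P)).card : ℝ) := by
  rw [Fam, card_sigma]
  push_cast
  rw [TT, sum_product]
  apply sum_congr rfl
  intro j _
  rw [sum_product]

theorem card_TT_le (J : ℕ) : (TT J).card ≤ J ^ 177 := by
  rw [TT, card_product, card_product]
  have h1 : (js J).card ≤ J := by
    calc (js J).card ≤ (Icc 1 J).card := card_le_card (filter_subset _ _)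
      _ = J := by rw [Nat.card_Icc]; omega
  have h2 : (Qs J).card ≤ J ^ 16 := by
    calc (Qs J).card ≤ (Ioc (J ^ 8) (J ^ 16)).card := card_le_card (filter_subset _ _)
      _ ≤ J ^ 16 := by rw [Nat.card_Ioc]; omega
  have h3 : (Ps J).card ≤ J ^ 160 := by
    calc (Ps J).card ≤ (Ioc (J ^ 80) (J ^ 160)).card := card_le_card (filter_subset _ _)
      _ ≤ J ^ 160 := by rw [Nat.card_Ioc]; omega
  calc (js J).card * ((Qs J).card * (Ps J).card) ≤ J * (J ^ 16 * J ^ 160) :=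
        Nat.mul_le_mul h1 (Nat.mul_le_mul h2 h3)
    _ = J ^ 177 := by ring

theorem sum_TT (J : ℕ) (f : ℕ × ℕ × ℕ → ℝ) : ∑ t ∈ TT J, f t =
    ∑ j ∈ js J, ∑ Q ∈ Qs J, ∑ P ∈ Ps J, f (j, Q, P) := by
  rw [TT, sum_product]
  apply sum_congr rfl
  intro j _
  rw [sum_product]

/-- the collision terms with the same `k` -/
theorem same_k (J : ℕ) (g : ℕ → ℕ → ℕ → ℕ → ℝ) :
    ∑ t ∈ TT J, ∑ t' ∈ TT J, (if t.1 = t'.1 ∧ t.2.1 = t'.2.1 ∧ t.2.2 ≠ t'.2.2 then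
      g t.1 t.2.1 t.2.2 t'.2.2 else 0) =
    ∑ j ∈ js J, ∑ Q ∈ Qs J, ∑ P ∈ Ps J, ∑ P' ∈ Ps J, (if P ≠ P' then g j Q P P' else 0) := by
  rw [sum_TT]
  apply sum_congr rfl
  intro j hj
  apply sum_congr rfl
  intro Q hQ
  apply sum_congr rfl
  intro P _
  rw [sum_TT]
  rw [sum_eq_single j]
  · rw [sum_eq_single Q]
    · apply sum_congr rfl
      intro P' _
      simp
    · intro Q' _ hQ'
      apply sum_eq_zero
      intro P' _
      rw [if_neg]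
      rintro ⟨_, h, _⟩
      exact hQ' h.symm
    · intro h
      exact absurd hQ h
  · intro j' _ hj'
    apply sum_eq_zero
    intro Q' _
    apply sum_eq_zero
    intro P' _
    rw [if_neg]
    rintro ⟨h, _⟩
    exact hj' h.symm
  · intro h
    exact absurd hj h

theorem coll_total : ∃ C : ℝ, 0 < C ∧ ∀ J : ℕ, 2 ≤ J →
    ∑ t ∈ TT J, ∑ t' ∈ TT J, coll J t t' ≤ ((Fam J).card : ℝ) + C * (J : ℝ) ^ 400 := by
  obtain ⟨C0, hC0, h0⟩ := coll_off
  obtain ⟨C1, hC1, h1⟩ := case_one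
  obtain ⟨C2, hC2, h2⟩ := case_two
  refine ⟨C0 * (C1 + C2) + 1, by positivity, ?_⟩
  intro J hJ
  have hJR : (2 : ℝ) ≤ J := by exact_mod_cast hJ
  have hlog : 0 < Real.log J := Real.log_pos (by linarith)
  set K : ℝ := C0 * (J : ℝ) ^ 400 / (Real.log J) ^ 2 with hK
  have hK0 : 0 ≤ K := by positivity
  set A : ℕ × ℕ × ℕ → ℕ × ℕ × ℕ → ℝ := fun t t' =>
    if t.1 * t.2.1 ≠ t'.1 * t'.2.1 then
        (1 / ((t.1 * t.2.1 : ℕ) : ℝ)) * (1 / ((t'.1 * t'.2.1 : ℕ) : ℝ)) *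
          Psi J (t.1 * t.2.1) (t'.1 * t'.2.1) t.2.2 t'.2.2 else 0 with hA
  set B : ℕ × ℕ × ℕ → ℕ × ℕ × ℕ → ℝ := fun t t' =>
    if t.1 = t'.1 ∧ t.2.1 = t'.2.1 ∧ t.2.2 ≠ t'.2.2 then
        (1 / ((t.1 * t.2.1 : ℕ) : ℝ)) * (1 / ((t.1 * t.2.1 : ℕ) : ℝ)) *
          Psi J (t.1 * t.2.1) (t.1 * t.2.1) t.2.2 t'.2.2 else 0 with hB
  have hA0 : ∀ t t', 0 ≤ A t t' := by
    intro t t'
    simp only [hA]
    split_ifs
    · have := Psi_nonneg J (t.1 * t.2.1) (t'.1 * t'.2.1) t.2.2 t'.2.2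
      positivity
    · exact le_rfl
  have hB0 : ∀ t t', 0 ≤ B t t' := by
    intro t t'
    simp only [hB]
    split_ifs
    · have := Psi_nonneg J (t.1 * t.2.1) (t.1 * t.2.1) t.2.2 t'.2.2
      positivity
    · exact le_rfl
  have hb : ∀ t ∈ TT J, ∀ t' ∈ TT J, coll J t t' ≤
      (if t = t' then ((pr J (t.1 * t.2.1 * t.2.2)).card : ℝ) else 0) +
      (K * (A t t' + B t t') + (J : ℝ) ^ 4) := by
    intro t ht t' ht'
    by_cases h : t = t'
    · subst h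
      rw [if_pos rfl, coll_diag J hJ t ht]
      have h3 := hA0 t t
      have h4 := hB0 t t
      have : 0 ≤ K * (A t t + B t t) + (J : ℝ) ^ 4 := by positivity
      linarith
    · rw [if_neg h, zero_add]
      exact h0 J hJ t ht t' ht' h
  have hsum : ∑ t ∈ TT J, ∑ t' ∈ TT J, coll J t t' ≤
      ∑ t ∈ TT J, ∑ t' ∈ TT J, ((if t = t' then ((pr J (t.1 * t.2.1 * t.2.2)).card : ℝ) else 0) +
      (K * (A t t' + B t t') + (J : ℝ) ^ 4)) :=
    sum_le_sum fun t ht => sum_le_sum fun t' ht' => hb t ht t' ht'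
  refine hsum.trans ?_
  have e1 : ∑ t ∈ TT J, ∑ t' ∈ TT J, ((if t = t' then ((pr J (t.1 * t.2.1 * t.2.2)).card : ℝ) else 0)
      + (K * (A t t' + B t t') + (J : ℝ) ^ 4)) =
      ∑ t ∈ TT J, ∑ t' ∈ TT J, (if t = t' then ((pr J (t.1 * t.2.1 * t.2.2)).card : ℝ) else 0) +
      (K * (∑ t ∈ TT J, ∑ t' ∈ TT J, A t t' + ∑ t ∈ TT J, ∑ t' ∈ TT J, B t t') +
        ∑ t ∈ TT J, ∑ t' ∈ TT J, (J : ℝ) ^ 4) := by
    simp only [sum_add_distrib, mul_add, mul_sum]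
  rw [e1]
  have e2 : ∑ t ∈ TT J, ∑ t' ∈ TT J,
      (if t = t' then ((pr J (t.1 * t.2.1 * t.2.2)).card : ℝ) else 0) = ((Fam J).card : ℝ) := by
    rw [card_Fam, ← sum_TT J (fun t => ((pr J (t.1 * t.2.1 * t.2.2)).card : ℝ))]
    apply sum_congr rfl
    intro t ht
    rw [sum_ite_eq, if_pos ht]
  have e3 : ∑ t ∈ TT J, ∑ t' ∈ TT J, A t t' ≤ C2 * (Real.log J) ^ 2 := by
    have := h2 J hJ
    refine le_trans (le_of_eq ?_) this
    rw [sum_TT]
    apply sum_congr rfl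
    intro j _
    apply sum_congr rfl
    intro Q _
    apply sum_congr rfl
    intro P _
    rw [sum_TT]
  have e4 : ∑ t ∈ TT J, ∑ t' ∈ TT J, B t t' ≤ C1 * (Real.log J) ^ 2 := by
    have := h1 J hJ
    refine le_trans (le_of_eq ?_) this
    exact same_k J (fun j Q P P' => (1 / ((j * Q : ℕ) : ℝ)) * (1 / ((j * Q : ℕ) : ℝ)) *
      Psi J (j * Q) (j * Q) P P')
  have e5 : ∑ t ∈ TT J, ∑ t' ∈ TT J, (J : ℝ) ^ 4 ≤ (J : ℝ) ^ 400 := by
    rw [sum_const, sum_const, nsmul_eq_mul, nsmul_eq_mul]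
    have h5 : ((TT J).card : ℝ) ≤ (J : ℝ) ^ 177 := by exact_mod_cast card_TT_le J
    calc ((TT J).card : ℝ) * (((TT J).card : ℝ) * (J : ℝ) ^ 4)
        ≤ (J : ℝ) ^ 177 * ((J : ℝ) ^ 177 * (J : ℝ) ^ 4) := by gcongr
      _ = (J : ℝ) ^ 358 := by ring
      _ ≤ (J : ℝ) ^ 400 := pow_le_pow_right₀ (by linarith) (by norm_num)
  rw [e2]
  have e6 : K * (∑ t ∈ TT J, ∑ t' ∈ TT J, A t t' + ∑ t ∈ TT J, ∑ t' ∈ TT J, B t t') ≤
      C0 * (C1 + C2) * (J : ℝ) ^ 400 := by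
    calc K * (∑ t ∈ TT J, ∑ t' ∈ TT J, A t t' + ∑ t ∈ TT J, ∑ t' ∈ TT J, B t t')
        ≤ K * (C2 * (Real.log J) ^ 2 + C1 * (Real.log J) ^ 2) :=
          mul_le_mul_of_nonneg_left (add_le_add e3 e4) hK0
      _ = C0 * (C1 + C2) * (J : ℝ) ^ 400 := by
          rw [hK]
          field_simp
          ring
  linarith

/-- **Main theorem**: `W` takes at least `c x` values on `[1, x]` for `x = J ^ 400`. -/
theorem main_lower : ∃ c : ℝ, 0 < c ∧ ∃ J0 : ℕ, ∀ J : ℕ, J0 ≤ J →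
    c * (J : ℝ) ^ 400 ≤ ((((Icc 1 (J ^ 400)).image W).card : ℕ) : ℝ) := by
  obtain ⟨C, hC, hcoll⟩ := coll_total
  obtain ⟨c0, hc0, J0, hfam⟩ := fam_lower
  refine ⟨c0 / (1 + C / c0), by positivity, max 2 J0, ?_⟩
  intro J hJ
  have hJ2 : 2 ≤ J := le_trans (le_max_left _ _) hJ
  have hJ0 : J0 ≤ J := le_trans (le_max_right _ _) hJ
  have hJpos : (0 : ℝ) < (J : ℝ) ^ 400 := by
    have : (0 : ℝ) < J := by exact_mod_cast (by omega : 0 < J)
    positivity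
  have h1 := hfam J hJ0
  have h2 := hcoll J hJ2
  rw [← coll_eq] at h2
  have h3 := cs_bound (Fam J) fval
  have hF : c0 * (J : ℝ) ^ 400 ≤ ((Fam J).card : ℝ) := by
    rw [card_Fam]
    exact h1
  have hV : (((Fam J).image fval).card : ℝ) ≤ (((Icc 1 (J ^ 400)).image W).card : ℝ) := by
    have : (Fam J).image fval ⊆ (Icc 1 (J ^ 400)).image W := by
      intro v hv
      rw [mem_image] at hv
      obtain ⟨a, ha, rfl⟩ := hv
      exact fval_mem J hJ2 a ha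
    exact_mod_cast card_le_card this
  set F : ℝ := ((Fam J).card : ℝ) with hFdef
  set V : ℝ := (((Icc 1 (J ^ 400)).image W).card : ℝ) with hVdef
  have hFpos : 0 < F := lt_of_lt_of_le (by positivity) hF
  have hV0 : 0 ≤ V := by positivity
  have h4 : F ^ 2 ≤ V * (F + C * (J : ℝ) ^ 400) := by
    refine h3.trans ?_
    apply mul_le_mul hV h2 _ hV0
    exact sum_nonneg fun a _ => sum_nonneg fun b _ => by split_ifs <;> norm_num
  have h5 : F + C * (J : ℝ) ^ 400 ≤ F * (1 + C / c0) := by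
    have h6 : (J : ℝ) ^ 400 ≤ F / c0 := by
      rw [le_div_iff₀ hc0]; linarith
    calc F + C * (J : ℝ) ^ 400 ≤ F + C * (F / c0) := by gcongr
      _ = F * (1 + C / c0) := by ring
  have h7 : F ^ 2 ≤ V * (F * (1 + C / c0)) := h4.trans (mul_le_mul_of_nonneg_left h5 hV0)
  have h8 : F ≤ V * (1 + C / c0) := by
    have : F * F ≤ (V * (1 + C / c0)) * F := by nlinarith
    exact le_of_mul_le_mul_right this hFpos
  have h9 : 0 < 1 + C / c0 := by positivity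
  rw [div_mul_eq_mul_div, div_le_iff₀ h9]
  exact hF.trans h8

end Pool.Agent.H5.W
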