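import Pool.Agent.H5.W.PairSieve
import Pool.Agent.H5.W.Basic

namespace Pool.Agent.H5.W

open Finset

theorem rho_mul_prime (d l : ℕ) (hd : d ≠ 0) (hl : l.Prime) (hld : ¬ l ∣ d) :
    rho (d * l) = rho d * (1 + 1 / (l : ℝ)) := by
  unfold rho
  have hpf : (d * l).primeFactors = insert l d.primeFactors := by
    rw [Nat.primeFactors_mul hd hl.ne_zero, hl.primeFactors, Finset.union_comm]
    rfl
  rw [hpf, prod_insert (fun h => hld (Nat.dvd_of_mem_primeFactors h)), mul_comm]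

theorem rho_mul_prime_le (d l : ℕ) (hd : d ≠ 0) (hl : l.Prime) (hld : ¬ l ∣ d) :
    rho (d * l) / ((d * l : ℕ) : ℝ) ≤ 2 * (rho d / d) / l := by
  rw [rho_mul_prime d l hd hl hld]
  have h1 : (1 : ℝ) / l ≤ 1 := by
    rw [div_le_one (by exact_mod_cast hl.pos)]
    exact_mod_cast hl.one_lt.le
  have h2 := rho_ge_one d
  have hdR : (0 : ℝ) < d := by exact_mod_cast Nat.pos_of_ne_zero hd
  have hlR : (0 : ℝ) < l := by exact_mod_cast hl.pos
  push_cast
  rw [div_le_div_iff₀ (by positivity) hlR]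
  have : 2 * (rho d / d) * (d * l) = 2 * rho d * l := by field_simp
  rw [this]
  have h3 : rho d * (1 + 1 / (l : ℝ)) ≤ rho d * 2 := by gcongr; linarith
  nlinarith

/-- sums over a residue class -/
theorem sum_class (a b J q : ℕ) (hJ : 2 ≤ J) (ha : 5 ≤ a) (hab : a ≤ b) (hq : 0 < q)
    (hqJ : q ≤ J ^ (a - 5)) (T : Finset ℕ)
    (hT : ∀ P ∈ T, P.Prime ∧ J ^ a < P ∧ P ≤ J ^ b)
    (hc : ∀ P ∈ T, ∀ P' ∈ T, P ≡ P' [MOD q]) :
    ∑ P ∈ T, 1 / (P : ℝ) ≤ 9 * ((b - a : ℕ) : ℝ) * (rho q / q) := by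
  rcases T.eq_empty_or_nonempty with rfl | ⟨P0, hP0⟩
  · rw [sum_empty]
    have := rho_ge_one q
    positivity
  · calc ∑ P ∈ T, 1 / (P : ℝ)
        ≤ ∑ p ∈ (Ioc (J ^ a) (J ^ b)).filter (fun p => p.Prime ∧ p ≡ P0 [MOD q]),
            1 / (p : ℝ) := by
          apply sum_le_sum_of_subset_of_nonneg
          · intro P hP
            rw [mem_filter, mem_Ioc]
            exact ⟨(hT P hP).2, (hT P hP).1, hc P hP P0 hP0⟩
          · intro p _ _; positivity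
      _ ≤ 9 * ((b - a : ℕ) : ℝ) * rho q / q := bt_log a b J q P0 hJ ha hab hq hqJ
      _ = _ := by ring

/-- the primes `P` -/
def Ps (J : ℕ) : Finset ℕ := (Ioc (J ^ 80) (J ^ 160)).filter Nat.Prime

/-- primes `P` with `d ∣ W(kP)` -/
def AA (J k d : ℕ) : Finset ℕ := (Ps J).filter (fun P => d ∣ k + P * W k)

theorem mem_AA {J k d P : ℕ} (h : P ∈ AA J k d) :
    P.Prime ∧ J ^ 80 < P ∧ P ≤ J ^ 160 ∧ d ∣ k + P * W k := by
  rw [AA, mem_filter, Ps, mem_filter, mem_Ioc] at h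
  exact ⟨h.1.2, h.1.1.1, h.1.1.2, h.2⟩

theorem coprime_of_AA {J k d P : ℕ} (hk : k ≠ 0) (h : P ∈ AA J k d) : d.Coprime (W k) := by
  rw [Nat.coprime_iff_gcd_eq_one]
  by_contra hne
  obtain ⟨l, hl, hdvd⟩ := Nat.exists_prime_and_dvd hne
  have h1 : l ∣ d := hdvd.trans (Nat.gcd_dvd_left _ _)
  have h2 : l ∣ W k := hdvd.trans (Nat.gcd_dvd_right _ _)
  have h3 : l ∣ k + P * W k := h1.trans (mem_AA h).2.2.2
  have h4 : l ∣ k := (Nat.dvd_add_left (h2.mul_left P)).mp h3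
  have h5 : l ∣ Nat.gcd k (W k) := Nat.dvd_gcd h4 h2
  rw [Nat.coprime_iff_gcd_eq_one.mp (W_coprime k hk)] at h5
  exact hl.one_lt.ne' (Nat.dvd_one.mp h5)

theorem AA_modEq {J k d P P' : ℕ} (hk : k ≠ 0) (h : P ∈ AA J k d) (h' : P' ∈ AA J k d) :
    P ≡ P' [MOD d] := by
  have hc := coprime_of_AA hk h
  have h1 : k + P * W k ≡ k + P' * W k [MOD d] :=
    ((Nat.modEq_zero_iff_dvd.mpr (mem_AA h).2.2.2).trans
      (Nat.modEq_zero_iff_dvd.mpr (mem_AA h').2.2.2).symm)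
  have h2 : P * W k ≡ P' * W k [MOD d] := Nat.ModEq.add_left_cancel' k h1
  exact Nat.ModEq.cancel_right_of_coprime hc h2

theorem sum_AA (J k d : ℕ) (hJ : 2 ≤ J) (hk : k ≠ 0) (hd : 0 < d) (hdJ : d ≤ J ^ 75) :
    ∑ P ∈ AA J k d, 1 / (P : ℝ) ≤ 720 * (rho d / d) := by
  have := sum_class 80 160 J d hJ (by norm_num) (by norm_num) hd (by simpa using hdJ) (AA J k d)
    (fun P hP => ⟨(mem_AA hP).1, (mem_AA hP).2.1, (mem_AA hP).2.2.1⟩)
    (fun P hP P' hP' => AA_modEq hk hP hP')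
  norm_num at this ⊢
  exact this

/-- adding a prime `l` to the modulus: first kind -/
theorem sum_AA_prime (J k d l : ℕ) (hJ : 2 ≤ J) (hk : k ≠ 0) (hd : 0 < d) (hdJ : d ≤ J ^ 68)
    (hl : l.Prime) (hlJ : l ≤ J) (hld : ¬ l ∣ d) :
    ∑ P ∈ (AA J k d).filter (fun P => l ∣ k + P * W k), 1 / (P : ℝ) ≤
      720 * (rho d / d) * (2 / l) := by
  have hdl : d * l ≤ J ^ 75 := by
    calc d * l ≤ J ^ 68 * J := Nat.mul_le_mul hdJ hlJ
      _ = J ^ 69 := by ring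
      _ ≤ J ^ 75 := Nat.pow_le_pow_right (by omega) (by norm_num)
  have hsub : (AA J k d).filter (fun P => l ∣ k + P * W k) ⊆ AA J k (d * l) := by
    intro P hP
    rw [mem_filter] at hP
    have h1 := mem_AA hP.1
    rw [AA, mem_filter, Ps, mem_filter, mem_Ioc]
    refine ⟨⟨⟨h1.2.1, h1.2.2.1⟩, h1.1⟩, ?_⟩
    exact Nat.Coprime.mul_dvd_of_dvd_of_dvd
      ((Nat.Prime.coprime_iff_not_dvd hl).mpr hld).symm h1.2.2.2 hP.2
  calc ∑ P ∈ (AA J k d).filter (fun P => l ∣ k + P * W k), 1 / (P : ℝ)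
      ≤ ∑ P ∈ AA J k (d * l), 1 / (P : ℝ) :=
        sum_le_sum_of_subset_of_nonneg hsub (fun p _ _ => by positivity)
    _ ≤ 720 * (rho (d * l) / ((d * l : ℕ) : ℝ)) :=
        sum_AA J k (d * l) hJ hk (Nat.mul_pos hd hl.pos) hdl
    _ ≤ 720 * (2 * (rho d / d) / l) := by
        have := rho_mul_prime_le d l hd.ne' hl hld
        gcongr
    _ = _ := by ring

/-- adding a prime `l` to the modulus: second kind -/
theorem sum_AA_prime' (J k k' d l P' : ℕ) (hJ : 2 ≤ J) (hk : k ≠ 0) (hd : 0 < d)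
    (hdJ : d ≤ J ^ 68) (hl : l.Prime) (hlJ : l ≤ J) (hld : ¬ l ∣ d) (hP' : P'.Prime)
    (hP'J : J < P') :
    ∑ P ∈ (AA J k d).filter (fun P => (l : ℤ) ∣ ((k * P : ℕ) : ℤ) - ((k' * P' : ℕ) : ℤ)),
      1 / (P : ℝ) ≤ 720 * (rho d / d) * (2 / l) +
        720 * (rho d / d) * (if l ∣ k ∧ l ∣ k' then 1 else 0) := by
  have hdl : d * l ≤ J ^ 75 := by
    calc d * l ≤ J ^ 68 * J := Nat.mul_le_mul hdJ hlJ
      _ = J ^ 69 := by ring
      _ ≤ J ^ 75 := Nat.pow_le_pow_right (by omega) (by norm_num)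
  have hdJ' : d ≤ J ^ 75 := hdJ.trans (Nat.pow_le_pow_right (by omega) (by norm_num))
  have hrd := rho_ge_one d
  have hdR : (0 : ℝ) < d := by exact_mod_cast hd
  have hlR : (0 : ℝ) < l := by exact_mod_cast hl.pos
  by_cases hlk : l ∣ k
  · by_cases hlk' : l ∣ k'
    · rw [if_pos ⟨hlk, hlk'⟩]
      calc ∑ P ∈ (AA J k d).filter
            (fun P => (l : ℤ) ∣ ((k * P : ℕ) : ℤ) - ((k' * P' : ℕ) : ℤ)), 1 / (P : ℝ)
          ≤ ∑ P ∈ AA J k d, 1 / (P : ℝ) :=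
            sum_le_sum_of_subset_of_nonneg (filter_subset _ _) (fun p _ _ => by positivity)
        _ ≤ 720 * (rho d / d) := sum_AA J k d hJ hk hd hdJ'
        _ ≤ _ := by
            have : 0 ≤ 720 * (rho d / d) * (2 / (l : ℝ)) := by positivity
            linarith
    · have hempty : (AA J k d).filter
          (fun P => (l : ℤ) ∣ ((k * P : ℕ) : ℤ) - ((k' * P' : ℕ) : ℤ)) = ∅ := by
        rw [filter_eq_empty_iff]
        intro P hP hdvd
        have h1 : (l : ℤ) ∣ ((k * P : ℕ) : ℤ) := by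
          exact_mod_cast hlk.mul_right P
        have h2 : (l : ℤ) ∣ ((k' * P' : ℕ) : ℤ) := by
          have := dvd_sub h1 hdvd
          rwa [sub_sub_cancel] at this
        have h3 : l ∣ k' * P' := by exact_mod_cast h2
        rcases (Nat.Prime.dvd_mul hl).mp h3 with h4 | h4
        · exact hlk' h4
        · have := (Nat.prime_dvd_prime_iff_eq hl hP').mp h4
          omega
      rw [hempty, sum_empty]
      have : (0 : ℝ) ≤ (if l ∣ k ∧ l ∣ k' then 1 else 0) := by split_ifs <;> norm_num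
      positivity
  · have h0 : 0 ≤ 720 * (rho d / d) * (if l ∣ k ∧ l ∣ k' then (1 : ℝ) else 0) := by
      have : (0 : ℝ) ≤ (if l ∣ k ∧ l ∣ k' then 1 else 0) := by split_ifs <;> norm_num
      positivity
    have h1 := sum_class 80 160 J (d * l) hJ (by norm_num) (by norm_num)
      (Nat.mul_pos hd hl.pos) (by simpa using hdl)
      ((AA J k d).filter (fun P => (l : ℤ) ∣ ((k * P : ℕ) : ℤ) - ((k' * P' : ℕ) : ℤ)))
      (by
        intro P hP
        rw [mem_filter] at hP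
        exact ⟨(mem_AA hP.1).1, (mem_AA hP.1).2.1, (mem_AA hP.1).2.2.1⟩)
      (by
        intro P hP Q hQ
        rw [mem_filter] at hP hQ
        have hcop : d.Coprime l := ((Nat.Prime.coprime_iff_not_dvd hl).mpr hld).symm
        rw [← Nat.modEq_and_modEq_iff_modEq_mul hcop]
        refine ⟨AA_modEq hk hP.1 hQ.1, ?_⟩
        have h2 : (l : ℤ) ∣ ((k * P : ℕ) : ℤ) - ((k * Q : ℕ) : ℤ) := by
          have := dvd_sub hP.2 hQ.2
          have h3 : ((k * P : ℕ) : ℤ) - ((k' * P' : ℕ) : ℤ) -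
            (((k * Q : ℕ) : ℤ) - ((k' * P' : ℕ) : ℤ)) = ((k * P : ℕ) : ℤ) - ((k * Q : ℕ) : ℤ) := by
            ring
          rwa [h3] at this
        have h4 : k * Q ≡ k * P [MOD l] := Nat.modEq_iff_dvd.mpr h2
        exact (Nat.ModEq.cancel_left_of_coprime
          ((Nat.Prime.coprime_iff_not_dvd hl).mpr hlk) h4).symm)
    norm_num at h1
    have h2 := rho_mul_prime_le d l hd.ne' hl hld
    push_cast at h2
    calc ∑ P ∈ (AA J k d).filter
          (fun P => (l : ℤ) ∣ ((k * P : ℕ) : ℤ) - ((k' * P' : ℕ) : ℤ)), 1 / (P : ℝ)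
        ≤ 720 * (rho (d * l) / (d * l)) := by
          simpa using h1
      _ ≤ 720 * (2 * (rho d / d) / l) := by gcongr
      _ = 720 * (rho d / d) * (2 / l) := by ring
      _ ≤ _ := by linarith

end Pool.Agent.H5.W
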