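import Pool.Agent.H5.W.Inner2

namespace Pool.Agent.H5.W

open Finset

theorem inner_d : ∃ C : ℝ, 0 < C ∧ ∀ J k k' d : ℕ, 2 ≤ J → k ≠ 0 → k' ≠ 0 → 0 < d →
    d ≤ J ^ 68 →
    ∑ P ∈ AA J k d, ∑ P' ∈ AA J k' d, (1 / (P : ℝ)) * (1 / (P' : ℝ)) *
      rhoz J (EE (k * P) (k' * P') (k + P * W k) (k' + P' * W k')) ^ 2 ≤
    C * (1 + Gsum J k k') * (rho d ^ 4 / (d : ℝ) ^ 2) := by
  obtain ⟨CU, hCU, hU⟩ := lemmaU 2
  obtain ⟨C3, hC3, h3⟩ := sum_three_half
  refine ⟨CU * 720 ^ 2 * (2 + 6 * C3), by positivity, ?_⟩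
  intro J k k' d hJ hk hk' hd hdJ
  set X : ℝ := 720 * (rho d / d) with hX
  have hrd := rho_ge_one d
  have hdR : (0 : ℝ) < d := by exact_mod_cast hd
  have hX0 : 0 < X := by positivity
  have hG := Gsum_nonneg J k k'
  have hdJ' : d ≤ J ^ 75 := hdJ.trans (Nat.pow_le_pow_right (by omega) (by norm_num))
  have hA := sum_AA J k d hJ hk hd hdJ'
  have hA' := sum_AA J k' d hJ hk' hd hdJ'
  rw [← hX] at hA hA'
  have hA0 : 0 ≤ ∑ P ∈ AA J k d, 1 / (P : ℝ) := sum_nonneg (fun _ _ => by positivity)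
  have hA0' : 0 ≤ ∑ P ∈ AA J k' d, 1 / (P : ℝ) := sum_nonneg (fun _ _ => by positivity)
  have hgp : ∀ l ∈ goodPrimes J d, l.Prime ∧ l ≤ J ∧ ¬ l ∣ d := by
    intro l hl
    rw [goodPrimes, mem_filter, mem_range] at hl
    exact ⟨hl.2.1, by omega, hl.2.2⟩
  calc ∑ P ∈ AA J k d, ∑ P' ∈ AA J k' d, (1 / (P : ℝ)) * (1 / (P' : ℝ)) *
        rhoz J (EE (k * P) (k' * P') (k + P * W k) (k' + P' * W k')) ^ 2
      ≤ ∑ P ∈ AA J k d, ∑ P' ∈ AA J k' d, (1 / (P : ℝ)) * (1 / (P' : ℝ)) *
        (rho d ^ 2 * (CU * (1 + ∑ l ∈ goodPrimes J d, (1 / Real.sqrt l) *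
          (if l ∣ EE (k * P) (k' * P') (k + P * W k) (k' + P' * W k') then 1 else 0)))) := by
        apply sum_le_sum; intro P _; apply sum_le_sum; intro P' _
        have h1 := rhoz_sq_le CU hU J d
          (EE (k * P) (k' * P') (k + P * W k) (k' + P' * W k')) hd.ne'
        have h2 : ∑ l ∈ (goodPrimes J d).filter
            (fun l => l ∣ EE (k * P) (k' * P') (k + P * W k) (k' + P' * W k')),
            1 / Real.sqrt l = ∑ l ∈ goodPrimes J d, (1 / Real.sqrt l) *
          (if l ∣ EE (k * P) (k' * P') (k + P * W k) (k' + P' * W k') then 1 else 0) := by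
          rw [sum_filter]
          apply sum_congr rfl; intro l _; split_ifs <;> simp
        rw [h2] at h1
        gcongr
    _ = rho d ^ 2 * CU * ((∑ P ∈ AA J k d, 1 / (P : ℝ)) * (∑ P' ∈ AA J k' d, 1 / (P' : ℝ)) +
        ∑ l ∈ goodPrimes J d, (1 / Real.sqrt l) *
          (∑ P ∈ AA J k d, ∑ P' ∈ AA J k' d, (1 / (P : ℝ)) * (1 / (P' : ℝ)) *
      (if l ∣ EE (k * P) (k' * P') (k + P * W k) (k' + P' * W k') then 1 else 0))) := by
        rw [sum_mul_sum]
        simp_rw [mul_sum]
        rw [sum_comm (s := goodPrimes J d)]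
        simp_rw [sum_comm (s := goodPrimes J d)]
        rw [← sum_add_distrib, mul_sum]
        apply sum_congr rfl; intro P _
        rw [← sum_add_distrib, mul_sum]
        apply sum_congr rfl; intro P' _
        simp only [mul_add, mul_sum]
        congr 1
        · ring
        · apply sum_congr rfl; intro l _; ring
    _ ≤ rho d ^ 2 * CU * (X * X + ∑ l ∈ goodPrimes J d, (1 / Real.sqrt l) *
          (X ^ 2 * ((if l = 2 then 1 else 0) + 6 / l + (if l ∣ k ∧ l ∣ k' then 1 else 0)))) := by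
        have h4 : ∑ l ∈ goodPrimes J d, (1 / Real.sqrt l) *
          (∑ P ∈ AA J k d, ∑ P' ∈ AA J k' d, (1 / (P : ℝ)) * (1 / (P' : ℝ)) *
      (if l ∣ EE (k * P) (k' * P') (k + P * W k) (k' + P' * W k') then 1 else 0)) ≤
          ∑ l ∈ goodPrimes J d, (1 / Real.sqrt l) *
          (X ^ 2 * ((if l = 2 then 1 else 0) + 6 / l + (if l ∣ k ∧ l ∣ k' then 1 else 0))) := by
          apply sum_le_sum
          intro l hl
          obtain ⟨h1, h2, h3⟩ := hgp l hl
          have := B_bound J k k' d l hJ hk hk' hd hdJ h1 h2 h3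
          rw [← hX] at this
          gcongr
        gcongr
    _ = rho d ^ 2 * CU * X ^ 2 * (1 + (∑ l ∈ goodPrimes J d, (1 / Real.sqrt l) *
          (if l = 2 then 1 else 0)) + 6 * (∑ l ∈ goodPrimes J d, 1 / ((l : ℝ) * Real.sqrt l)) +
          ∑ l ∈ goodPrimes J d, (1 / Real.sqrt l) * (if l ∣ k ∧ l ∣ k' then 1 else 0)) := by
        have h5 : ∑ l ∈ goodPrimes J d, (1 / Real.sqrt l) *
          (X ^ 2 * ((if l = 2 then 1 else 0) + 6 / l + (if l ∣ k ∧ l ∣ k' then 1 else 0))) =
          X ^ 2 * ((∑ l ∈ goodPrimes J d, (1 / Real.sqrt l) *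
          (if l = 2 then 1 else 0)) + 6 * (∑ l ∈ goodPrimes J d, 1 / ((l : ℝ) * Real.sqrt l)) +
          ∑ l ∈ goodPrimes J d, (1 / Real.sqrt l) * (if l ∣ k ∧ l ∣ k' then 1 else 0)) := by
          rw [mul_sum (a := (6 : ℝ)), ← sum_add_distrib, ← sum_add_distrib, mul_sum]
          apply sum_congr rfl
          intro l hl
          have hl0 : (0 : ℝ) < l := by exact_mod_cast (hgp l hl).1.pos
          have hsl : 0 < Real.sqrt l := Real.sqrt_pos.mpr hl0
          field_simp
        rw [h5]; ring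
    _ ≤ rho d ^ 2 * CU * X ^ 2 * (1 + 1 + 6 * C3 + Gsum J k k') := by
        have h6 : ∑ l ∈ goodPrimes J d, (1 / Real.sqrt l) * (if l = 2 then (1 : ℝ) else 0) ≤ 1 := by
          calc ∑ l ∈ goodPrimes J d, (1 / Real.sqrt l) * (if l = 2 then (1 : ℝ) else 0)
              = ∑ l ∈ goodPrimes J d, (if l = 2 then (1 / Real.sqrt 2) else 0) := by
                apply sum_congr rfl; intro l _
                by_cases h : l = 2
                · subst h; simp
                · simp [h]
            _ ≤ 1 / Real.sqrt 2 := by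
                rw [sum_ite_eq']
                split_ifs
                · exact le_rfl
                · positivity
            _ ≤ 1 := by
                rw [div_le_one (by positivity)]
                exact Real.one_le_sqrt.mpr (by norm_num)
        have h7 := h3 (goodPrimes J d)
        have h8 : ∑ l ∈ goodPrimes J d, (1 / Real.sqrt l) *
            (if l ∣ k ∧ l ∣ k' then (1 : ℝ) else 0) ≤ Gsum J k k' := by
          unfold Gsum
          calc ∑ l ∈ goodPrimes J d, (1 / Real.sqrt l) * (if l ∣ k ∧ l ∣ k' then (1 : ℝ) else 0)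
              = ∑ l ∈ (goodPrimes J d).filter (fun l => l ∣ k ∧ l ∣ k'), 1 / Real.sqrt l := by
                rw [sum_filter]
                apply sum_congr rfl; intro l _; split_ifs <;> simp
            _ ≤ _ := by
                apply sum_le_sum_of_subset_of_nonneg
                · intro l hl
                  rw [mem_filter, goodPrimes, mem_filter] at hl
                  rw [mem_filter]
                  exact ⟨hl.1.1, hl.1.2.1, hl.2⟩
                · intro l _ _; positivity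
        gcongr
    _ ≤ rho d ^ 2 * CU * X ^ 2 * ((2 + 6 * C3) * (1 + Gsum J k k')) := by
        have : 1 + 1 + 6 * C3 + Gsum J k k' ≤ (2 + 6 * C3) * (1 + Gsum J k k') := by
          nlinarith [mul_nonneg hC3.le hG]
        gcongr
    _ = CU * 720 ^ 2 * (2 + 6 * C3) * (1 + Gsum J k k') * (rho d ^ 4 / (d : ℝ) ^ 2) := by
        rw [hX]; field_simp

end Pool.Agent.H5.W
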