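import Pool.Agent.H5.W.Inner3

namespace Pool.Agent.H5.W

open Finset

/-- the integer `|k^2 W(k') - k'^2 W(k)|` -/
def NN (k k' : ℕ) : ℕ := ((k : ℤ) ^ 2 * W k' - (k' : ℤ) ^ 2 * W k).natAbs

/-- the possible values of the gcd -/
def DD (k k' : ℕ) : Finset ℕ := (NN k k').divisors.filter (fun d => d.Coprime k ∧ d.Coprime k')

theorem NN_ne_zero (k k' : ℕ) (hk : k ≠ 0) (hk' : k' ≠ 0) (h : k ≠ k') : NN k k' ≠ 0 := by
  intro h0
  rw [NN, Int.natAbs_eq_zero, sub_eq_zero] at h0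
  have h1 : k ^ 2 * W k' = k' ^ 2 * W k := by exact_mod_cast h0
  apply h
  apply Nat.dvd_antisymm
  · have h2 : k ^ 2 ∣ k' ^ 2 * W k := ⟨W k', h1.symm⟩
    have h3 : k ^ 2 ∣ k' ^ 2 := (Nat.Coprime.pow_left 2 (W_coprime k hk)).dvd_of_dvd_mul_right h2
    exact (Nat.pow_dvd_pow_iff (by norm_num)).mp h3
  · have h2 : k' ^ 2 ∣ k ^ 2 * W k' := ⟨W k, h1⟩
    have h3 : k' ^ 2 ∣ k ^ 2 := (Nat.Coprime.pow_left 2 (W_coprime k' hk')).dvd_of_dvd_mul_right h2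
    exact (Nat.pow_dvd_pow_iff (by norm_num)).mp h3

theorem NN_le (J k k' : ℕ) (hkJ : k ≤ J ^ 17) (hkJ' : k' ≤ J ^ 17) : NN k k' ≤ J ^ 68 := by
  have h1 : k ^ 2 * W k' ≤ J ^ 68 := by
    calc k ^ 2 * W k' ≤ (J ^ 17) ^ 2 * (J ^ 17) ^ 2 :=
          Nat.mul_le_mul (Nat.pow_le_pow_left hkJ 2)
            ((W_le_sq k').trans (Nat.pow_le_pow_left hkJ' 2))
      _ = J ^ 68 := by ring
  have h2 : k' ^ 2 * W k ≤ J ^ 68 := by
    calc k' ^ 2 * W k ≤ (J ^ 17) ^ 2 * (J ^ 17) ^ 2 :=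
          Nat.mul_le_mul (Nat.pow_le_pow_left hkJ' 2)
            ((W_le_sq k).trans (Nat.pow_le_pow_left hkJ 2))
      _ = J ^ 68 := by ring
  unfold NN
  have e1 : (k : ℤ) ^ 2 * W k' = ((k ^ 2 * W k' : ℕ) : ℤ) := by push_cast; ring
  have e2 : (k' : ℤ) ^ 2 * W k = ((k' ^ 2 * W k : ℕ) : ℤ) := by push_cast; ring
  rw [e1, e2]
  generalize k ^ 2 * W k' = x at h1
  generalize k' ^ 2 * W k = y at h2
  omega

theorem mem_Ps {J P : ℕ} (h : P ∈ Ps J) : P.Prime ∧ J ^ 80 < P ∧ P ≤ J ^ 160 := by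
  rw [Ps, mem_filter, mem_Ioc] at h
  exact ⟨h.2, h.1.1, h.1.2⟩

theorem coprime_gcd (J k P g : ℕ) (hJ : 2 ≤ J) (hk : k ≠ 0) (hkJ : k ≤ J ^ 17) (hP : P ∈ Ps J)
    (hg : g ∣ k + P * W k) : g.Coprime k := by
  rw [Nat.coprime_iff_gcd_eq_one]
  by_contra hne
  obtain ⟨l, hl, hdvd⟩ := Nat.exists_prime_and_dvd hne
  have h1 : l ∣ g := hdvd.trans (Nat.gcd_dvd_left _ _)
  have h2 : l ∣ k := hdvd.trans (Nat.gcd_dvd_right _ _)
  have h3 : l ∣ P * W k := (Nat.dvd_add_right h2).mp (h1.trans hg)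
  obtain ⟨hPp, hPJ, -⟩ := mem_Ps hP
  rcases (Nat.Prime.dvd_mul hl).mp h3 with h4 | h4
  · have h5 := (Nat.prime_dvd_prime_iff_eq hl hPp).mp h4
    have h6 : l ≤ k := Nat.le_of_dvd (Nat.pos_of_ne_zero hk) h2
    have h7 : J ^ 17 ≤ J ^ 80 := Nat.pow_le_pow_right (by omega) (by norm_num)
    omega
  · have h5 : l ∣ Nat.gcd k (W k) := Nat.dvd_gcd h2 h4
    rw [Nat.coprime_iff_gcd_eq_one.mp (W_coprime k hk)] at h5
    exact hl.one_lt.ne' (Nat.dvd_one.mp h5)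

theorem gcd_mem_DD (J k k' P P' : ℕ) (hJ : 2 ≤ J) (hk : k ≠ 0) (hk' : k' ≠ 0)
    (hkJ : k ≤ J ^ 17) (hkJ' : k' ≤ J ^ 17) (hkk' : k ≠ k') (hP : P ∈ Ps J) (hP' : P' ∈ Ps J)
    (hg : ((Nat.gcd (k + P * W k) (k' + P' * W k') : ℕ) : ℤ) ∣
      ((k * P : ℕ) : ℤ) - ((k' * P' : ℕ) : ℤ)) :
    Nat.gcd (k + P * W k) (k' + P' * W k') ∈ DD k k' := by
  set g := Nat.gcd (k + P * W k) (k' + P' * W k') with hgdef
  have h1 : g ∣ k + P * W k := Nat.gcd_dvd_left _ _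
  have h2 : g ∣ k' + P' * W k' := Nat.gcd_dvd_right _ _
  rw [DD, mem_filter, Nat.mem_divisors]
  refine ⟨⟨?_, NN_ne_zero k k' hk hk' hkk'⟩, coprime_gcd J k P g hJ hk hkJ hP h1,
    coprime_gcd J k' P' g hJ hk' hkJ' hP' h2⟩
  rw [NN, ← Int.natCast_dvd]
  have h1' : (g : ℤ) ∣ (k : ℤ) + P * W k := by exact_mod_cast h1
  have h2' : (g : ℤ) ∣ (k' : ℤ) + P' * W k' := by exact_mod_cast h2
  have h3 : (k : ℤ) ^ 2 * W k' - (k' : ℤ) ^ 2 * W k =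
      ((k : ℤ) + P * W k) * (k * W k') - ((k' : ℤ) + P' * W k') * (k' * W k) -
        (((k * P : ℕ) : ℤ) - ((k' * P' : ℕ) : ℤ)) * (W k * W k') := by
    push_cast; ring
  rw [h3]
  exact dvd_sub (dvd_sub (h1'.mul_right _) (h2'.mul_right _)) (hg.mul_right _)

/-- the weighted sum over pairs `P, P'` for fixed `k ≠ k'` -/
theorem P2 : ∃ C : ℝ, 0 < C ∧ ∀ J k k' : ℕ, 2 ≤ J → k ≠ 0 → k' ≠ 0 → k ≤ J ^ 17 →
    k' ≤ J ^ 17 → k ≠ k' →
    ∑ P ∈ Ps J, ∑ P' ∈ Ps J,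
      (if ((Nat.gcd (k + P * W k) (k' + P' * W k') : ℕ) : ℤ) ∣
        ((k * P : ℕ) : ℤ) - ((k' * P' : ℕ) : ℤ) then
        ((Nat.gcd (k + P * W k) (k' + P' * W k') : ℕ) : ℝ) * ((1 / (P : ℝ)) * (1 / (P' : ℝ)) *
        rhoz J (EE (k * P) (k' * P') (k + P * W k) (k' + P' * W k')) ^ 2) else 0) ≤
    C * (1 + Gsum J k k') * ∑ d ∈ DD k k', rho d ^ 4 / (d : ℝ) := by
  obtain ⟨C, hC, hin⟩ := inner_d
  refine ⟨C, hC, ?_⟩
  intro J k k' hJ hk hk' hkJ hkJ' hkk'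
  set F : ℕ → ℕ → ℝ := fun P P' => (1 / (P : ℝ)) * (1 / (P' : ℝ)) *
        rhoz J (EE (k * P) (k' * P') (k + P * W k) (k' + P' * W k')) ^ 2 with hF
  have hF0 : ∀ P P', 0 ≤ F P P' := fun P P' => by rw [hF]; positivity
  have hDDpos : ∀ d ∈ DD k k', 0 < d ∧ d ≤ J ^ 68 := by
    intro d hd
    rw [DD, mem_filter, Nat.mem_divisors] at hd
    exact ⟨Nat.pos_of_dvd_of_pos hd.1.1 (Nat.pos_of_ne_zero hd.1.2),
      (Nat.le_of_dvd (Nat.pos_of_ne_zero hd.1.2) hd.1.1).trans (NN_le J k k' hkJ hkJ')⟩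
  calc ∑ P ∈ Ps J, ∑ P' ∈ Ps J,
      (if ((Nat.gcd (k + P * W k) (k' + P' * W k') : ℕ) : ℤ) ∣
        ((k * P : ℕ) : ℤ) - ((k' * P' : ℕ) : ℤ) then
        ((Nat.gcd (k + P * W k) (k' + P' * W k') : ℕ) : ℝ) * F P P' else 0)
      ≤ ∑ P ∈ Ps J, ∑ P' ∈ Ps J, ∑ d ∈ DD k k',
        (if d ∣ k + P * W k ∧ d ∣ k' + P' * W k' then (d : ℝ) * F P P' else 0) := by
        apply sum_le_sum; intro P hP; apply sum_le_sum; intro P' hP'
        have hnn : ∀ d ∈ DD k k', 0 ≤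
            (if d ∣ k + P * W k ∧ d ∣ k' + P' * W k' then (d : ℝ) * F P P' else 0) := by
          intro d _
          split_ifs
          · exact mul_nonneg (by positivity) (hF0 P P')
          · exact le_rfl
        split_ifs with hg
        · have hmem := gcd_mem_DD J k k' P P' hJ hk hk' hkJ hkJ' hkk' hP hP' hg
          have h1 := single_le_sum hnn hmem
          rw [if_pos ⟨Nat.gcd_dvd_left _ _, Nat.gcd_dvd_right _ _⟩] at h1
          exact h1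
        · exact sum_nonneg hnn
    _ = ∑ d ∈ DD k k', (d : ℝ) * ∑ P ∈ AA J k d, ∑ P' ∈ AA J k' d, F P P' := by
        simp_rw [sum_comm (s := Ps J) (t := DD k k')]
        apply sum_congr rfl
        intro d _
        rw [mul_sum, AA, AA, sum_filter]
        apply sum_congr rfl; intro P _
        by_cases h1 : d ∣ k + P * W k
        · rw [if_pos h1, sum_filter, mul_sum]
          apply sum_congr rfl; intro P' _
          by_cases h2 : d ∣ k' + P' * W k'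
          · rw [if_pos h2, if_pos ⟨h1, h2⟩]
          · rw [if_neg h2, if_neg (fun h => h2 h.2), mul_zero]
        · rw [if_neg h1]
          apply sum_eq_zero; intro P' _
          rw [if_neg (fun h => h1 h.1)]
    _ ≤ ∑ d ∈ DD k k', (d : ℝ) * (C * (1 + Gsum J k k') * (rho d ^ 4 / (d : ℝ) ^ 2)) := by
        apply sum_le_sum
        intro d hd
        have := hin J k k' d hJ hk hk' (hDDpos d hd).1 (hDDpos d hd).2
        gcongr
    _ = C * (1 + Gsum J k k') * ∑ d ∈ DD k k', rho d ^ 4 / (d : ℝ) := by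
        rw [mul_sum]
        apply sum_congr rfl
        intro d hd
        have : (0 : ℝ) < d := by exact_mod_cast (hDDpos d hd).1
        field_simp

end Pool.Agent.H5.W
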