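import Pool.Agent.H5.W.Outer1

namespace Pool.Agent.H5.W

open Finset

theorem sum_inv_le_prod (S D : Finset ℕ) (hS : ∀ p ∈ S, p.Prime)
    (hD : ∀ d ∈ D, d ≠ 0 ∧ ∀ p : ℕ, p.Prime → p ∣ d → p ∈ S) :
    ∑ d ∈ D, 1 / (d : ℝ) ≤ (∏ p ∈ S, (1 + 1 / (p : ℝ))) ^ 2 := by
  let f : ℕ →* ℝ :=
    { toFun := fun n => ((n : ℝ))⁻¹
      map_one' := by simp
      map_mul' := by intro a b; push_cast; rw [mul_inv] }
  have hf : ∀ n, f n = 1 / (n : ℝ) := fun n => (one_div _).symm
  have h1 := EulerProduct.summable_and_hasSum_factoredNumbers_prod_filter_prime_geometric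
    (f := f) (by
      intro p hp
      rw [hf, Real.norm_of_nonneg (by positivity)]
      rw [div_lt_one (by exact_mod_cast hp.pos)]
      exact_mod_cast hp.one_lt) S
  have hSf : S.filter Nat.Prime = S := filter_true_of_mem hS
  rw [hSf] at h1
  have hmem : ∀ d ∈ D, d ∈ Nat.factoredNumbers S := by
    intro d hd
    rw [Nat.mem_factoredNumbers]
    refine ⟨(hD d hd).1, ?_⟩
    intro p hp
    exact (hD d hd).2 p (Nat.prime_of_mem_primeFactorsList hp) (Nat.dvd_of_mem_primeFactorsList hp)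
  have h2 : ∑ d ∈ D, 1 / (d : ℝ) ≤ ∏ p ∈ S, (1 - f p)⁻¹ := by
    have h3 : ∑ d ∈ D, 1 / (d : ℝ) = ∑ m ∈ D.attach.map
        ⟨fun d => (⟨d.1, hmem d.1 d.2⟩ : Nat.factoredNumbers S), by
          intro a b hab
          simp only [Subtype.mk.injEq] at hab
          exact Subtype.ext hab⟩, f m := by
      rw [sum_map, ← sum_attach]
      apply sum_congr rfl
      intro d _
      simp [hf]
    rw [h3]
    apply sum_le_hasSum _ _ h1.2
    intro m _
    rw [hf]; positivity
  refine h2.trans ?_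
  rw [← prod_pow]
  apply prod_le_prod
  · intro p hp
    have h4 : f p ≤ 1 / 2 := by
      rw [hf]
      apply one_div_le_one_div_of_le (by norm_num)
      exact_mod_cast (hS p hp).two_le
    apply inv_nonneg.mpr
    linarith
  · intro p hp
    have h4 : f p ≤ 1 / 2 := by
      rw [hf]
      apply one_div_le_one_div_of_le (by norm_num)
      exact_mod_cast (hS p hp).two_le
    have h5 : 0 ≤ f p := by rw [hf]; positivity
    rw [← hf p]
    rw [inv_le_comm₀ (by linarith) (by positivity), inv_le_iff_one_le_mul₀ (by positivity)]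
    set x := f p
    nlinarith [mul_nonneg h5 h5, mul_nonneg h5 (sub_nonneg.mpr h4), mul_nonneg (mul_nonneg h5 h5) (sub_nonneg.mpr h4)]

/-- sum of `l^{-1/2}` over primes `l ≤ J` dividing `N(k,k')` and not `k k'` -/
noncomputable def Hsum (J k k' : ℕ) : ℝ :=
  ∑ l ∈ (range (J + 1)).filter (fun l => l.Prime ∧ l ∣ NN k k' ∧ ¬ l ∣ k ∧ ¬ l ∣ k'),
    1 / Real.sqrt l

theorem Hsum_nonneg (J k k' : ℕ) : 0 ≤ Hsum J k k' :=
  sum_nonneg (fun l _ => by positivity)

theorem card_large_primes (J N a : ℕ) (hJ : 2 ≤ J) (hN : N ≠ 0) (hNJ : N ≤ J ^ a)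
    (S : Finset ℕ) (hS : ∀ p ∈ S, p.Prime ∧ p ∣ N ∧ J < p) : S.card ≤ a := by
  have h1 : ∏ p ∈ S, p ∣ N := by
    apply Finset.prod_primes_dvd
    · intro p hp; exact (hS p hp).1.prime
    · intro p hp; exact (hS p hp).2.1
  have h2 : J ^ S.card ≤ ∏ p ∈ S, p := by
    rw [← prod_const]
    apply prod_le_prod'
    intro p hp; exact (hS p hp).2.2.le
  have h3 : J ^ S.card ≤ J ^ a :=
    h2.trans ((Nat.le_of_dvd (Nat.pos_of_ne_zero hN) h1).trans hNJ)
  exact (Nat.pow_le_pow_iff_right (by omega)).mp h3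

theorem sum_DD : ∃ C : ℝ, 0 < C ∧ ∀ J k k' : ℕ, 2 ≤ J → k ≠ 0 → k' ≠ 0 → k ≤ J ^ 17 →
    k' ≤ J ^ 17 → k ≠ k' →
    ∑ d ∈ DD k k', rho d ^ 4 / (d : ℝ) ≤ C * (1 + Hsum J k k') := by
  obtain ⟨C, hC, hU⟩ := lemmaU 6
  refine ⟨C * 69, by positivity, ?_⟩
  intro J k k' hJ hk hk' hkJ hkJ' hkk'
  have hN0 := NN_ne_zero k k' hk hk' hkk'
  have hNle := NN_le J k k' hkJ hkJ'
  set N := NN k k' with hN
  set S := N.primeFactors.filter (fun l => ¬ l ∣ k ∧ ¬ l ∣ k') with hSdef
  have hSp : ∀ p ∈ S, p.Prime := by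
    intro p hp
    rw [hSdef, mem_filter] at hp
    exact Nat.prime_of_mem_primeFactors hp.1
  have hDS : ∀ d ∈ DD k k', d ≠ 0 ∧ ∀ p : ℕ, p.Prime → p ∣ d → p ∈ S := by
    intro d hd
    rw [DD, mem_filter, Nat.mem_divisors] at hd
    refine ⟨ne_zero_of_dvd_ne_zero hd.1.2 hd.1.1, ?_⟩
    intro p hp hpd
    rw [hSdef, mem_filter, Nat.mem_primeFactors]
    refine ⟨⟨hp, hpd.trans hd.1.1, hN0⟩, ?_, ?_⟩
    · intro hpk
      have := Nat.dvd_gcd hpd hpk
      rw [Nat.coprime_iff_gcd_eq_one.mp hd.2.1] at this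
      exact hp.one_lt.ne' (Nat.dvd_one.mp this)
    · intro hpk
      have := Nat.dvd_gcd hpd hpk
      rw [Nat.coprime_iff_gcd_eq_one.mp hd.2.2] at this
      exact hp.one_lt.ne' (Nat.dvd_one.mp this)
  set R := ∏ p ∈ S, (1 + 1 / (p : ℝ)) with hR
  have hrho : ∀ d ∈ DD k k', rho d ≤ R := by
    intro d hd
    unfold rho
    rw [hR]
    apply Finset.prod_le_prod_of_subset_of_one_le
    · intro p hp
      exact (hDS d hd).2 p (Nat.prime_of_mem_primeFactors hp) (Nat.dvd_of_mem_primeFactors hp)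
    · intro p _; positivity
    · intro p _ _
      have : (0 : ℝ) ≤ 1 / (p : ℝ) := by positivity
      linarith
  have hR0 : 0 ≤ R := prod_nonneg (fun p _ => by positivity)
  have hH := Hsum_nonneg J k k'
  calc ∑ d ∈ DD k k', rho d ^ 4 / (d : ℝ) ≤ ∑ d ∈ DD k k', R ^ 4 * (1 / (d : ℝ)) := by
        apply sum_le_sum
        intro d hd
        have h1 := hrho d hd
        have h2 : 0 ≤ rho d := by linarith [rho_ge_one d]
        rw [div_eq_mul_one_div]
        gcongr
    _ = R ^ 4 * ∑ d ∈ DD k k', 1 / (d : ℝ) := by rw [mul_sum]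
    _ ≤ R ^ 4 * R ^ 2 := by
        have := sum_inv_le_prod S (DD k k') hSp hDS
        gcongr
    _ = R ^ 6 := by ring
    _ ≤ C * (1 + ∑ p ∈ S, 1 / Real.sqrt p) := hU S hSp
    _ ≤ C * (1 + (68 + Hsum J k k')) := by
        have h5 : ∑ p ∈ S, 1 / Real.sqrt p ≤ 68 + Hsum J k k' := by
          rw [← sum_filter_add_sum_filter_not S (fun p => J < p)]
          apply add_le_add
          · calc ∑ p ∈ S.filter (fun p => J < p), 1 / Real.sqrt p
                ≤ ∑ p ∈ S.filter (fun p => J < p), (1 : ℝ) := by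
                  apply sum_le_sum
                  intro p hp
                  rw [mem_filter] at hp
                  have hp1 : (1 : ℝ) ≤ p := by exact_mod_cast (hSp p hp.1).one_lt.le
                  rw [div_le_one (Real.sqrt_pos.mpr (by linarith))]
                  exact Real.one_le_sqrt.mpr hp1
              _ = ((S.filter (fun p => J < p)).card : ℝ) := by simp
              _ ≤ 68 := by
                  have := card_large_primes J N 68 hJ hN0 hNle (S.filter (fun p => J < p)) (by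
                    intro p hp
                    rw [mem_filter, hSdef, mem_filter] at hp
                    exact ⟨Nat.prime_of_mem_primeFactors hp.1.1,
                      Nat.dvd_of_mem_primeFactors hp.1.1, hp.2⟩)
                  exact_mod_cast this
          · unfold Hsum
            apply sum_le_sum_of_subset_of_nonneg
            · intro p hp
              rw [mem_filter, hSdef, mem_filter] at hp
              rw [mem_filter, mem_range]
              exact ⟨by omega, Nat.prime_of_mem_primeFactors hp.1.1,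
                Nat.dvd_of_mem_primeFactors hp.1.1, hp.1.2⟩
            · intro p _ _; positivity
        gcongr
    _ ≤ C * 69 * (1 + Hsum J k k') := by nlinarith

end Pool.Agent.H5.W
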