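import Pool.Agent.H5.W.Outer2

namespace Pool.Agent.H5.W

open Finset Polynomial

/-- the integers `j` -/
def js (J : ℕ) : Finset ℕ := (Icc 1 J).filter (fun j => j % 4 = 2)

/-- the primes `Q` -/
def Qs (J : ℕ) : Finset ℕ := (Ioc (J ^ 8) (J ^ 16)).filter Nat.Prime

theorem mem_js {J j : ℕ} (h : j ∈ js J) : 1 ≤ j ∧ j ≤ J ∧ j % 4 = 2 := by
  rw [js, mem_filter, mem_Icc] at h
  exact ⟨h.1.1, h.1.2, h.2⟩

theorem mem_Qs {J Q : ℕ} (h : Q ∈ Qs J) : Q.Prime ∧ J ^ 8 < Q ∧ Q ≤ J ^ 16 := by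
  rw [Qs, mem_filter, mem_Ioc] at h
  exact ⟨h.2, h.1.1, h.1.2⟩

theorem lt_of_mem_Qs {J Q : ℕ} (hJ : 2 ≤ J) (h : Q ∈ Qs J) : J < Q := by
  calc J = J ^ 1 := (pow_one J).symm
    _ ≤ J ^ 8 := Nat.pow_le_pow_right (by omega) (by norm_num)
    _ < Q := (mem_Qs h).2.1

theorem Q_not_dvd {J j Q : ℕ} (hJ : 2 ≤ J) (hj : j ∈ js J) (hQ : Q ∈ Qs J) : ¬ Q ∣ j := by
  intro h
  have h1 := Nat.le_of_dvd (by have := (mem_js hj).1; omega) h
  have h2 := (mem_js hj).2.1
  have h3 := lt_of_mem_Qs hJ hQ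
  omega

theorem W_jQ {J j Q : ℕ} (hJ : 2 ≤ J) (hj : j ∈ js J) (hQ : Q ∈ Qs J) :
    W (j * Q) = j + Q * W j :=
  W_mul_prime j Q (by have := (mem_js hj).1; omega) (mem_Qs hQ).1 (Q_not_dvd hJ hj hQ)

theorem sum_Qs (J : ℕ) (hJ : 2 ≤ J) : ∑ Q ∈ Qs J, 1 / (Q : ℝ) ≤ 72 := by
  have := sum_class 8 16 J 1 hJ (by norm_num) (by norm_num) (by norm_num)
    (Nat.one_le_pow _ _ (by omega)) (Qs J)
    (fun Q hQ => mem_Qs hQ) (fun P _ P' _ => Nat.modEq_one)
  have h1 : rho 1 = 1 := by unfold rho; simp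
  rw [h1] at this
  norm_num at this ⊢
  exact this

theorem Gsum_le {J j j' Q Q' : ℕ} (hJ : 2 ≤ J) (hQ : Q ∈ Qs J) (hQ' : Q' ∈ Qs J) :
    Gsum J (j * Q) (j' * Q') ≤ Gsum J j j' := by
  unfold Gsum
  apply sum_le_sum_of_subset_of_nonneg
  · intro l hl
    rw [mem_filter, mem_range] at hl ⊢
    obtain ⟨h1, h2, h3, h4⟩ := hl
    refine ⟨h1, h2, ?_, ?_⟩
    · rcases (Nat.Prime.dvd_mul h2).mp h3 with h5 | h5
      · exact h5
      · have := (Nat.prime_dvd_prime_iff_eq h2 (mem_Qs hQ).1).mp h5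
        have := lt_of_mem_Qs hJ hQ
        omega
    · rcases (Nat.Prime.dvd_mul h2).mp h4 with h5 | h5
      · exact h5
      · have := (Nat.prime_dvd_prime_iff_eq h2 (mem_Qs hQ').1).mp h5
        have := lt_of_mem_Qs hJ hQ'
        omega
  · intro l _ _; positivity

theorem rho_prime_le (l : ℕ) (hl : l.Prime) : rho l / l ≤ 2 / l := by
  have h1 : rho l = 1 + 1 / (l : ℝ) := by
    unfold rho
    rw [hl.primeFactors, prod_singleton]
  rw [h1]
  have h2 : (1 : ℝ) / l ≤ 1 := by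
    rw [div_le_one (by exact_mod_cast hl.pos)]
    exact_mod_cast hl.one_lt.le
  have hlR : (0 : ℝ) < l := by exact_mod_cast hl.pos
  gcongr
  linarith

/-- the sum over `Q` with `l ∣ N(jQ, k')` -/
theorem sum_Q_l (J j k' l : ℕ) (hJ : 2 ≤ J) (hj : j ∈ js J) (hl : l.Prime) (hlJ : l ≤ J) :
    ∑ Q ∈ (Qs J).filter (fun Q => l ∣ NN (j * Q) k' ∧ ¬ l ∣ j * Q ∧ ¬ l ∣ k'), 1 / (Q : ℝ) ≤
      288 / l := by
  set T := (Qs J).filter (fun Q => l ∣ NN (j * Q) k' ∧ ¬ l ∣ j * Q ∧ ¬ l ∣ k') with hT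
  have hlR : (0 : ℝ) < l := by exact_mod_cast hl.pos
  rcases T.eq_empty_or_nonempty with h0 | ⟨Q0, hQ0⟩
  · rw [h0, sum_empty]; positivity
  have hQ0' := hQ0
  rw [hT, mem_filter] at hQ0'
  have hlj : ¬ l ∣ j := fun h => hQ0'.2.2.1 (h.mul_right _)
  have hlk' : ¬ l ∣ k' := hQ0'.2.2.2
  haveI : Fact l.Prime := ⟨hl⟩
  set R := T.image (fun Q => Q % l) with hR
  set f : (ZMod l)[X] := C ((j : ZMod l) ^ 2 * (W k' : ZMod l)) * X ^ 2 +
    C (-((k' : ZMod l) ^ 2 * (W j : ZMod l))) * X + C (-((k' : ZMod l) ^ 2 * (j : ZMod l)))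
    with hf
  have hf0 : f ≠ 0 := by
    intro h
    have h1 : f.coeff 0 = -((k' : ZMod l) ^ 2 * (j : ZMod l)) := by
      rw [hf, coeff_zero_eq_eval_zero]
      simp only [eval_add, eval_mul, eval_C, eval_pow, eval_X]
      ring
    rw [h, coeff_zero] at h1
    have h2 : (k' : ZMod l) ^ 2 * (j : ZMod l) = 0 := by
      rw [← neg_eq_zero]; exact h1.symm
    rcases mul_eq_zero.mp h2 with h3 | h3
    · have h4 := pow_eq_zero_iff (two_ne_zero) |>.mp h3
      exact hlk' ((ZMod.natCast_eq_zero_iff _ _).mp h4)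
    · exact hlj ((ZMod.natCast_eq_zero_iff _ _).mp h3)
  have hroot : ∀ Q ∈ T, f.IsRoot (Q : ZMod l) := by
    intro Q hQ
    rw [hT, mem_filter] at hQ
    have h1 : (l : ℤ) ∣ ((j * Q : ℕ) : ℤ) ^ 2 * W k' - (k' : ℤ) ^ 2 * W (j * Q) := by
      have := hQ.2.1
      rw [NN] at this
      exact Int.natCast_dvd.mpr this
    have h2 := (ZMod.intCast_zmod_eq_zero_iff_dvd _ l).mpr h1
    rw [W_jQ hJ hj hQ.1] at h2
    push_cast at h2
    rw [IsRoot, hf]
    simp only [eval_add, eval_mul, eval_C, eval_pow, eval_X]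
    rw [← h2]; ring
  have hRcard : R.card ≤ 2 := by
    calc R.card ≤ f.roots.toFinset.card := by
          apply Finset.card_le_card_of_injOn (fun r : ℕ => ((r : ℕ) : ZMod l))
          · intro r hr
            rw [hR, coe_image] at hr
            obtain ⟨Q, hQ, rfl⟩ := hr
            have h3 := hroot Q hQ
            simp only [Finset.mem_coe, Multiset.mem_toFinset, mem_roots hf0]
            have : ((Q % l : ℕ) : ZMod l) = (Q : ZMod l) := by simp
            rw [this]; exact h3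
          · intro r hr r' hr' hrr'
            rw [hR, coe_image] at hr hr'
            obtain ⟨Q, hQ, rfl⟩ := hr
            obtain ⟨Q', hQ', rfl⟩ := hr'
            simp only at hrr' ⊢
            rw [ZMod.natCast_eq_natCast_iff'] at hrr'
            simpa using hrr'
      _ ≤ f.roots.card := Multiset.toFinset_card_le _
      _ ≤ f.natDegree := card_roots' f
      _ ≤ 2 := by rw [hf]; exact natDegree_quadratic_le
  calc ∑ Q ∈ T, 1 / (Q : ℝ) = ∑ r ∈ R, ∑ Q ∈ T.filter (fun Q => Q % l = r), 1 / (Q : ℝ) := by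
        rw [sum_fiberwise_of_maps_to]
        intro Q hQ
        rw [hR]; exact mem_image_of_mem _ hQ
    _ ≤ ∑ r ∈ R, 144 / (l : ℝ) := by
        apply sum_le_sum
        intro r _
        have h5 := sum_class 8 16 J l hJ (by norm_num) (by norm_num) hl.pos
          (by
            calc l ≤ J ^ 1 := by simpa using hlJ
              _ ≤ J ^ (8 - 5) := Nat.pow_le_pow_right (by omega) (by norm_num))
          (T.filter (fun Q => Q % l = r))
          (by
            intro Q hQ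
            rw [mem_filter, hT, mem_filter] at hQ
            exact mem_Qs hQ.1.1)
          (by
            intro Q hQ Q' hQ'
            rw [mem_filter] at hQ hQ'
            exact hQ.2.trans hQ'.2.symm)
        have h6 := rho_prime_le l hl
        norm_num at h5
        calc ∑ Q ∈ T.filter (fun Q => Q % l = r), 1 / (Q : ℝ) ≤ 72 * (rho l / l) := by
              simpa using h5
          _ ≤ 72 * (2 / l) := by gcongr
          _ = 144 / l := by ring
    _ = R.card * (144 / l) := by rw [sum_const, nsmul_eq_mul]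
    _ ≤ 2 * (144 / l) := by
        have : (R.card : ℝ) ≤ 2 := by exact_mod_cast hRcard
        gcongr
    _ = 288 / l := by ring

/-- the sum over `Q` for fixed `j, k'` -/
theorem sum_over_Q : ∃ C : ℝ, 0 < C ∧ ∀ J j k' : ℕ, 2 ≤ J → j ∈ js J →
    ∑ Q ∈ Qs J, 1 / (Q : ℝ) * (1 + Hsum J (j * Q) k') ≤ C := by
  obtain ⟨C3, hC3, h3⟩ := sum_three_half
  refine ⟨72 + 288 * C3, by positivity, ?_⟩
  intro J j k' hJ hj
  set Pr := (range (J + 1)).filter Nat.Prime with hPr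
  have hPrm : ∀ l ∈ Pr, l.Prime ∧ l ≤ J := by
    intro l hl
    rw [hPr, mem_filter, mem_range] at hl
    exact ⟨hl.2, by omega⟩
  have hH : ∀ Q, Hsum J (j * Q) k' = ∑ l ∈ Pr, 1 / Real.sqrt l *
      (if l ∣ NN (j * Q) k' ∧ ¬ l ∣ j * Q ∧ ¬ l ∣ k' then 1 else 0) := by
    intro Q
    unfold Hsum
    rw [hPr, ← filter_filter, sum_filter]
    apply sum_congr rfl; intro l _; split_ifs <;> simp
  calc ∑ Q ∈ Qs J, 1 / (Q : ℝ) * (1 + Hsum J (j * Q) k')
      = ∑ Q ∈ Qs J, 1 / (Q : ℝ) + ∑ l ∈ Pr, 1 / Real.sqrt l * ∑ Q ∈ Qs J, 1 / (Q : ℝ) *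
        (if l ∣ NN (j * Q) k' ∧ ¬ l ∣ j * Q ∧ ¬ l ∣ k' then 1 else 0) := by
        simp_rw [hH, mul_add, mul_one, sum_add_distrib, mul_sum]
        rw [sum_comm]
        congr 1
        apply sum_congr rfl; intro l _; apply sum_congr rfl; intro Q _; ring
    _ ≤ 72 + ∑ l ∈ Pr, 1 / Real.sqrt l * (288 / l) := by
        have h4 : ∀ l ∈ Pr, ∑ Q ∈ Qs J, 1 / (Q : ℝ) *
            (if l ∣ NN (j * Q) k' ∧ ¬ l ∣ j * Q ∧ ¬ l ∣ k' then 1 else 0) ≤ 288 / l := by
          intro l hl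
          have := sum_Q_l J j k' l hJ hj (hPrm l hl).1 (hPrm l hl).2
          rw [sum_filter] at this
          calc ∑ Q ∈ Qs J, 1 / (Q : ℝ) *
            (if l ∣ NN (j * Q) k' ∧ ¬ l ∣ j * Q ∧ ¬ l ∣ k' then 1 else 0)
              = ∑ Q ∈ Qs J,
            (if l ∣ NN (j * Q) k' ∧ ¬ l ∣ j * Q ∧ ¬ l ∣ k' then 1 / (Q : ℝ) else 0) := by
                apply sum_congr rfl; intro Q _; split_ifs <;> simp
            _ ≤ 288 / l := this
        have h5 := sum_Qs J hJ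
        apply add_le_add h5
        apply sum_le_sum
        intro l hl
        have := h4 l hl
        gcongr
    _ = 72 + 288 * ∑ l ∈ Pr, 1 / ((l : ℝ) * Real.sqrt l) := by
        congr 1
        rw [mul_sum]
        apply sum_congr rfl; intro l hl
        have hl0 : (0 : ℝ) < l := by exact_mod_cast (hPrm l hl).1.pos
        have hsl : 0 < Real.sqrt l := Real.sqrt_pos.mpr hl0
        field_simp
    _ ≤ 72 + 288 * C3 := by
        have := h3 Pr
        gcongr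

end Pool.Agent.H5.W
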