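import Pool.Agent.H5.W.Outer3

namespace Pool.Agent.H5.W

open Finset

theorem harm_le (J : ℕ) : ∑ j ∈ Icc 1 J, 1 / (j : ℝ) ≤ 1 + Real.log J := by
  have h := harmonic_le_one_add_log J
  rw [harmonic_eq_sum_Icc] at h
  push_cast at h
  simpa [one_div] using h

theorem harm_js (J : ℕ) : ∑ j ∈ js J, 1 / (j : ℝ) ≤ 1 + Real.log J := by
  refine le_trans ?_ (harm_le J)
  apply sum_le_sum_of_subset_of_nonneg (filter_subset _ _)
  intro j _ _; positivity

theorem harm_js_l (J l : ℕ) (hl : 0 < l) :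
    ∑ j ∈ (js J).filter (fun j => l ∣ j), 1 / (j : ℝ) ≤ (1 + Real.log J) / l := by
  have hlR : (0 : ℝ) < l := by exact_mod_cast hl
  have hsub : (js J).filter (fun j => l ∣ j) ⊆ (Icc 1 J).image (fun i => l * i) := by
    intro j hj
    rw [mem_filter] at hj
    obtain ⟨⟨h1, h2, h3⟩, ⟨i, rfl⟩⟩ := And.intro (mem_js hj.1) hj.2
    rw [mem_image]
    refine ⟨i, ?_, rfl⟩
    rw [mem_Icc]
    constructor
    · rcases Nat.eq_zero_or_pos i with rfl | h
      · simp at h1
      · exact h
    · exact (Nat.le_mul_of_pos_left i hl).trans h2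
  calc ∑ j ∈ (js J).filter (fun j => l ∣ j), 1 / (j : ℝ)
      ≤ ∑ j ∈ (Icc 1 J).image (fun i => l * i), 1 / (j : ℝ) := by
        apply sum_le_sum_of_subset_of_nonneg hsub
        intro j _ _; positivity
    _ = ∑ i ∈ Icc 1 J, 1 / ((l * i : ℕ) : ℝ) := by
        rw [sum_image]
        intro a _ b _ hab
        exact Nat.eq_of_mul_eq_mul_left hl hab
    _ = (∑ i ∈ Icc 1 J, 1 / (i : ℝ)) / l := by
        rw [sum_div]
        apply sum_congr rfl
        intro i hi
        rw [mem_Icc] at hi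
        have : (0 : ℝ) < i := by exact_mod_cast hi.1
        push_cast
        field_simp
    _ ≤ _ := by
        have := harm_le J
        gcongr

theorem one_add_log_le (J : ℕ) (hJ : 2 ≤ J) : 1 + Real.log J ≤ 3 * Real.log J := by
  have h2 : 0.6931471803 < Real.log 2 := Real.log_two_gt_d9
  have h4 : Real.log 2 ≤ Real.log J := Real.log_le_log (by norm_num) (by exact_mod_cast hJ)
  linarith

/-- the sum over `j, j'` -/
theorem sum_jj : ∃ C : ℝ, 0 < C ∧ ∀ J : ℕ, 2 ≤ J →
    ∑ j ∈ js J, ∑ j' ∈ js J, (1 / (j : ℝ)) * (1 / (j' : ℝ)) * (1 + Gsum J j j') ≤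
      C * (Real.log J) ^ 2 := by
  obtain ⟨C3, hC3, h3⟩ := sum_three_half
  refine ⟨9 * (1 + C3), by positivity, ?_⟩
  intro J hJ
  set Pr := (range (J + 1)).filter Nat.Prime with hPr
  have hPrm : ∀ l ∈ Pr, l.Prime ∧ l ≤ J := by
    intro l hl
    rw [hPr, mem_filter, mem_range] at hl
    exact ⟨hl.2, by omega⟩
  have hlog := one_add_log_le J hJ
  have hlog0 : 0 ≤ Real.log J := Real.log_nonneg (by exact_mod_cast (by omega : 1 ≤ J))
  have hjs := harm_js J
  have hjs0 : 0 ≤ ∑ j ∈ js J, 1 / (j : ℝ) := sum_nonneg (fun _ _ => by positivity)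
  have hG : ∀ j j', Gsum J j j' = ∑ l ∈ Pr, 1 / Real.sqrt l *
      ((if l ∣ j then 1 else 0) * (if l ∣ j' then 1 else 0)) := by
    intro j j'
    unfold Gsum
    rw [hPr, ← filter_filter, sum_filter]
    apply sum_congr rfl; intro l _
    by_cases h1 : l ∣ j <;> by_cases h2 : l ∣ j' <;> simp [h1, h2]
  calc ∑ j ∈ js J, ∑ j' ∈ js J, (1 / (j : ℝ)) * (1 / (j' : ℝ)) * (1 + Gsum J j j')
      = (∑ j ∈ js J, 1 / (j : ℝ)) * (∑ j ∈ js J, 1 / (j : ℝ)) +
        ∑ l ∈ Pr, 1 / Real.sqrt l * ((∑ j ∈ js J, 1 / (j : ℝ) * (if l ∣ j then 1 else 0)) *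
          (∑ j ∈ js J, 1 / (j : ℝ) * (if l ∣ j then 1 else 0))) := by
        simp_rw [hG, mul_add, mul_one, sum_add_distrib, sum_mul_sum, mul_sum]
        congr 1
        rw [Finset.sum_congr rfl (fun j _ => sum_comm), sum_comm]
        apply sum_congr rfl; intro l _; apply sum_congr rfl; intro j _
        apply sum_congr rfl; intro j' _; ring
    _ ≤ (3 * Real.log J) * (3 * Real.log J) +
        ∑ l ∈ Pr, 1 / Real.sqrt l * ((3 * Real.log J) / l * ((3 * Real.log J) / l)) := by
        have h4 : ∀ l ∈ Pr, ∑ j ∈ js J, 1 / (j : ℝ) * (if l ∣ j then 1 else 0) ≤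
            (3 * Real.log J) / l := by
          intro l hl
          have h5 := harm_js_l J l (hPrm l hl).1.pos
          rw [sum_filter] at h5
          calc ∑ j ∈ js J, 1 / (j : ℝ) * (if l ∣ j then 1 else 0)
              = ∑ j ∈ js J, (if l ∣ j then 1 / (j : ℝ) else 0) := by
                apply sum_congr rfl; intro j _; split_ifs <;> simp
            _ ≤ (1 + Real.log J) / l := h5
            _ ≤ _ := by gcongr
        have h6 : ∀ l ∈ Pr, 0 ≤ ∑ j ∈ js J, 1 / (j : ℝ) * (if l ∣ j then 1 else 0) := by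
          intro l _
          exact sum_nonneg (fun j _ => by split_ifs <;> positivity)
        apply add_le_add
        · have : ∑ j ∈ js J, 1 / (j : ℝ) ≤ 3 * Real.log J := hjs.trans hlog
          gcongr
        · apply sum_le_sum
          intro l hl
          have h7 := h4 l hl
          have h8 := h6 l hl
          gcongr
    _ ≤ (3 * Real.log J) * (3 * Real.log J) +
        (3 * Real.log J) * (3 * Real.log J) * ∑ l ∈ Pr, 1 / ((l : ℝ) * Real.sqrt l) := by
        have h9 : ∑ l ∈ Pr, 1 / Real.sqrt l * ((3 * Real.log J) / l * ((3 * Real.log J) / l)) ≤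
            (3 * Real.log J) * (3 * Real.log J) * ∑ l ∈ Pr, 1 / ((l : ℝ) * Real.sqrt l) := by
          rw [mul_sum]
          apply sum_le_sum
          intro l hl
          have hl1 : (1 : ℝ) ≤ l := by exact_mod_cast (hPrm l hl).1.one_lt.le
          have hl0 : (0 : ℝ) < l := by linarith
          have hsl : 0 < Real.sqrt l := Real.sqrt_pos.mpr hl0
          have h10 : 1 / Real.sqrt l * ((3 * Real.log J) / l * ((3 * Real.log J) / l)) =
              (3 * Real.log J) * (3 * Real.log J) * (1 / ((l : ℝ) * Real.sqrt l)) * (1 / l) := by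
            field_simp
          rw [h10]
          have h11 : 1 / (l : ℝ) ≤ 1 := by
            rw [div_le_one hl0]; exact hl1
          have h12 : 0 ≤ (3 * Real.log J) * (3 * Real.log J) * (1 / ((l : ℝ) * Real.sqrt l)) := by
            positivity
          nlinarith
        linarith
    _ ≤ (3 * Real.log J) * (3 * Real.log J) + (3 * Real.log J) * (3 * Real.log J) * C3 := by
        have := h3 Pr
        gcongr
    _ = 9 * (1 + C3) * (Real.log J) ^ 2 := by ring

end Pool.Agent.H5.W
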