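import Pool.Agent.H5.W.Outer4

namespace Pool.Agent.H5.W

open Finset

/-- the primes `p` -/
def pr (J m : ℕ) : Finset ℕ := (Ioc (J ^ 180) (J ^ 400 / m)).filter Nat.Prime

/-- the weight of a pair -/
noncomputable def Psi (J k k' P P' : ℕ) : ℝ :=
  if ((Nat.gcd (k + P * W k) (k' + P' * W k') : ℕ) : ℤ) ∣
      ((k * P : ℕ) : ℤ) - ((k' * P' : ℕ) : ℤ) then
    ((Nat.gcd (k + P * W k) (k' + P' * W k') : ℕ) : ℝ) * ((1 / (P : ℝ)) * (1 / (P' : ℝ)) *
      rhoz J (EE (k * P) (k' * P') (k + P * W k) (k' + P' * W k')) ^ 2) else 0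

theorem Psi_nonneg (J k k' P P' : ℕ) : 0 ≤ Psi J k k' P P' := by
  unfold Psi
  split_ifs
  · positivity
  · exact le_rfl

theorem pair_bound : ∃ C : ℝ, 0 < C ∧ ∀ J k k' P P' : ℕ, 2 ≤ J → k % 4 = 2 → k' % 4 = 2 →
    k ≤ J ^ 17 → k' ≤ J ^ 17 → P ∈ Ps J → P' ∈ Ps J → k * P ≠ k' * P' →
    (((pr J (k * P) ×ˢ pr J (k' * P')).filter (fun pp =>
      k * P + pp.1 * (k + P * W k) = k' * P' + pp.2 * (k' + P' * W k'))).card : ℝ) ≤
    C * (J : ℝ) ^ 400 / (Real.log J) ^ 2 * ((1 / (k : ℝ)) * (1 / (k' : ℝ)) * Psi J k k' P P') +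
      (J : ℝ) ^ 4 := by
  obtain ⟨C, hC, hps⟩ := pair_sieve
  refine ⟨4 * C, by positivity, ?_⟩
  intro J k k' P P' hJ hk4 hk4' hkJ hkJ' hP hP' hne
  set m := k * P with hm
  set m' := k' * P' with hm'
  set w := k + P * W k with hw
  set w' := k' + P' * W k' with hw'
  have hk0 : 0 < k := by omega
  have hk0' : 0 < k' := by omega
  obtain ⟨hPp, hPJ, hPJ2⟩ := mem_Ps hP
  obtain ⟨hPp', hPJ', hPJ2'⟩ := mem_Ps hP'
  have hw0 : 0 < w := by omega
  have hw0' : 0 < w' := by omega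
  have hm0 : 0 < m := Nat.mul_pos hk0 hPp.pos
  have hm0' : 0 < m' := Nat.mul_pos hk0' hPp'.pos
  have hJpow : J ≤ J ^ 180 := by
    calc J = J ^ 1 := (pow_one J).symm
      _ ≤ J ^ 180 := Nat.pow_le_pow_right (by omega) (by norm_num)
  have hlog : 0 < Real.log J := Real.log_pos (by exact_mod_cast hJ)
  set A := (pr J m ×ˢ pr J m').filter (fun pp => m + pp.1 * w = m' + pp.2 * w') with hA
  have hAmem : ∀ pp ∈ A, pp.1.Prime ∧ pp.2.Prime ∧ J < pp.1 ∧ J < pp.2 ∧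
      pp.1 ≤ J ^ 400 / m ∧ m + pp.1 * w = m' + pp.2 * w' := by
    intro pp hpp
    rw [hA, mem_filter, mem_product, pr, mem_filter, mem_Ioc, pr, mem_filter, mem_Ioc] at hpp
    obtain ⟨⟨⟨⟨h1, h2⟩, h3⟩, ⟨⟨h4, h5⟩, h6⟩⟩, h7⟩ := hpp
    exact ⟨h3, h6, by omega, by omega, h2, h7⟩
  have hPsi := Psi_nonneg J k k' P P'
  by_cases hg : ((Nat.gcd w w' : ℕ) : ℤ) ∣ (m : ℤ) - (m' : ℤ)
  · set V := m + (J ^ 400 / m) * w with hV
    set S := A.image (fun pp => m + pp.1 * w) with hS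
    have hcard : S.card = A.card := by
      rw [hS]
      apply card_image_of_injOn
      intro pp hpp qq hqq heq
      have h1 := (hAmem pp hpp).2.2.2.2.2
      have h2 := (hAmem qq hqq).2.2.2.2.2
      simp only at heq
      have h3 : pp.1 * w = qq.1 * w := by omega
      have h4 : pp.2 * w' = qq.2 * w' := by omega
      exact Prod.ext (Nat.eq_of_mul_eq_mul_right hw0 h3) (Nat.eq_of_mul_eq_mul_right hw0' h4)
    have h1 := hps J m m' w w' V hJ hw0 hw0' hne S (by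
      intro v hv
      rw [hS, mem_image] at hv
      obtain ⟨pp, hpp, rfl⟩ := hv
      obtain ⟨a1, a2, a3, a4, a5, a6⟩ := hAmem pp hpp
      refine ⟨by omega, ?_, pp.1, pp.2, a1, a2, a3, a4, rfl, a6⟩
      rw [hV]
      have := Nat.mul_le_mul_right w a5
      omega)
    rw [hcard] at h1
    have hmR : (0 : ℝ) < m := by exact_mod_cast hm0
    have hmR' : (0 : ℝ) < m' := by exact_mod_cast hm0'
    have hwR : (0 : ℝ) < w := by exact_mod_cast hw0
    have hwR' : (0 : ℝ) < w' := by exact_mod_cast hw0'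
    have hJ1 : (1 : ℝ) ≤ J := by exact_mod_cast (by omega : 1 ≤ J)
    -- w' ≥ m'/2
    have hwm' : (m' : ℝ) ≤ 2 * w' := by
      have h2 := W_ge_half k' hk4'
      have h3 : m' ≤ 2 * w' := by
        rw [hm', hw']
        nlinarith [Nat.mul_le_mul_right P' h2]
      exact_mod_cast h3
    have hmm : (m : ℝ) ^ 2 ≤ (J : ℝ) ^ 400 * w := by
      have h2 : m ≤ J ^ 177 := by
        calc m ≤ J ^ 17 * J ^ 160 := Nat.mul_le_mul hkJ hPJ2
          _ = J ^ 177 := by ring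
      have h3 : (m : ℝ) ≤ (J : ℝ) ^ 177 := by exact_mod_cast h2
      have h4 : (1 : ℝ) ≤ w := by exact_mod_cast hw0
      calc (m : ℝ) ^ 2 ≤ ((J : ℝ) ^ 177) ^ 2 := by gcongr
        _ = (J : ℝ) ^ 354 := by ring
        _ ≤ (J : ℝ) ^ 400 := pow_le_pow_right₀ hJ1 (by norm_num)
        _ ≤ (J : ℝ) ^ 400 * w := by
          have : 0 ≤ (J : ℝ) ^ 400 := by positivity
          nlinarith
    have hVle : (V : ℝ) ≤ 2 * (J : ℝ) ^ 400 * w / m := by
      rw [hV]
      push_cast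
      have h2 : (((J ^ 400 / m : ℕ)) : ℝ) ≤ (J : ℝ) ^ 400 / m := by
        have := @Nat.cast_div_le ℝ _ _ _ (J ^ 400) m
        push_cast at this
        exact this
      have h3 : (m : ℝ) ≤ (J : ℝ) ^ 400 * w / m := by
        rw [le_div_iff₀ hmR]
        nlinarith
      calc (m : ℝ) + ((J ^ 400 / m : ℕ) : ℝ) * w
          ≤ (J : ℝ) ^ 400 * w / m + (J : ℝ) ^ 400 / m * w := by gcongr
        _ = 2 * (J : ℝ) ^ 400 * w / m := by ring
    have hPR : (0 : ℝ) < P := by exact_mod_cast hPp.pos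
    have hPR' : (0 : ℝ) < P' := by exact_mod_cast hPp'.pos
    have hkR : (0 : ℝ) < k := by exact_mod_cast hk0
    have hkR' : (0 : ℝ) < k' := by exact_mod_cast hk0'
    have hPsieq : Psi J k k' P P' = ((Nat.gcd w w' : ℕ) : ℝ) * ((1 / (P : ℝ)) * (1 / (P' : ℝ)) *
        rhoz J (EE m m' w w') ^ 2) := by
      unfold Psi
      rw [if_pos hg]
    have hmcast : (m : ℝ) = k * P := by rw [hm]; push_cast; ring
    have hmcast' : (m' : ℝ) = k' * P' := by rw [hm']; push_cast; ring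
    refine h1.trans ?_
    gcongr
    calc C * ((V : ℝ) * (Nat.gcd w w' : ℕ) / (w * w')) * rhoz J (EE m m' w w') ^ 2 /
          Real.log J ^ 2
        ≤ C * ((2 * (J : ℝ) ^ 400 * w / m) * (Nat.gcd w w' : ℕ) / (w * w')) *
          rhoz J (EE m m' w w') ^ 2 / Real.log J ^ 2 := by gcongr
      _ = C * (2 * (J : ℝ) ^ 400 * (Nat.gcd w w' : ℕ) / m * (1 / w')) *
          rhoz J (EE m m' w w') ^ 2 / Real.log J ^ 2 := by
          field_simp
      _ ≤ C * (2 * (J : ℝ) ^ 400 * (Nat.gcd w w' : ℕ) / m * (2 / m')) *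
          rhoz J (EE m m' w w') ^ 2 / Real.log J ^ 2 := by
          have : 1 / (w' : ℝ) ≤ 2 / m' := by
            rw [div_le_div_iff₀ hwR' hmR']; linarith
          gcongr
      _ = 4 * C * (J : ℝ) ^ 400 / Real.log J ^ 2 *
          ((1 / (k : ℝ)) * (1 / (k' : ℝ)) * Psi J k k' P P') := by
          rw [hPsieq, hmcast, hmcast']
          field_simp
          ring
  · have hempty : A = ∅ := by
      rw [eq_empty_iff_forall_notMem]
      intro pp hpp
      apply hg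
      have h7 := (hAmem pp hpp).2.2.2.2.2
      have h8 : (m : ℤ) - m' = (pp.2 : ℤ) * w' - (pp.1 : ℤ) * w := by
        have : ((m + pp.1 * w : ℕ) : ℤ) = ((m' + pp.2 * w' : ℕ) : ℤ) := by rw [h7]
        push_cast at this
        linarith
      rw [h8]
      apply dvd_sub
      · exact (Int.natCast_dvd_natCast.mpr (Nat.gcd_dvd_right w w')).mul_left _
      · exact (Int.natCast_dvd_natCast.mpr (Nat.gcd_dvd_left w w')).mul_left _
    rw [hempty]
    simp only [card_empty, Nat.cast_zero]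
    positivity

end Pool.Agent.H5.W
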