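import Pool.Agent.H5.W.CaseTwo

namespace Pool.Agent.H5.W

open Finset

theorem sum_inv_Icc_le (N : ℕ) : ∑ i ∈ Icc 1 N, 1 / (i : ℝ) ≤ 1 + Real.log N := by
  have h := harmonic_le_one_add_log N
  rw [harmonic_eq_sum_Icc] at h
  push_cast at h
  simpa [one_div] using h

/-- the primes `P > P'` with `d ∣ P - P'` -/
theorem sum_d_class (J P' d : ℕ) (hd : 0 < d) :
    ∑ P ∈ (Ps J).filter (fun P => P' < P ∧ d ∣ P - P'), (d : ℝ) * (1 / (P : ℝ)) ≤
      ∑ i ∈ Icc 1 (J ^ 160), 1 / (i : ℝ) := by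
  have h1 : ∀ P ∈ (Ps J).filter (fun P => P' < P ∧ d ∣ P - P'),
      (d : ℝ) * (1 / (P : ℝ)) ≤ 1 / (((P - P') / d : ℕ) : ℝ) := by
    intro P hP
    rw [mem_filter] at hP
    obtain ⟨hP1, hlt, i, hi⟩ := hP
    have hi0 : i ≠ 0 := by
      rintro rfl
      rw [mul_zero] at hi
      omega
    rw [hi, Nat.mul_div_cancel_left _ hd]
    have hPpos : 0 < P := by omega
    have hle : d * i ≤ P := by omega
    have hle' : (d : ℝ) * i ≤ P := by exact_mod_cast hle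
    have hi' : (0 : ℝ) < i := by exact_mod_cast Nat.pos_of_ne_zero hi0
    have hP' : (0 : ℝ) < P := by exact_mod_cast hPpos
    rw [mul_one_div, div_le_div_iff₀ hP' hi']
    linarith
  refine (sum_le_sum h1).trans ?_
  have h2 : Set.InjOn (fun P => (P - P') / d)
      (((Ps J).filter (fun P => P' < P ∧ d ∣ P - P') : Finset ℕ) : Set ℕ) := by
    intro P hP R hR h
    rw [mem_coe, mem_filter] at hP hR
    obtain ⟨_, hlt, i, hi⟩ := hP
    obtain ⟨_, hlt', i', hi'⟩ := hR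
    simp only at h
    rw [hi, hi', Nat.mul_div_cancel_left _ hd, Nat.mul_div_cancel_left _ hd] at h
    subst h
    omega
  rw [← sum_image (f := fun i : ℕ => 1 / (i : ℝ)) h2]
  apply sum_le_sum_of_subset_of_nonneg
  · intro i hi
    rw [mem_image] at hi
    obtain ⟨P, hP, rfl⟩ := hi
    rw [mem_filter] at hP
    obtain ⟨hP1, hlt, i, hi⟩ := hP
    have hi0 : i ≠ 0 := by
      rintro rfl
      rw [mul_zero] at hi
      omega
    have h160 := (mem_Ps hP1).2.2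
    rw [hi, Nat.mul_div_cancel_left _ hd, mem_Icc]
    refine ⟨Nat.one_le_iff_ne_zero.mpr hi0, ?_⟩
    have : i ≤ d * i := Nat.le_mul_of_pos_left i hd
    omega
  · intro i _ _
    positivity

theorem gcd_dvd_sub (k P P' : ℕ) (hk : k ≠ 0) (h : P' < P) :
    Nat.gcd (k + P * W k) (k + P' * W k) ∣ P - P' := by
  set g := Nat.gcd (k + P * W k) (k + P' * W k) with hg
  have h1 : g ∣ (k + P * W k) := Nat.gcd_dvd_left _ _
  have h2 : g ∣ (k + P' * W k) := Nat.gcd_dvd_right _ _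
  have h3 : g ∣ (P - P') * W k := by
    have h4 := Nat.dvd_sub h1 h2
    have h5 : k + P * W k - (k + P' * W k) = (P - P') * W k := by
      rw [Nat.sub_mul]; omega
    rwa [h5] at h4
  have hcop : g.Coprime (W k) := by
    rw [Nat.coprime_iff_gcd_eq_one]
    by_contra hne
    obtain ⟨l, hl, hdvd⟩ := Nat.exists_prime_and_dvd hne
    have hlg : l ∣ g := hdvd.trans (Nat.gcd_dvd_left _ _)
    have hlW : l ∣ W k := hdvd.trans (Nat.gcd_dvd_right _ _)
    have hlk : l ∣ k := by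
      have h6 := hlg.trans h1
      exact (Nat.dvd_add_left (hlW.mul_left P)).mp h6
    have h7 := Nat.dvd_gcd hlk hlW
    rw [Nat.coprime_iff_gcd_eq_one.mp (W_coprime k hk)] at h7
    exact hl.one_lt.ne' (Nat.dvd_one.mp h7)
  exact hcop.dvd_of_dvd_mul_right h3

theorem sum_fixed (J k P' : ℕ) (hk : k ≠ 0) :
    ∑ P ∈ (Ps J).filter (fun P => P' < P),
      ((Nat.gcd (k + P * W k) (k + P' * W k) : ℕ) : ℝ) * (1 / (P : ℝ)) ≤
    ((k + P' * W k).divisors.card : ℝ) * ∑ i ∈ Icc 1 (J ^ 160), 1 / (i : ℝ) := by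
  have hw : k + P' * W k ≠ 0 := by omega
  have h1 : ∀ P ∈ (Ps J).filter (fun P => P' < P),
      ((Nat.gcd (k + P * W k) (k + P' * W k) : ℕ) : ℝ) * (1 / (P : ℝ)) ≤
      ∑ d ∈ (k + P' * W k).divisors, if d ∣ P - P' then (d : ℝ) * (1 / (P : ℝ)) else 0 := by
    intro P hP
    rw [mem_filter] at hP
    have hmem : Nat.gcd (k + P * W k) (k + P' * W k) ∈ (k + P' * W k).divisors := by
      rw [Nat.mem_divisors]
      exact ⟨Nat.gcd_dvd_right _ _, hw⟩
    have := single_le_sum (f := fun d : ℕ => if d ∣ P - P' then (d : ℝ) * (1 / (P : ℝ)) else 0)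
      (s := (k + P' * W k).divisors) (fun d _ => by
        split_ifs
        · positivity
        · exact le_rfl) hmem
    rwa [if_pos (gcd_dvd_sub k P P' hk hP.2)] at this
  refine (sum_le_sum h1).trans ?_
  rw [sum_comm]
  have h2 : ∀ d ∈ (k + P' * W k).divisors,
      ∑ P ∈ (Ps J).filter (fun P => P' < P), (if d ∣ P - P' then (d : ℝ) * (1 / (P : ℝ)) else 0)
      ≤ ∑ i ∈ Icc 1 (J ^ 160), 1 / (i : ℝ) := by
    intro d hd
    rw [← sum_filter, filter_filter]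
    exact sum_d_class J P' d (Nat.pos_of_mem_divisors hd)
  refine (sum_le_sum h2).trans ?_
  rw [sum_const, nsmul_eq_mul]

theorem part_half : ∃ C : ℝ, 0 < C ∧ ∀ J k : ℕ, 2 ≤ J → k ≠ 0 → k ≤ J ^ 17 →
    ∑ P' ∈ Ps J, ∑ P ∈ Ps J, (if P' < P then
      ((Nat.gcd (k + P * W k) (k + P' * W k) : ℕ) : ℝ) * ((1 / (P : ℝ)) * (1 / (P' : ℝ)))
      else 0) ≤ C * J ^ 2 := by
  obtain ⟨C, hC, hdiv⟩ := divisor_bound (1 / 200) (by norm_num)
  refine ⟨C * 161 * 1440, by positivity, ?_⟩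
  intro J k hJ hk hkJ
  have hJR : (2 : ℝ) ≤ J := by exact_mod_cast hJ
  have hJ0 : (0 : ℝ) < J := by linarith
  have hH : ∑ i ∈ Icc 1 (J ^ 160), 1 / (i : ℝ) ≤ 161 * J := by
    refine (sum_inv_Icc_le _).trans ?_
    push_cast
    rw [Real.log_pow]
    have := Real.log_le_sub_one_of_pos hJ0
    push_cast
    linarith
  have htau : ∀ P' ∈ Ps J, ((k + P' * W k).divisors.card : ℝ) ≤ C * J := by
    intro P' hP'
    have hw1 : 1 ≤ k + P' * W k := by omega
    have hw2 : k + P' * W k ≤ J ^ 200 := by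
      have h160 := (mem_Ps hP').2.2
      have hWk : W k ≤ J ^ 34 := by
        calc W k ≤ k ^ 2 := W_le_sq k
          _ ≤ (J ^ 17) ^ 2 := Nat.pow_le_pow_left hkJ 2
          _ = J ^ 34 := by ring
      calc k + P' * W k ≤ J ^ 17 + J ^ 160 * J ^ 34 :=
            Nat.add_le_add hkJ (Nat.mul_le_mul h160 hWk)
        _ = J ^ 17 + J ^ 194 := by ring
        _ ≤ J ^ 194 + J ^ 194 := by
            have : J ^ 17 ≤ J ^ 194 := Nat.pow_le_pow_right (by omega) (by norm_num)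
            omega
        _ = 2 * J ^ 194 := by ring
        _ ≤ J * J ^ 194 := Nat.mul_le_mul_right _ hJ
        _ = J ^ 195 := by ring
        _ ≤ J ^ 200 := Nat.pow_le_pow_right (by omega) (by norm_num)
    have hw2' : ((k + P' * W k : ℕ) : ℝ) ≤ (J : ℝ) ^ 200 := by exact_mod_cast hw2
    calc ((k + P' * W k).divisors.card : ℝ) ≤ C * ((k + P' * W k : ℕ) : ℝ) ^ ((1 : ℝ) / 200) :=
          hdiv _ hw1
      _ ≤ C * ((J : ℝ) ^ 200) ^ ((1 : ℝ) / 200) := by
          gcongr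
      _ = C * J := by
          rw [← Real.rpow_natCast, ← Real.rpow_mul hJ0.le]
          norm_num
  have hPs : ∑ P' ∈ Ps J, 1 / (P' : ℝ) ≤ 1440 := by
    have h1 := sum_AA J 1 1 hJ one_ne_zero one_pos (Nat.one_le_pow _ _ (by omega))
    have h2 : AA J 1 1 = Ps J := by
      unfold AA
      rw [filter_true_of_mem]
      intro P _
      exact one_dvd _
    rw [h2] at h1
    have h3 : rho 1 = 1 := by simp [rho]
    rw [h3] at h1
    norm_num at h1 ⊢
    linarith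
  have hmain : ∀ P' ∈ Ps J, ∑ P ∈ Ps J, (if P' < P then
      ((Nat.gcd (k + P * W k) (k + P' * W k) : ℕ) : ℝ) * ((1 / (P : ℝ)) * (1 / (P' : ℝ)))
      else 0) ≤ (C * 161 * J ^ 2) * (1 / (P' : ℝ)) := by
    intro P' hP'
    have h1 := sum_fixed J k P' hk
    have h2 := htau P' hP'
    rw [← sum_filter]
    have h3 : ∑ P ∈ (Ps J).filter (fun P => P' < P),
        ((Nat.gcd (k + P * W k) (k + P' * W k) : ℕ) : ℝ) * ((1 / (P : ℝ)) * (1 / (P' : ℝ))) =
        (∑ P ∈ (Ps J).filter (fun P => P' < P),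
          ((Nat.gcd (k + P * W k) (k + P' * W k) : ℕ) : ℝ) * (1 / (P : ℝ))) * (1 / (P' : ℝ)) := by
      rw [sum_mul]
      apply sum_congr rfl
      intro P _
      ring
    rw [h3]
    apply mul_le_mul_of_nonneg_right _ (by positivity)
    calc _ ≤ ((k + P' * W k).divisors.card : ℝ) * ∑ i ∈ Icc 1 (J ^ 160), 1 / (i : ℝ) := h1
      _ ≤ (C * J) * (161 * J) := by
          apply mul_le_mul h2 hH
          · exact sum_nonneg fun i _ => by positivity
          · positivity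
      _ = C * 161 * J ^ 2 := by ring
  calc _ ≤ ∑ P' ∈ Ps J, (C * 161 * J ^ 2) * (1 / (P' : ℝ)) := sum_le_sum hmain
    _ = (C * 161 * J ^ 2) * ∑ P' ∈ Ps J, (1 / (P' : ℝ)) := by rw [mul_sum]
    _ ≤ (C * 161 * J ^ 2) * 1440 := by gcongr
    _ = C * 161 * 1440 * J ^ 2 := by ring

theorem part_one : ∃ C : ℝ, 0 < C ∧ ∀ J k : ℕ, 2 ≤ J → k ≠ 0 → k ≤ J ^ 17 →
    ∑ P ∈ Ps J, ∑ P' ∈ Ps J, (if P ≠ P' then
      ((Nat.gcd (k + P * W k) (k + P' * W k) : ℕ) : ℝ) * ((1 / (P : ℝ)) * (1 / (P' : ℝ)))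
      else 0) ≤ C * J ^ 2 := by
  obtain ⟨C, hC, h⟩ := part_half
  refine ⟨2 * C, by positivity, ?_⟩
  intro J k hJ hk hkJ
  have h1 := h J k hJ hk hkJ
  have h2 : ∀ P ∈ Ps J, ∀ P' ∈ Ps J, (if P ≠ P' then
      ((Nat.gcd (k + P * W k) (k + P' * W k) : ℕ) : ℝ) * ((1 / (P : ℝ)) * (1 / (P' : ℝ)))
      else 0) = (if P < P' then
      ((Nat.gcd (k + P' * W k) (k + P * W k) : ℕ) : ℝ) * ((1 / (P' : ℝ)) * (1 / (P : ℝ)))
      else 0) + (if P' < P then
      ((Nat.gcd (k + P * W k) (k + P' * W k) : ℕ) : ℝ) * ((1 / (P : ℝ)) * (1 / (P' : ℝ)))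
      else 0) := by
    intro P _ P' _
    rcases lt_trichotomy P P' with h3 | h3 | h3
    · rw [if_pos h3.ne, if_pos h3, if_neg (by omega), Nat.gcd_comm]
      ring
    · subst h3
      simp
    · rw [if_pos h3.ne', if_neg (by omega), if_pos h3]
      ring
  rw [sum_congr rfl fun P hP => sum_congr rfl (h2 P hP)]
  simp only [sum_add_distrib]
  have h4 : ∑ P ∈ Ps J, ∑ P' ∈ Ps J, (if P' < P then
      ((Nat.gcd (k + P * W k) (k + P' * W k) : ℕ) : ℝ) * ((1 / (P : ℝ)) * (1 / (P' : ℝ)))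
      else 0) = ∑ P' ∈ Ps J, ∑ P ∈ Ps J, (if P' < P then
      ((Nat.gcd (k + P * W k) (k + P' * W k) : ℕ) : ℝ) * ((1 / (P : ℝ)) * (1 / (P' : ℝ)))
      else 0) := sum_comm
  rw [h4]
  linarith

end Pool.Agent.H5.W
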